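import Pool.Agent.CLU.Defs

/-!
# CLU / Coord: linear coordinates, affine coordinates and the generation of the function field

`l : Fin 4 → S` are linearly independent linear forms.  The affine coordinates of the chart
`l 1 ≠ 0` are `x = l 0 / l 1`, `w = l 3 / l 1`, `z = l 2 / l 1`, in this order: `cx l`.
-/

set_option autoImplicit false

namespace Pool.Agent.CLU

open MvPolynomial

/-- The linear form with coefficients `v`. -/
private noncomputable def lf : (Fin 4 → ℂ) →ₗ[ℂ] S where
  toFun v := ∑ j, C (v j) * X j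
  map_add' u v := by
    simp only [Pi.add_apply, C_add, add_mul, Finset.sum_add_distrib]
  map_smul' c v := by
    simp only [Pi.smul_apply, smul_eq_mul, C_mul, RingHom.id_apply, Finset.smul_sum, smul_eq_C_mul,
      mul_assoc]

private theorem lf_apply (v : Fin 4 → ℂ) : lf v = ∑ j, C (v j) * X j := rfl

private theorem lf_coeff (v : Fin 4 → ℂ) (i : Fin 4) :
    coeff (Finsupp.single i 1) (lf v) = v i := by
  rw [lf_apply, coeff_sum]
  rw [Finset.sum_eq_single i]
  · rw [coeff_C_mul, coeff_X', if_pos rfl, mul_one]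
  · intro j _ hj
    rw [coeff_C_mul, coeff_X', if_neg, mul_zero]
    intro h
    exact hj (Finsupp.single_left_injective one_ne_zero h)
  · intro h
    exact absurd (Finset.mem_univ i) h

private theorem lf_ker : LinearMap.ker lf = ⊥ := by
  rw [LinearMap.ker_eq_bot']
  intro v hv
  ext i
  rw [← lf_coeff v i, hv, coeff_zero]
  rfl

private theorem lf_hom (v : Fin 4 → ℂ) : (lf v).IsHomogeneous 1 := by
  rw [lf_apply]
  exact IsHomogeneous.sum _ _ _ fun j _ => isHomogeneous_C_mul_X _ _

theorem exists_matrix (l : Fin 4 → S) (hl : ∀ i, (l i).IsHomogeneous 1)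
    (hli : LinearIndependent ℂ l) :
    ∃ M : Matrix (Fin 4) (Fin 4) ℂ, IsUnit M.det ∧ ∀ i, l i = ∑ j, C (M i j) * X j := by
  have h1 : ∀ i, ∃ c : Fin 4 → ℂ, l i = lf c := by
    intro i
    have h2 : l i ∈ homogeneousSubmodule (Fin 4) ℂ 1 := hl i
    rw [homogeneousSubmodule_one_eq_span_X, Submodule.mem_span_range_iff_exists_fun] at h2
    obtain ⟨c, hc⟩ := h2
    refine ⟨c, ?_⟩
    rw [← hc, lf_apply]
    exact Finset.sum_congr rfl fun j _ => smul_eq_C_mul _ _
  choose M hM using h1
  refine ⟨Matrix.of M, ?_, fun i => hM i⟩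
  rw [← Matrix.isUnit_iff_isUnit_det, ← Matrix.linearIndependent_rows_iff_isUnit]
  apply LinearIndependent.of_comp lf
  have : lf ∘ (Matrix.of M).row = l := by
    funext i
    exact (hM i).symm
  rwa [this]

private theorem aeval_lf (l : Fin 4 → S) (v : Fin 4 → ℂ) :
    aeval l (lf v) = ∑ j, C (v j) * l j := by
  rw [lf_apply, map_sum]
  refine Finset.sum_congr rfl fun j _ => ?_
  rw [map_mul, aeval_C, aeval_X]
  rfl

/-- The inverse substitution. -/
theorem exists_inverse (l : Fin 4 → S) (hl : ∀ i, (l i).IsHomogeneous 1)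
    (hli : LinearIndependent ℂ l) :
    ∃ l' : Fin 4 → S, (∀ i, (l' i).IsHomogeneous 1) ∧ LinearIndependent ℂ l' ∧
      (∀ F : S, aeval l (aeval l' F) = F) ∧ ∀ F : S, aeval l' (aeval l F) = F := by
  obtain ⟨M, hM, hlM⟩ := exists_matrix l hl hli
  have hlM' : ∀ i, l i = lf (M i) := hlM
  have key : ∀ (A B : Matrix (Fin 4) (Fin 4) ℂ), A * B = 1 → ∀ F : S,
      aeval (fun i => lf (B i)) (aeval (fun i => lf (A i)) F) = F := by
    intro A B hAB F
    have h1 : (aeval (fun i => lf (B i))).comp (aeval (fun i => lf (A i))) =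
        AlgHom.id ℂ S := by
      apply algHom_ext
      intro i
      rw [AlgHom.comp_apply, aeval_X, AlgHom.id_apply, aeval_lf]
      have h2 : ∑ j, C (A i j) * lf (B j) = lf (fun k => (A * B) i k) := by
        have h3 : (fun k => (A * B) i k) = ∑ j, A i j • (B j) := by
          funext k
          rw [Matrix.mul_apply, Finset.sum_apply]
          rfl
        rw [h3, map_sum]
        refine Finset.sum_congr rfl fun j _ => ?_
        rw [map_smul, smul_eq_C_mul]
      rw [h2, hAB, lf_apply]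
      rw [Finset.sum_eq_single i]
      · rw [Matrix.one_apply_eq, C_1, one_mul]
      · intro j _ hj
        rw [Matrix.one_apply_ne hj.symm, C_0, zero_mul]
      · intro h
        exact absurd (Finset.mem_univ i) h
    exact DFunLike.congr_fun h1 F
  have hl2 : l = fun i => lf (M i) := funext hlM'
  have hM' : IsUnit M := (Matrix.isUnit_iff_isUnit_det _).2 hM
  refine ⟨fun i => lf (M⁻¹ i), fun i => lf_hom _, ?_, ?_, ?_⟩
  · have h1 : LinearIndependent ℂ (M⁻¹).row := by
      rw [Matrix.linearIndependent_rows_iff_isUnit]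
      exact (Matrix.isUnit_nonsing_inv_iff).2 hM'
    exact h1.map' lf lf_ker
  · intro F
    rw [hl2]
    exact key _ _ (Matrix.nonsing_inv_mul _ hM) F
  · intro F
    rw [hl2]
    exact key _ _ (Matrix.mul_nonsing_inv _ hM) F

theorem ratio_mem (d : ℕ) (A B : S) (hA : A.IsHomogeneous d) (hB : B.IsHomogeneous d) :
    algebraMap S L A / algebraMap S L B ∈ K3 := by
  rcases eq_or_ne B 0 with h | h
  · rw [h, map_zero, div_zero]; exact zero_mem _
  · exact ⟨d, A, B, hA, hB, h, rfl⟩

/-- The affine coordinates `x = l 0 / l 1`, `w = l 3 / l 1`, `z = l 2 / l 1`. -/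
noncomputable def cx (l : Fin 4 → S) (hl : ∀ i, (l i).IsHomogeneous 1) : Fin 3 → K3 :=
  ![⟨_, ratio_mem 1 (l 0) (l 1) (hl 0) (hl 1)⟩, ⟨_, ratio_mem 1 (l 3) (l 1) (hl 3) (hl 1)⟩,
    ⟨_, ratio_mem 1 (l 2) (l 1) (hl 2) (hl 1)⟩]

private theorem coe_aeval (f : Fin 3 → K3) (F1 : MvPolynomial (Fin 3) ℂ) :
    ((aeval f F1 : K3) : L) = aeval (fun i => (f i : L)) F1 := by
  have h1 : (K3.val).comp (aeval f) = aeval (fun i => (f i : L)) := by
    apply algHom_ext
    intro i
    rw [AlgHom.comp_apply, aeval_X, aeval_X]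
    rfl
  exact DFunLike.congr_fun h1 F1

private theorem toL_aeval (l : Fin 4 → S) (G : S) :
    algebraMap S L (aeval l G) = aeval (fun i => algebraMap S L (l i)) G := by
  have h1 : (IsScalarTower.toAlgHom ℂ S L).comp (aeval l) =
      aeval (fun i => algebraMap S L (l i)) := by
    apply algHom_ext
    intro i
    rw [AlgHom.comp_apply, aeval_X, aeval_X]
    rfl
  exact DFunLike.congr_fun h1 G

private theorem l1_ne (l : Fin 4 → S) (hli : LinearIndependent ℂ l) :
    algebraMap S L (l 1) ≠ 0 := by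
  have h := hli.ne_zero 1
  simpa using h

private theorem aeval_scale (d : ℕ) (G : S) (hG : G.IsHomogeneous d) (c : L) (v : Fin 4 → L) :
    aeval (fun i => c * v i) G = c ^ d * aeval v G := by
  rw [aeval_def, aeval_def, eval₂_eq', eval₂_eq', Finset.mul_sum]
  refine Finset.sum_congr rfl fun m hm => ?_
  have h1 : ∏ i, (c * v i) ^ m i = c ^ d * ∏ i, v i ^ m i := by
    simp only [mul_pow]
    rw [Finset.prod_mul_distrib, Finset.prod_pow_eq_pow_sum]
    congr 2
    have h2 := hG (mem_support_iff.1 hm)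
    rw [← h2]
    simp [Finsupp.weight_apply, Finsupp.sum_fintype]
  rw [h1]
  ring

/-- Dehomogenisation: a form `F` of degree `d` is `l_1^d F_1(x, w, z)`. -/
theorem form_eq (l : Fin 4 → S) (hl : ∀ i, (l i).IsHomogeneous 1)
    (hli : LinearIndependent ℂ l) (d : ℕ) (F : S) (hF : F.IsHomogeneous d) :
    ∃ F1 : MvPolynomial (Fin 3) ℂ,
      algebraMap S L F = algebraMap S L (l 1) ^ d * ((aeval (cx l hl) F1 : K3) : L) := by
  obtain ⟨l', hl', -, h1, -⟩ := exists_inverse l hl hli
  have hG : (aeval l' F : S).IsHomogeneous d := by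
    have := hF.aeval l' hl'
    simpa using this
  set G : S := aeval l' F with hGdef
  have hl1 := l1_ne l hli
  refine ⟨aeval (![X 0, 1, X 2, X 1] : Fin 4 → MvPolynomial (Fin 3) ℂ) G, ?_⟩
  rw [← h1 F, ← hGdef, toL_aeval, coe_aeval]
  have h2 : (fun i => algebraMap S L (l i)) =
      fun i => algebraMap S L (l 1) * (algebraMap S L (l i) / algebraMap S L (l 1)) := by
    funext i
    rw [mul_div_cancel₀ _ hl1]
  rw [h2, aeval_scale d G hG]
  congr 1
  have h3 : (aeval (fun i => ((cx l hl i : K3) : L))).comp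
      (aeval (![X 0, 1, X 2, X 1] : Fin 4 → MvPolynomial (Fin 3) ℂ)) =
      aeval (fun i => algebraMap S L (l i) / algebraMap S L (l 1)) := by
    apply algHom_ext
    intro i
    rw [AlgHom.comp_apply, aeval_X, aeval_X]
    fin_cases i
    · simp [cx]
    · simp [hl1]
    · simp [cx]
    · simp [cx]
  exact (DFunLike.congr_fun h3 G).symm

private theorem cancel_aux (k a b c u : L) (p q r e : ℕ) (hu : u ≠ 0) :
    k * ((a / u) ^ p * (b / u) ^ q * (c / u) ^ r) =
      k * (a ^ p * b ^ q * c ^ r * u ^ e) / (u ^ (p + q + r) * u ^ e) := by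
  rw [← mul_assoc k (a ^ p * b ^ q * c ^ r) (u ^ e), mul_div_mul_right _ _ (pow_ne_zero _ hu),
    div_pow, div_pow, div_pow, pow_add, pow_add, div_mul_div_comm, div_mul_div_comm,
    mul_div_assoc k]

/-- Homogenisation: `F_1(x, w, z) = F / l_1^d` for all large `d`, with a form `F` of degree `d`. -/
theorem hom_eq (l : Fin 4 → S) (hl : ∀ i, (l i).IsHomogeneous 1)
    (hli : LinearIndependent ℂ l) (F1 : MvPolynomial (Fin 3) ℂ) (d : ℕ) (hd : F1.totalDegree ≤ d) :
    ∃ F : S, F.IsHomogeneous d ∧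
      ((aeval (cx l hl) F1 : K3) : L) = algebraMap S L F / algebraMap S L (l 1) ^ d := by
  have hl1 := l1_ne l hli
  have hdeg : ∀ m ∈ F1.support, m 0 + m 1 + m 2 ≤ d := by
    intro m hm
    have h1 := le_totalDegree hm
    have h2 : (m.sum fun _ e => e) = m 0 + m 1 + m 2 := by
      rw [Finsupp.sum_fintype _ _ (fun _ => rfl), Fin.sum_univ_three]
    rw [h2] at h1
    exact h1.trans hd
  refine ⟨∑ m ∈ F1.support, C (coeff m F1) *
    (l 0 ^ m 0 * l 3 ^ m 1 * l 2 ^ m 2 * l 1 ^ (d - (m 0 + m 1 + m 2))), ?_, ?_⟩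
  · refine IsHomogeneous.sum _ _ _ fun m hm => ?_
    refine IsHomogeneous.C_mul ?_ _
    have h := (((hl 0).pow (m 0)).mul ((hl 3).pow (m 1))).mul ((hl 2).pow (m 2)) |>.mul
      ((hl 1).pow (d - (m 0 + m 1 + m 2)))
    have h2 := hdeg m hm
    have h3 : 1 * m 0 + 1 * m 1 + 1 * m 2 + 1 * (d - (m 0 + m 1 + m 2)) = d := by omega
    rwa [h3] at h
  · rw [coe_aeval, aeval_def, eval₂_eq', map_sum, Finset.sum_div]
    refine Finset.sum_congr rfl fun m hm => ?_
    have h2 := hdeg m hm
    rw [Fin.prod_univ_three]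
    have e0 : ((cx l hl 0 : K3) : L) = algebraMap S L (l 0) / algebraMap S L (l 1) := rfl
    have e1 : ((cx l hl 1 : K3) : L) = algebraMap S L (l 3) / algebraMap S L (l 1) := rfl
    have e2 : ((cx l hl 2 : K3) : L) = algebraMap S L (l 2) / algebraMap S L (l 1) := rfl
    have e3 : algebraMap S L (C (coeff m F1)) = algebraMap ℂ L (coeff m F1) := by
      rw [IsScalarTower.algebraMap_apply ℂ S L]
      rfl
    rw [e0, e1, e2, map_mul, map_mul, map_mul, map_mul, map_pow, map_pow, map_pow, map_pow, e3]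
    have h4 : algebraMap S L (l 1) ^ d = algebraMap S L (l 1) ^ (m 0 + m 1 + m 2) *
        algebraMap S L (l 1) ^ (d - (m 0 + m 1 + m 2)) := by
      rw [← pow_add]
      congr 1
      omega
    rw [h4]
    exact cancel_aux _ _ _ _ _ _ _ _ _ hl1

end Pool.Agent.CLU
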