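import Pool.Agent.CLU.Defs

/-!
# CLU / LinQ: linear and quadratic forms as functionals and bilinear forms
-/

set_option autoImplicit false

namespace Pool.Agent.CLU

open MvPolynomial

/-- The linear form with coefficients `c`. -/
noncomputable def lf : (Fin 4 → ℂ) →ₗ[ℂ] S :=
  Fintype.linearCombination ℂ (X : Fin 4 → S)

theorem lf_apply (c : Fin 4 → ℂ) : lf c = ∑ j, C (c j) * X j := by
  simp [lf, Fintype.linearCombination_apply, MvPolynomial.smul_eq_C_mul]

theorem lf_hom (c : Fin 4 → ℂ) : (lf c).IsHomogeneous 1 := by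
  rw [lf_apply]
  exact IsHomogeneous.sum _ _ _ fun j _ => isHomogeneous_C_mul_X _ _

theorem eval_lf (c v : Fin 4 → ℂ) : eval v (lf c) = c ⬝ᵥ v := by
  simp [lf_apply, dotProduct]

theorem lf_inj : Function.Injective lf := by
  intro a b h
  funext j
  have h1 := congrArg (eval (Pi.single j 1)) h
  simpa [eval_lf, dotProduct_single] using h1

theorem exists_lf (F : S) (hF : F.IsHomogeneous 1) : ∃ c, F = lf c := by
  have h1 : F ∈ homogeneousSubmodule (Fin 4) ℂ 1 := hF
  rw [homogeneousSubmodule_one_eq_span_X] at h1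
  obtain ⟨c, hc⟩ := (Submodule.mem_span_range_iff_exists_fun ℂ).1 h1
  exact ⟨c, by rw [← hc]; simp [lf, Fintype.linearCombination_apply]⟩

theorem exists_lform (φ : (Fin 4 → ℂ) →ₗ[ℂ] ℂ) :
    ∃ F : S, F.IsHomogeneous 1 ∧ ∀ v, eval v F = φ v := by
  refine ⟨lf (fun j => φ (Pi.single j 1)), lf_hom _, fun v => ?_⟩
  rw [eval_lf, dotProduct]
  conv_rhs => rw [pi_eq_sum_univ' v]
  rw [map_sum]
  refine Finset.sum_congr rfl fun j _ => ?_
  rw [map_smul, smul_eq_mul, mul_comm]

theorem exists_functional (F : S) (hF : F.IsHomogeneous 1) :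
    ∃ φ : (Fin 4 → ℂ) →ₗ[ℂ] ℂ, ∀ v, eval v F = φ v := by
  obtain ⟨c, rfl⟩ := exists_lf F hF
  refine ⟨dotProductBilin ℂ ℂ c, fun v => ?_⟩
  rw [eval_lf]; rfl

theorem exists_bilin (Q : S) (hQ : Q.IsHomogeneous 2) :
    ∃ B : (Fin 4 → ℂ) →ₗ[ℂ] (Fin 4 → ℂ) →ₗ[ℂ] ℂ,
      (∀ u v, B u v = B v u) ∧ ∀ v, eval v Q = B v v := by
  have h1 : Q ∈ homogeneousSubmodule (Fin 4) ℂ 1 ^ 2 := by
    rw [homogeneousSubmodule_one_pow]; exact hQ
  rw [pow_two] at h1
  refine Submodule.mul_induction_on h1 ?_ ?_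
  · intro m hm n hn
    obtain ⟨f, hf⟩ := exists_functional m hm
    obtain ⟨g, hg⟩ := exists_functional n hn
    refine ⟨(1 / 2 : ℂ) • (LinearMap.mk₂ ℂ (fun u v => f u * g v + g u * f v)
      (by intro a b c; simp only [map_add]; ring)
      (by intro a b c; simp only [map_smul, smul_eq_mul]; ring)
      (by intro a b c; simp only [map_add]; ring)
      (by intro a b c; simp only [map_smul, smul_eq_mul]; ring)), ?_, ?_⟩
    · intro u v
      simp only [LinearMap.smul_apply, LinearMap.mk₂_apply, smul_eq_mul]; ring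
    · intro v
      simp only [LinearMap.smul_apply, LinearMap.mk₂_apply, smul_eq_mul, map_mul, hf, hg]; ring
  · rintro x y ⟨B, hB, hB'⟩ ⟨B1, hB1, hB1'⟩
    refine ⟨B + B1, ?_, ?_⟩
    · intro u v
      simp only [LinearMap.add_apply, hB u v, hB1 u v]
    · intro v
      simp only [LinearMap.add_apply, map_add, hB' v, hB1' v]

theorem li_lf {ι : Type*} (c : ι → (Fin 4 → ℂ)) :
    LinearIndependent ℂ (fun i => lf (c i)) ↔ LinearIndependent ℂ c :=
  LinearMap.linearIndependent_iff (v := c) lf (LinearMap.ker_eq_bot.2 lf_inj)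

end Pool.Agent.CLU
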