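import Mathlib

/-!
# Cluster type for blow-ups of `ℙ^3`: definitions
-/

set_option autoImplicit false

namespace Pool.Agent.CLU

open MvPolynomial

/-- The homogeneous coordinate ring of `ℙ^3`. -/
abbrev S : Type := MvPolynomial (Fin 4) ℂ

/-- The field of fractions of `S`. -/
abbrev L : Type := FractionRing S

/-- The quotients of two forms of the same degree. -/
def ratSet : Set L :=
  {a | ∃ (d : ℕ) (A B : S), A.IsHomogeneous d ∧ B.IsHomogeneous d ∧ B ≠ 0 ∧
    a = algebraMap S L A / algebraMap S L B}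

theorem ratSet_mul {a b : L} (ha : a ∈ ratSet) (hb : b ∈ ratSet) : a * b ∈ ratSet := by
  obtain ⟨d, A, B, hA, hB, hB0, rfl⟩ := ha
  obtain ⟨e, A', B', hA', hB', hB0', rfl⟩ := hb
  refine ⟨d + e, A * A', B * B', hA.mul hA', hB.mul hB', mul_ne_zero hB0 hB0', ?_⟩
  rw [map_mul, map_mul, div_mul_div_comm]

theorem ratSet_add {a b : L} (ha : a ∈ ratSet) (hb : b ∈ ratSet) : a + b ∈ ratSet := by
  obtain ⟨d, A, B, hA, hB, hB0, rfl⟩ := ha
  obtain ⟨e, A', B', hA', hB', hB0', rfl⟩ := hb
  refine ⟨d + e, A * B' + B * A', B * B', (hA.mul hB').add (hB.mul hA'), hB.mul hB',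
    mul_ne_zero hB0 hB0', ?_⟩
  have h1 : algebraMap S L B ≠ 0 := by simpa using hB0
  have h2 : algebraMap S L B' ≠ 0 := by simpa using hB0'
  rw [map_add, map_mul, map_mul, map_mul, div_add_div _ _ h1 h2]

theorem ratSet_algebraMap (c : ℂ) : algebraMap ℂ L c ∈ ratSet := by
  refine ⟨0, C c, 1, isHomogeneous_C _ _, isHomogeneous_one _ _, one_ne_zero, ?_⟩
  rw [map_one, div_one, IsScalarTower.algebraMap_apply ℂ S L]
  rfl

theorem ratSet_one : (1 : L) ∈ ratSet := by
  have := ratSet_algebraMap 1
  rwa [map_one] at this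

theorem ratSet_zero : (0 : L) ∈ ratSet := by
  have := ratSet_algebraMap 0
  rwa [map_zero] at this

theorem ratSet_inv (a : L) (ha : a ∈ ratSet) : a⁻¹ ∈ ratSet := by
  obtain ⟨d, A, B, hA, hB, hB0, rfl⟩ := ha
  rcases eq_or_ne A 0 with h | h
  · refine ⟨0, 0, 1, isHomogeneous_zero _ _ _, isHomogeneous_one _ _, one_ne_zero, ?_⟩
    rw [h]; simp
  · exact ⟨d, B, A, hB, hA, h, by rw [inv_div]⟩

/-- The function field of `ℙ^3`: the quotients of two forms of the same degree. -/
noncomputable def K3 : IntermediateField ℂ L where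
  carrier := ratSet
  mul_mem' := ratSet_mul
  one_mem' := ratSet_one
  add_mem' := ratSet_add
  zero_mem' := ratSet_zero
  algebraMap_mem' := ratSet_algebraMap
  inv_mem' := ratSet_inv

/-- For a prime ideal `P` this is the fraction field of `S / P`. -/
abbrev Kap (P : Ideal S) : Type := FractionRing (S ⧸ P)

/-- The generic point `ξ` of `V(P)`: the classes of the coordinates in the fraction field of
`S / P`. -/
noncomputable def gen (P : Ideal S) (j : Fin 4) : Kap P :=
  algebraMap (S ⧸ P) (Kap P) (Ideal.Quotient.mk P (X j))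

/-- The expansion `F(ξ + s T)` of `F` at the generic point `ξ` of `V(P)` in a general direction
`T = (T_0, T_1, T_2, T_3)`; here `s` is the variable of `Polynomial` and the `T_j` are the
variables of `MvPolynomial (Fin 4)`. -/
noncomputable def expand (P : Ideal S) : S →ₐ[ℂ] Polynomial (MvPolynomial (Fin 4) (Kap P)) :=
  aeval (fun j => Polynomial.C (C (gen P j)) + Polynomial.X * Polynomial.C (X j))

/-- The multiplicity of `F` along `V(P)` (at the generic point `ξ` of `V(P)`): the order of
vanishing of `F(ξ + s T)` at `s = 0`. -/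
noncomputable def mult (P : Ideal S) (F : S) : ℕ∞ := (expand P F).trailingDegree

/-- The local ring, in the function field of `ℙ^3`, of the exceptional divisor of the blow-up of
`V(P)` (over the generic point of `V(P)`): the quotients `A / B` of forms of the same degree with
`mult A ≥ mult B` along `V(P)`. -/
def excRing (P : Ideal S) : Set K3 :=
  {a | ∃ (d : ℕ) (A B : S), A.IsHomogeneous d ∧ B.IsHomogeneous d ∧ B ≠ 0 ∧
    mult P B ≤ mult P A ∧ (a : L) = algebraMap S L A / algebraMap S L B}

/-- The local ring, in the function field of `ℙ^3`, of the surface `G = 0`: the quotients `A / B`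
of forms of the same degree with `G ∤ B`. -/
def surfRing (G : S) : Set K3 :=
  {a | ∃ (d : ℕ) (A B : S), A.IsHomogeneous d ∧ B.IsHomogeneous d ∧ ¬ G ∣ B ∧
    (a : L) = algebraMap S L A / algebraMap S L B}

/-- The local rings of the prime divisors of the blow-up of `ℙ^3` in the centres `V(P)`, `P ∈ Z`:
the irreducible surfaces of `ℙ^3` and the exceptional divisors over the centres. -/
def divisors (Z : Set (Ideal S)) : Set (Set K3) :=
  {O | (∃ (d : ℕ) (G : S), Irreducible G ∧ G.IsHomogeneous d ∧ O = surfRing G) ∨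
    ∃ P ∈ Z, O = excRing P}

/-- `P` is the homogeneous ideal of an integral curve in `ℙ^3`. -/
def IsCurve (P : Ideal S) : Prop :=
  P.IsPrime ∧ (∀ F ∈ P, ∀ d : ℕ, homogeneousComponent d F ∈ P) ∧ Algebra.trdeg ℂ (S ⧸ P) = 2

/-- The homogeneous ideal of the point of `ℙ^3` with coordinates `p`. -/
def pointIdeal (p : Fin 4 → ℂ) : Ideal S where
  carrier := {F | ∀ c : ℂ, eval (c • p) F = 0}
  add_mem' := by
    intro a b ha hb c
    rw [map_add, ha c, hb c, add_zero]
  zero_mem' := by intro c; simp
  smul_mem' := by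
    intro a b hb c
    rw [smul_eq_mul, map_mul, hb c, mul_zero]

/-- Let `K` be a finitely generated field of transcendence degree three over `ℂ` and `𝒟` the set
of the local rings (in `K`) of the prime divisors of a normal projective variety `X` with function
field `K`.  `X` is of cluster type if there are coordinates `t` of a torus `𝔾_m^3` with function
field `K` such that the volume form `ω = dlog t_0 ∧ dlog t_1 ∧ dlog t_2` does not vanish along any
prime divisor of `X` (so that `B = - div ω ≥ 0` and `K_X + B ∼ 0`), and every prime divisor of the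
torus is a prime divisor on `X`.

The first condition is written with the derivations `θ_j = t_j ∂ / ∂ t_j` dual to the forms
`dlog t_j`: for a prime divisor of `X` with local ring `O`, the form
`d a_0 ∧ d a_1 ∧ d a_2 = det (θ_j a_i) ω` is regular for all `a_i ∈ O`, and these forms generate
the regular forms, so `ω` does not vanish iff `det (θ_j a_i) ∈ O` for all `a_i ∈ O`. -/
def IsClusterType {K : Type*} [Field K] [Algebra ℂ K] (𝒟 : Set (Set K)) : Prop :=
  ∃ (t : Fin 3 → K) (θ : Fin 3 → Derivation ℂ K K),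
    (∀ i, t i ≠ 0) ∧ (∀ i j, θ j (t i) = if i = j then t i else 0) ∧
    IntermediateField.adjoin ℂ (Set.range t) = ⊤ ∧
    (∀ O ∈ 𝒟, ∀ a : Fin 3 → K, (∀ i, a i ∈ O) → (Matrix.of fun i j => θ j (a i)).det ∈ O) ∧
    ∀ q : MvPolynomial (Fin 3) ℂ, Irreducible q → (∀ i, ¬ q ∣ X i) →
      {a : K | ∃ n d : MvPolynomial (Fin 3) ℂ, ¬ q ∣ d ∧ a = aeval t n / aeval t d} ∈ 𝒟

/-- Quartic surfaces with a triple point whose tangent cone is a nodal cubic, in normal form: in
some linear coordinates `ℓ` of `ℙ^3` the quartic is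
`ℓ_2 (ℓ_3 ℓ_0 ℓ_1 + g(ℓ_0, ℓ_1)) + h(ℓ_0, ℓ_1, ℓ_3)` with a binary cubic form `g` and a ternary
quartic form `h`. -/
def NodalQuartic (B : S) : Prop :=
  ∃ (l : Fin 4 → S) (g : MvPolynomial (Fin 2) ℂ) (h : MvPolynomial (Fin 3) ℂ),
    (∀ i, (l i).IsHomogeneous 1) ∧ LinearIndependent ℂ l ∧ g.IsHomogeneous 3 ∧
    h.IsHomogeneous 4 ∧
    B = l 2 * (l 3 * l 0 * l 1 + aeval ![l 0, l 1] g) + aeval ![l 0, l 1, l 3] h

end Pool.Agent.CLU
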