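import Pool.Agent.CLU.Fam

/-!
# CLU / Pencil: curves on a cubic with a double point of rank at least two, or on a quartic with a
triple point whose tangent cone is a nodal cubic
-/

set_option autoImplicit false

namespace Pool.Agent.CLU

open MvPolynomial

/-- The Hessian matrix of `F` at the point `p`. -/
noncomputable def hess (F : S) (p : Fin 4 → ℂ) : Matrix (Fin 4) (Fin 4) ℂ :=
  Matrix.of fun i j => eval p (pderiv i (pderiv j F))

/-- `p` is a double point of rank at least two of the surface `F = 0` (so the singularity is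
`A_n` or the surface is locally a union of two transversal sheets), if `F` is a cubic form. -/
def DoublePoint (F : S) (p : Fin 4 → ℂ) : Prop :=
  (∀ j, eval p (pderiv j F) = 0) ∧ 2 ≤ (hess F p).rank

lemma exists_minor_of_rank {K : Type*} [Field K] (M : Matrix (Fin 4) (Fin 4) K)
    (h : 2 ≤ M.rank) : ∃ i j k l, M i k * M j l - M i l * M j k ≠ 0 := by
  by_contra hcon
  push Not at hcon
  have hrank : M.rank ≤ 1 := by
    by_cases h0 : M = 0
    · rw [h0, Matrix.rank_zero]; exact Nat.zero_le 1
    obtain ⟨i, k, hik⟩ : ∃ i k, M i k ≠ 0 := by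
      by_contra h1
      push Not at h1
      exact h0 (Matrix.ext h1)
    have hM : M = Matrix.vecMulVec (fun j => M j k / M i k) (fun l => M i l) := by
      ext j l
      rw [Matrix.vecMulVec_apply]
      have := hcon i j k l
      field_simp
      linear_combination this
    rw [hM]
    exact Matrix.rank_vecMulVec_le _ _
  omega

theorem pencil (P : Ideal S) (hP : IsCurve P)
    (h : (∃ F ∈ P, F.IsHomogeneous 3 ∧ ∃ p, DoublePoint F p) ∨ ∃ B ∈ P, NodalQuartic B) :
    IsClusterType (divisors {P}) := by
  rcases h with ⟨F, hFP, hF, p, h1, h2⟩ | ⟨B, hBP, hB⟩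
  · obtain ⟨i, j, k, l, hm⟩ := exists_minor_of_rank _ h2
    obtain ⟨W, hW, hN⟩ := nodal_cubic F hF p h1 ⟨i, j, k, l, by
      simpa [hess, map_sub, map_mul] using hm⟩
    refine criterion (W * F) hN _ ?_
    intro I hI
    rw [Set.mem_singleton_iff] at hI
    subst hI
    exact Or.inl ⟨hP, Ideal.mul_mem_left _ _ hFP⟩
  · refine criterion B hB _ ?_
    intro I hI
    rw [Set.mem_singleton_iff] at hI
    subst hI
    exact Or.inl ⟨hP, hBP⟩

end Pool.Agent.CLU
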