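import Pool.Agent.CLU.Col

/-!
# CLU / Van: multiplicity in terms of partial derivatives
-/

set_option autoImplicit false

namespace Pool.Agent.CLU

open MvPolynomial

/-- `F` vanishes to order at least `m` along `V(P)`: all the iterated partial derivatives of `F` of
order less than `m` are in `P`. -/
def VanTo (P : Ideal S) (m : ℕ) (F : S) : Prop :=
  ∀ l : List (Fin 4), l.length < m → l.foldr (fun j G => pderiv j G) F ∈ P

/-- The local ring, in the function field of `ℙ^3`, of the exceptional divisor of the blow-up of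
`V(P)` (over the generic point of `V(P)`): the quotients `A / B` of forms of the same degree such
that `A` vanishes along `V(P)` to at least the same order as `B`. -/
def blowRing (P : Ideal S) : Set K3 :=
  {a | ∃ (d : ℕ) (A B : S), A.IsHomogeneous d ∧ B.IsHomogeneous d ∧ B ≠ 0 ∧
    (∀ m, VanTo P m B → VanTo P m A) ∧ (a : L) = algebraMap S L A / algebraMap S L B}

/-- The local rings of the prime divisors of the blow-up of `ℙ^3` in the centres `V(P)`, `P ∈ Z`:
the irreducible surfaces of `ℙ^3` and the exceptional divisors over the centres. -/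
def primeDivisors (Z : Set (Ideal S)) : Set (Set K3) :=
  {O | (∃ (d : ℕ) (G : S), Irreducible G ∧ G.IsHomogeneous d ∧ O = surfRing G) ∨
    ∃ P ∈ Z, O = blowRing P}

lemma vanTo_zero (P : Ideal S) (F : S) : VanTo P 0 F := fun _ h => absurd h (Nat.not_lt_zero _)

lemma vanTo_succ (P : Ideal S) (m : ℕ) (F : S) :
    VanTo P (m + 1) F ↔ F ∈ P ∧ ∀ j, VanTo P m (pderiv j F) := by
  constructor
  · intro h
    refine ⟨h [] (Nat.succ_pos m), fun j l hl => ?_⟩
    have := h (l ++ [j]) (by simpa using hl)
    rwa [List.foldr_append] at this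
  · rintro ⟨h0, h1⟩ l hl
    rcases List.eq_nil_or_concat l with rfl | ⟨l', j, rfl⟩
    · exact h0
    · rw [List.concat_eq_append, List.foldr_append]
      refine h1 j l' ?_
      simpa using hl

lemma le_trailingDegree_iff {R : Type*} [CommRing R] (p : Polynomial R) (m : ℕ) :
    (m : ℕ∞) ≤ p.trailingDegree ↔ Polynomial.X ^ m ∣ p := by
  constructor
  · exact X_pow_dvd_of_le p m
  · intro h
    rw [Polynomial.X_pow_dvd_iff] at h
    by_cases hp : p = 0
    · rw [hp, Polynomial.trailingDegree_zero]
      exact le_top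
    · rw [Polynomial.trailingDegree_eq_natTrailingDegree hp]
      by_contra hlt
      push Not at hlt
      have hlt' : p.natTrailingDegree < m := by exact_mod_cast hlt
      exact (Polynomial.mem_support_iff.1 (Polynomial.natTrailingDegree_mem_support_of_nonzero hp))
        (h _ hlt')

/-- A polynomial without constant term is divisible by `X ^ (m + 1)` if its derivative is divisible
by `X ^ m`. -/
lemma dvd_of_derivative {R : Type*} [CommRing R] [Algebra ℂ R] (p : Polynomial R) (m : ℕ)
    (h0 : p.coeff 0 = 0) (h1 : Polynomial.X ^ m ∣ Polynomial.derivative p) :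
    Polynomial.X ^ (m + 1) ∣ p := by
  rw [Polynomial.X_pow_dvd_iff] at h1 ⊢
  intro d hd
  rcases Nat.eq_zero_or_pos d with rfl | hpos
  · exact h0
  · obtain ⟨e, rfl⟩ : ∃ e, d = e + 1 := ⟨d - 1, by omega⟩
    have h2 := h1 e (by omega)
    rw [Polynomial.coeff_derivative] at h2
    have h3 : ((e : ℂ) + 1) • p.coeff (e + 1) = 0 := by
      rw [Algebra.smul_def, map_add, map_natCast, map_one, mul_comm]
      exact h2
    have h4 : ((e : ℂ) + 1) ≠ 0 := by exact_mod_cast Nat.succ_ne_zero e
    have h5 : p.coeff (e + 1) = ((e : ℂ) + 1)⁻¹ • (((e : ℂ) + 1) • p.coeff (e + 1)) := by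
      rw [smul_smul, inv_mul_cancel₀ h4, one_smul]
    rw [h5, h3, smul_zero]

lemma succ_le_mult_iff (P : Ideal S) [P.IsPrime] (m : ℕ) (F : S) :
    ((m + 1 : ℕ) : ℕ∞) ≤ mult P F ↔ F ∈ P ∧ ∀ j, (m : ℕ∞) ≤ mult P (pderiv j F) := by
  unfold mult
  simp only [le_trailingDegree_iff]
  constructor
  · intro h
    constructor
    · have h1 : (expand P F).coeff 0 = 0 := by
        rw [Polynomial.X_pow_dvd_iff] at h
        exact h 0 (Nat.succ_pos m)
      rw [coeff_zero_expand] at h1
      have h2 := C_injective _ _ (h1.trans (map_zero _).symm)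
      have h3 := (IsFractionRing.injective (S ⧸ P) (Kap P)) (h2.trans (map_zero _).symm)
      exact Ideal.Quotient.eq_zero_iff_mem.1 h3
    · intro j
      obtain ⟨g, hg⟩ := h
      set Δ : Derivation ℂ (Rg P) (Rg P) :=
        polyDer ((pderiv j : Derivation (Kap P) (MvPolynomial (Fin 4) (Kap P))
          (MvPolynomial (Fin 4) (Kap P))).restrictScalars ℂ) with hΔ
      have hX : ∀ k, Δ (expand P (X k)) = if k = j then Polynomial.X else 0 := by
        intro k
        rw [hΔ, expand_X', map_add, Derivation.leibniz, polyDer_C, polyDer_X, polyDer_C]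
        have h1 : ((pderiv j : Derivation (Kap P) (MvPolynomial (Fin 4) (Kap P))
          (MvPolynomial (Fin 4) (Kap P))).restrictScalars ℂ) (C (gen P k)) = 0 := pderiv_C
        have h2 : ((pderiv j : Derivation (Kap P) (MvPolynomial (Fin 4) (Kap P))
          (MvPolynomial (Fin 4) (Kap P))).restrictScalars ℂ) (X k) =
            if k = j then 1 else 0 := by
          change pderiv j (X k) = _
          rw [pderiv_X]
          by_cases h : k = j
          · subst h; simp
          · rw [if_neg h, Pi.single_eq_of_ne h]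
        rw [h1, h2]
        by_cases h : k = j
        · simp [h]
        · simp [h]
      have h1 := chain_rule (R := Rg P) (expand P) Δ F
      have h2 : Δ (expand P F) = expand P (pderiv j F) * Polynomial.X := by
        rw [h1]
        simp only [hX, mul_ite, mul_zero]
        rw [Finset.sum_ite_eq' Finset.univ j, if_pos (Finset.mem_univ j)]
      have hΔX : Δ (Polynomial.X : Rg P) = 0 := polyDer_X _
      have h3 : Δ (expand P F) = Polynomial.X ^ (m + 1) * Δ g := by
        rw [hg, Derivation.leibniz, Derivation.leibniz_pow, hΔX]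
        simp
      refine ⟨Δ g, ?_⟩
      have hne : (Polynomial.X : Rg P) ≠ 0 := Polynomial.X_ne_zero
      apply mul_right_cancel₀ hne
      rw [← h2, h3, pow_succ]
      ring
  · rintro ⟨h0, h1⟩
    apply dvd_of_derivative
    · rw [coeff_zero_expand, Ideal.Quotient.eq_zero_iff_mem.2 h0, map_zero, map_zero]
    · have h2 := chain_rule (R := Rg P) (expand P)
        ((Polynomial.derivative' (R := MvPolynomial (Fin 4) (Kap P))).restrictScalars ℂ) F
      have h3 : ((Polynomial.derivative' (R := MvPolynomial (Fin 4) (Kap P))).restrictScalars ℂ)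
          (expand P F) = Polynomial.derivative (expand P F) := rfl
      rw [h3] at h2
      rw [h2]
      exact Finset.dvd_sum fun j _ => Dvd.dvd.mul_right (h1 j) _

theorem vanTo_iff (P : Ideal S) [P.IsPrime] (m : ℕ) (F : S) :
    VanTo P m F ↔ (m : ℕ∞) ≤ mult P F := by
  induction m generalizing F with
  | zero => exact ⟨fun _ => by simp, fun _ => vanTo_zero P F⟩
  | succ m ih =>
    rw [vanTo_succ, succ_le_mult_iff]
    simp only [ih]

theorem blowRing_eq (P : Ideal S) [P.IsPrime] : blowRing P = excRing P := by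
  ext a
  constructor
  · rintro ⟨d, A, B, hA, hB, hB0, h, ha⟩
    refine ⟨d, A, B, hA, hB, hB0, ?_, ha⟩
    have hn : ((mult P B).toNat : ℕ∞) = mult P B := ENat.natCast_toNat (mult_ne_top P B hB0)
    have h1 := (vanTo_iff P _ A).1 (h (mult P B).toNat ((vanTo_iff P _ B).2 hn.le))
    rwa [hn] at h1
  · rintro ⟨d, A, B, hA, hB, hB0, h, ha⟩
    exact ⟨d, A, B, hA, hB, hB0, fun m hm =>
      (vanTo_iff P m A).2 (((vanTo_iff P m B).1 hm).trans h), ha⟩

theorem primeDivisors_eq (Z : Set (Ideal S)) (hZ : ∀ P ∈ Z, P.IsPrime) :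
    primeDivisors Z = divisors Z := by
  ext O
  constructor
  · rintro (h | ⟨P, hP, rfl⟩)
    · exact Or.inl h
    · have := hZ P hP
      exact Or.inr ⟨P, hP, blowRing_eq P⟩
  · rintro (h | ⟨P, hP, rfl⟩)
    · exact Or.inl h
    · have := hZ P hP
      exact Or.inr ⟨P, hP, (blowRing_eq P).symm⟩

end Pool.Agent.CLU
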