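import Pool.Agent.CLU.Fam
import Pool.Agent.CLU.Pencil
import Pool.Agent.CLU.Van

/-!
# CLU / Final: the two theorems in terms of `primeDivisors`
-/

set_option autoImplicit false

namespace Pool.Agent.CLU

open MvPolynomial

lemma FanoCentres.isPrime {Z : Set (Ideal S)} (hZ : FanoCentres Z) : ∀ P ∈ Z, P.IsPrime := by
  cases hZ with
  | curve P hP F hF hFP hli =>
    rintro Q hQ
    rw [Set.mem_singleton_iff] at hQ
    exact hQ ▸ hP.1
  | curve_line P Λ hP hΛ a b ha hb hab haΛ hbΛ h =>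
    rintro Q (hQ | hQ)
    · exact hQ ▸ hP.1
    · rw [Set.mem_singleton_iff] at hQ
      exact hQ ▸ hΛ.1
  | curve_point P hP Q hQP hQ hQ0 p hp hpP =>
    rintro Q' (hQ' | hQ')
    · exact hQ' ▸ hP.1
    · rw [Set.mem_singleton_iff] at hQ'
      exact hQ' ▸ pointIdeal_prime p
  | plane Z w a b hw ha hb hli h =>
    intro Q hQ
    rcases h Q hQ with h1 | ⟨p, _, h1, _⟩
    · exact h1.1.1
    · rw [h1]
      exact pointIdeal_prime p
  | three_lines Λ hΛ a b ha hb haΛ hbΛ hd =>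
    rintro Q ⟨i, rfl⟩
    exact (hΛ i).1

theorem main' (Z : Set (Ideal S)) (hZ : FanoCentres Z) : IsClusterType (primeDivisors Z) := by
  rw [primeDivisors_eq Z hZ.isPrime]
  exact main Z hZ

theorem pencil' (P : Ideal S) (hP : IsCurve P)
    (h : (∃ F ∈ P, F.IsHomogeneous 3 ∧ ∃ p, DoublePoint F p) ∨ ∃ B ∈ P, NodalQuartic B) :
    IsClusterType (primeDivisors {P}) := by
  rw [primeDivisors_eq {P} (by rintro Q hQ; rw [Set.mem_singleton_iff] at hQ; exact hQ ▸ hP.1)]
  exact pencil P hP h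

end Pool.Agent.CLU
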