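import Mathlib

/-!
# CLU / Der: extension of derivations

`exists_ext`: `Ω[B/k] = B ⊗_A Ω[A/k]` for `A → B` formally étale, so every derivation `A → B`
extends to `B → B`.  `exists_ne_zero`: take a transcendence basis of `K/k` containing `u`; `K` is
algebraic and separable over the rational function field, hence formally étale; extend `∂/∂u`.
-/

set_option autoImplicit false

namespace Pool.Agent.CLU

theorem exists_ext {k A B : Type*} [CommRing k] [CommRing A] [CommRing B] [Algebra k A]
    [Algebra k B] [Algebra A B] [IsScalarTower k A B] [Algebra.FormallyEtale A B]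
    (D : Derivation k A B) : ∃ D' : Derivation k B B, ∀ a, D' (algebraMap A B a) = D a := by
  have h := KaehlerDifferential.isBaseChange_of_formallyEtale k A B
  refine ⟨(h.lift D.liftKaehlerDifferential).compDer (KaehlerDifferential.D k B), fun a => ?_⟩
  have h2 : (KaehlerDifferential.map k k A B) (KaehlerDifferential.D k A a)
      = KaehlerDifferential.D k B (algebraMap A B a) := KaehlerDifferential.map_D k k A B a
  show (h.lift D.liftKaehlerDifferential) (KaehlerDifferential.D k B (algebraMap A B a)) = D a
  rw [← h2, h.lift_eq]
  exact D.liftKaehlerDifferential_comp_D a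

theorem exists_ext_frac {k A K : Type*} [CommRing k] [CommRing A] [IsDomain A] [Field K]
    [Algebra k A] [Algebra k K] [Algebra A K] [IsScalarTower k A K] [IsFractionRing A K]
    (D : Derivation k A K) : ∃ D' : Derivation k K K, ∀ a, D' (algebraMap A K a) = D a := by
  have : Algebra.FormallyEtale A K := Algebra.FormallyEtale.of_isLocalization (nonZeroDivisors A)
  exact exists_ext D

theorem exists_ne_zero {k K : Type*} [Field k] [CharZero k] [Field K] [Algebra k K] (u : K)
    (hu : Transcendental k u) : ∃ D : Derivation k K K, D u ≠ 0 := by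
  classical
  have hi : AlgebraicIndepOn k id ({u} : Set K) := by
    have h1 : AlgebraicIndependent k (fun i : ({u} : Set K) => (i : K)) := by
      rw [algebraicIndependent_unique_type_iff]
      exact hu
    exact h1
  obtain ⟨t, hut, ht⟩ := exists_isTranscendenceBasis_superset hi
  let x : t → K := fun i => (i : K)
  have hx : IsTranscendenceBasis k x := ht
  let i₀ : t := ⟨u, hut rfl⟩
  let alg1 : Algebra (MvPolynomial t k) K := (MvPolynomial.aeval x).toAlgebra
  have hinj : Function.Injective (algebraMap (MvPolynomial t k) K) := hx.1
  have : IsScalarTower k (MvPolynomial t k) K := IsScalarTower.of_algebraMap_eq fun r => by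
    show algebraMap k K r = MvPolynomial.aeval x (MvPolynomial.C r)
    rw [MvPolynomial.aeval_C]
  have : FaithfulSMul (MvPolynomial t k) K := (faithfulSMul_iff_algebraMap_injective _ _).mpr hinj
  let alg2 : Algebra (FractionRing (MvPolynomial t k)) K := FractionRing.liftAlgebra _ K
  have tow2 : IsScalarTower (MvPolynomial t k) (FractionRing (MvPolynomial t k)) K :=
    FractionRing.isScalarTower_liftAlgebra _ K
  have tow3 : IsScalarTower k (FractionRing (MvPolynomial t k)) K :=
    IsScalarTower.of_algebraMap_eq fun r => by
      rw [IsScalarTower.algebraMap_apply k (MvPolynomial t k) (FractionRing (MvPolynomial t k)),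
        ← IsScalarTower.algebraMap_apply (MvPolynomial t k) (FractionRing (MvPolynomial t k)) K,
        ← IsScalarTower.algebraMap_apply k (MvPolynomial t k) K]
  have halg1 : Algebra.IsAlgebraic (MvPolynomial t k) K := by
    have := hx.isAlgebraic
    refine Algebra.IsAlgebraic.of_ringHom_of_comp_eq (R := MvPolynomial t k)
      (S := Algebra.adjoin k (Set.range x)) (hx.1.aevalEquiv : MvPolynomial t k →+* _)
      (RingHom.id K) hx.1.aevalEquiv.surjective Function.injective_id ?_
    exact RingHom.ext fun p => rfl
  have halg2 : Algebra.IsAlgebraic (FractionRing (MvPolynomial t k)) K :=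
    (IsFractionRing.comap_isAlgebraic_iff (A := MvPolynomial t k)
      (K := FractionRing (MvPolynomial t k)) (C := K)).mp halg1
  have : CharZero (FractionRing (MvPolynomial t k)) :=
    charZero_of_injective_algebraMap (FaithfulSMul.algebraMap_injective k _)
  have : Algebra.IsSeparable (FractionRing (MvPolynomial t k)) K := inferInstance
  have : Algebra.FormallyEtale (FractionRing (MvPolynomial t k)) K :=
    Algebra.FormallyEtale.of_isSeparable _ _
  obtain ⟨D1, hD1⟩ := exists_ext_frac (k := k) (A := MvPolynomial t k)
    (K := FractionRing (MvPolynomial t k))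
    (MvPolynomial.mkDerivation k (fun j : t => if j = i₀ then 1 else 0))
  let φ : FractionRing (MvPolynomial t k) →ₗ[FractionRing (MvPolynomial t k)] K :=
    Algebra.linearMap _ _
  obtain ⟨D2, hD2⟩ := exists_ext (k := k) (A := FractionRing (MvPolynomial t k)) (B := K)
    (φ.compDer D1)
  refine ⟨D2, ?_⟩
  have h1 : u = algebraMap (FractionRing (MvPolynomial t k)) K
      (algebraMap (MvPolynomial t k) _ (MvPolynomial.X i₀)) := by
    rw [← IsScalarTower.algebraMap_apply (MvPolynomial t k) (FractionRing (MvPolynomial t k)) K]
    show u = MvPolynomial.aeval x (MvPolynomial.X i₀)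
    rw [MvPolynomial.aeval_X]
  rw [h1, hD2]
  show φ (D1 (algebraMap (MvPolynomial t k) _ (MvPolynomial.X i₀))) ≠ 0
  rw [hD1, MvPolynomial.mkDerivation_X]
  simp [φ]

end Pool.Agent.CLU
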