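import Pool.Agent.CLU.Alg
import Pool.Agent.CLU.Der

/-!
# CLU / Frac: partial derivatives on `L = Frac S`, change of linear coordinates
-/

set_option autoImplicit false

namespace Pool.Agent.CLU

open MvPolynomial

/-- The partial derivatives extend to `L`. -/
theorem exists_partial : ∃ dL : Fin 4 → Derivation ℂ L L,
    ∀ (j : Fin 4) (F : S), dL j (algebraMap S L F) = algebraMap S L (pderiv j F) := by
  have h : ∀ j : Fin 4, ∃ D : Derivation ℂ L L,
      ∀ F : S, D (algebraMap S L F) = algebraMap S L (pderiv j F) := by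
    intro j
    obtain ⟨D, hD⟩ := exists_ext_frac (k := ℂ) (A := S) (K := L)
      ((Algebra.linearMap S L).compDer (pderiv j))
    exact ⟨D, hD⟩
  choose dL hdL using h
  exact ⟨dL, hdL⟩

private theorem div_rule (D : Derivation ℂ L L) (a b : L) (hb : b ≠ 0) :
    D (a / b) = (b * D a - a * D b) / b ^ 2 := by
  rw [Derivation.leibniz_div]
  simp only [smul_eq_mul]
  field_simp

/-- The quotient rule: the matrix `(∂_j a_i)` for `a_i = A_i / B_i`. -/
theorem partial_div (dL : Fin 4 → Derivation ℂ L L)
    (hdL : ∀ (j : Fin 4) (F : S), dL j (algebraMap S L F) = algebraMap S L (pderiv j F))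
    (A B : Fin 3 → S) (hB0 : ∀ i, B i ≠ 0) (i : Fin 3) (j : Fin 4) :
    dL j (algebraMap S L (A i) / algebraMap S L (B i)) =
      algebraMap S L (wr A B i j) / algebraMap S L (B i) ^ 2 := by
  have hb : algebraMap S L (B i) ≠ 0 := by simpa using hB0 i
  rw [div_rule (dL j) _ _ hb, hdL, hdL]
  simp only [wr, Matrix.of_apply, map_sub, map_mul]

/-- Change of coordinates: let `l = M X` with `M` invertible, `∂'_k = Σ_j (M⁻¹)_{jk} ∂_j` (so
`∂'_k l_i = δ_{ik}`).  For `a_i = A_i / B_i` (forms of the same degree) the matrix `G' = (∂'_k a_i)`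
is `G M⁻¹`, `G = (∂_j a_i)`, `G X = 0`; by `det_identity` for `U` = the columns `k ≠ 1` of `M⁻¹`,
`X_m det (G U) = (-1)^m det (G without m) det [X | U]` and `det [X | U] = det M⁻¹ l_1`
(multiply with `M`).  The constant is `det M⁻¹`. -/
theorem change (l : Fin 4 → S) (hl : ∀ i, (l i).IsHomogeneous 1)
    (hli : LinearIndependent ℂ l) :
    ∃ (dl : Fin 3 → Derivation ℂ L L) (c : ℂ), c ≠ 0 ∧
      (∀ k, dl k (algebraMap S L (l 1)) = 0) ∧
      (∀ k i, dl k (algebraMap S L (![l 0, l 3, l 2] i)) = if k = i then 1 else 0) ∧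
      ∀ (A B : Fin 3 → S) (d : Fin 3 → ℕ) (_ : ∀ i, (A i).IsHomogeneous (d i))
        (_ : ∀ i, (B i).IsHomogeneous (d i)) (_ : ∀ i, B i ≠ 0) (m : Fin 4),
        (Matrix.of fun i k => dl k (algebraMap S L (A i) / algebraMap S L (B i))).det *
            algebraMap S L (X m * (B 0 * B 1 * B 2) ^ 2) =
          algebraMap ℂ L (c * (-1) ^ (m : ℕ)) * algebraMap S L (l 1 * wmin A B m) := by
  classical
  -- the matrix of the linear forms
  have hM : ∀ i, ∃ c : Fin 4 → ℂ, ∑ j, c j • (X j : S) = l i := by
    intro i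
    have h1 : l i ∈ homogeneousSubmodule (Fin 4) ℂ 1 := hl i
    rw [homogeneousSubmodule_one_eq_span_X] at h1
    exact (Submodule.mem_span_range_iff_exists_fun ℂ).mp h1
  choose M hM using hM
  have hdet : (Matrix.of M).det ≠ 0 := by
    intro h0
    obtain ⟨v, hv, hv0⟩ := Matrix.exists_vecMul_eq_zero_iff.mpr h0
    apply hv
    have h1 : ∑ i, v i • l i = 0 := by
      simp_rw [← hM, Finset.smul_sum, smul_smul]
      rw [Finset.sum_comm]
      refine Finset.sum_eq_zero fun j _ => ?_
      rw [← Finset.sum_smul]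
      have h2 : ∑ i, v i * M i j = 0 := congrFun hv0 j
      rw [h2, zero_smul]
    funext i
    exact Fintype.linearIndependent_iff.mp hli v h1 i
  set N : Matrix (Fin 4) (Fin 4) ℂ := (Matrix.of M)⁻¹ with hN
  have hMN : Matrix.of M * N = 1 :=
    Matrix.mul_nonsing_inv _ (isUnit_iff_ne_zero.mpr hdet)
  obtain ⟨dL, hdL⟩ := exists_partial
  -- derivatives of the linear forms
  have hpd : ∀ i j, pderiv j (l i) = C (M i j) := by
    intro i j
    rw [← hM i, map_sum]
    simp_rw [Derivation.map_smul, pderiv_X]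
    rw [Finset.sum_eq_single j]
    · rw [Pi.single_eq_same, smul_eq_C_mul, mul_one]
    · intro b _ hb
      rw [Pi.single_eq_of_ne hb, smul_zero]
    · intro h; exact absurd (Finset.mem_univ _) h
  set σ : Fin 3 → Fin 4 := ![0, 3, 2] with hσ
  set dl : Fin 3 → Derivation ℂ L L := fun k =>
    N 0 (σ k) • dL 0 + N 1 (σ k) • dL 1 + N 2 (σ k) • dL 2 + N 3 (σ k) • dL 3 with hdl
  have hdl_apply : ∀ k (x : L), dl k x = ∑ j, N j (σ k) • dL j x := by
    intro k x
    simp only [hdl, Derivation.add_apply, Derivation.smul_apply, Fin.sum_univ_four]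
  have hdl_l : ∀ k i, dl k (algebraMap S L (l i)) = if i = σ k then 1 else 0 := by
    intro k i
    rw [hdl_apply]
    have h1 : ∀ j, N j (σ k) • dL j (algebraMap S L (l i))
        = algebraMap ℂ L (M i j * N j (σ k)) := by
      intro j
      rw [hdL, hpd, Algebra.smul_def, mul_comm (M i j), map_mul,
        IsScalarTower.algebraMap_apply ℂ S L (M i j)]
      rfl
    rw [Finset.sum_congr rfl fun j _ => h1 j, ← map_sum]
    have h2 : ∑ j, M i j * N j (σ k) = (1 : Matrix (Fin 4) (Fin 4) ℂ) i (σ k) := by
      rw [← hMN, Matrix.mul_apply]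
      rfl
    rw [h2, Matrix.one_apply]
    split_ifs <;> simp
  refine ⟨dl, ((Matrix.of M).det)⁻¹, inv_ne_zero hdet, ?_, ?_, ?_⟩
  · intro k
    rw [hdl_l, if_neg]
    fin_cases k <;> simp [hσ]
  · intro k i
    have h1 : ![l 0, l 3, l 2] i = l (σ i) := by
      fin_cases i <;> rfl
    rw [h1, hdl_l]
    have h2 : σ i = σ k ↔ k = i := by
      clear h1
      revert i k
      rw [hσ]
      decide
    by_cases h : k = i
    · rw [if_pos (h2.mpr h), if_pos h]
    · rw [if_neg (fun h' => h (h2.mp h')), if_neg h]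
  · intro A B d hA hB hB0 m
    -- the constant matrix U
    set U : Matrix (Fin 4) (Fin 3) S := Matrix.of fun j k => C (N j (σ k)) with hU
    have hBne : ∀ i, algebraMap S L (B i) ≠ 0 := fun i => by simpa using hB0 i
    have h1 : (Matrix.of fun i k => dl k (algebraMap S L (A i) / algebraMap S L (B i)))
        = Matrix.of fun i k => ((algebraMap S L (B i) ^ 2)⁻¹) *
          ((wr A B * U).map (algebraMap S L)) i k := by
      ext i k
      simp only [Matrix.of_apply, Matrix.map_apply]
      rw [hdl_apply, Matrix.mul_apply, map_sum, Finset.mul_sum]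
      refine Finset.sum_congr rfl fun j _ => ?_
      rw [partial_div dL hdL A B hB0 i j, map_mul, Algebra.smul_def, div_eq_mul_inv]
      have h2 : algebraMap S L (U j k) = algebraMap ℂ L (N j (σ k)) := by
        rw [IsScalarTower.algebraMap_apply ℂ S L]
        rfl
      rw [h2]
      ring
    have h2 : (Matrix.of fun i k => dl k (algebraMap S L (A i) / algebraMap S L (B i))).det
        = (∏ i, (algebraMap S L (B i) ^ 2)⁻¹) * algebraMap S L (wr A B * U).det := by
      rw [h1, Matrix.det_mul_column, RingHom.map_det]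
      rfl
    have h3 := det_identity (wr A B) (X : Fin 4 → S) U (wr_mulVec A B d hA hB) m
    -- the determinant of [X | U]
    have h4 : C ((Matrix.of M).det) * (colCons (X : Fin 4 → S) U).det = l 1 := by
      have h5 : ((Matrix.of M).map (C : ℂ →+* S)) * colCons (X : Fin 4 → S) U
          = colCons l (Matrix.of fun i k => if i = σ k then 1 else 0) := by
        ext1 i k
        refine Fin.cases ?_ (fun k => ?_) k
        · rw [Matrix.mul_apply]
          simp only [colCons, Matrix.of_apply, Matrix.map_apply, Fin.cons_zero]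
          rw [← hM i]
          refine Finset.sum_congr rfl fun j _ => ?_
          rw [smul_eq_C_mul]
        · rw [Matrix.mul_apply]
          simp only [colCons, Matrix.of_apply, Matrix.map_apply, Fin.cons_succ, hU]
          simp_rw [← map_mul]
          rw [← map_sum]
          have h2 : ∑ j, M i j * N j (σ k) = (1 : Matrix (Fin 4) (Fin 4) ℂ) i (σ k) := by
            rw [← hMN, Matrix.mul_apply]
            rfl
          rw [h2, Matrix.one_apply]
          split_ifs <;> simp
      have h6 := congrArg Matrix.det h5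
      rw [Matrix.det_mul] at h6
      have h7 : ((Matrix.of M).map (C : ℂ →+* S)).det = C ((Matrix.of M).det) := by
        rw [RingHom.map_det]; rfl
      rw [h7] at h6
      have h8 : colCons l (Matrix.of fun i k => if i = σ k then 1 else 0)
          = !![l 0, 1, 0, 0; l 1, 0, 0, 0; l 2, 0, 0, 1; l 3, 0, 1, 0] := by
        ext1 i j
        fin_cases i <;> fin_cases j <;> rfl
      rw [h6, h8]
      simp [Matrix.det_succ_row_zero, Fin.sum_univ_succ, Fin.succAbove]
    have hs : algebraMap S L (C (Matrix.of M).det) = algebraMap ℂ L (Matrix.of M).det := by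
      rw [IsScalarTower.algebraMap_apply ℂ S L]; rfl
    have hdetL : algebraMap ℂ L (Matrix.of M).det ≠ 0 := by
      rw [Ne, FaithfulSMul.algebraMap_eq_zero_iff]; exact hdet
    have h8 : algebraMap S L (X m) * algebraMap S L (wr A B * U).det * algebraMap ℂ L (Matrix.of M).det
        = algebraMap ℂ L ((-1) ^ (m : ℕ)) * algebraMap S L (l 1 * wmin A B m) := by
      rw [← hs, ← map_mul, ← map_mul, h3, ← h4]
      rw [map_pow, map_neg, map_one]
      simp only [map_mul, map_pow, map_neg, map_one, wmin]
      ring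
    rw [h2, Fin.prod_univ_three]
    have e0 := hBne 0
    have e1 := hBne 1
    have e2 := hBne 2
    have h9 : algebraMap ℂ L ((Matrix.of M).det⁻¹ * (-1) ^ (m : ℕ)) * algebraMap S L (l 1 * wmin A B m)
        = algebraMap S L (X m) * algebraMap S L (wr A B * U).det := by
      rw [map_mul, map_inv₀, mul_assoc, ← h8]
      field_simp
    rw [h9]
    simp only [map_mul, map_pow]
    field_simp

end Pool.Agent.CLU
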