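import Pool.Agent.CLU.Defs

/-!
# CLU / Alg: matrix identities and the matrix of Wronskians

Proof of `det_identity`: let `Ĝ` be the `4 × 4` matrix with first row `e_k` and the rows of `G`
below.  `Ĝ * [x | U]` has first column `(x_k, 0, 0, 0)` (because `G x = 0`), so its determinant is
`x_k det (G U)`; and `det Ĝ = (-1)^k det (G without column k)` (expansion along the first row).
Proof of `minor_comm`: `det_identity` with `U` = the matrix of the columns `e_i`, `i ≠ j`.
-/

set_option autoImplicit false

namespace Pool.Agent.CLU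

open MvPolynomial

/-- The `4 × 4` matrix `[x | U]`. -/
def colCons {R : Type*} (x : Fin 4 → R) (U : Matrix (Fin 4) (Fin 3) R) :
    Matrix (Fin 4) (Fin 4) R :=
  Matrix.of fun i j => (Fin.cons (x i) (U i) : Fin 4 → R) j

theorem det_identity {R : Type*} [CommRing R] (G : Matrix (Fin 3) (Fin 4) R) (x : Fin 4 → R)
    (U : Matrix (Fin 4) (Fin 3) R) (hx : G.mulVec x = 0) (k : Fin 4) :
    x k * (G * U).det =
      (-1) ^ (k : ℕ) * (G.submatrix id k.succAbove).det * (colCons x U).det := by
  classical
  let Gh : Matrix (Fin 4) (Fin 4) R :=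
    Matrix.of fun i j => (Fin.cons (if j = k then (1 : R) else 0) (fun a => G a j) : Fin 4 → R) i
  have h0 : ∀ j, Gh 0 j = if j = k then 1 else 0 := fun j => rfl
  have hs : ∀ (a : Fin 3) j, Gh a.succ j = G a j := fun a j => rfl
  have hdet : Gh.det = (-1) ^ (k : ℕ) * (G.submatrix id k.succAbove).det := by
    rw [Matrix.det_succ_row_zero, Finset.sum_eq_single k]
    · rw [h0, if_pos rfl, mul_one]
      congr 1
    · intro j _ hj
      rw [h0, if_neg hj, mul_zero, zero_mul]
    · intro h
      exact absurd (Finset.mem_univ k) h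
  have hx' : ∀ a : Fin 3, ∑ j, G a j * x j = 0 := fun a => congrFun hx a
  have hprod : (Gh * colCons x U).det = x k * (G * U).det := by
    rw [Matrix.det_succ_column_zero, Finset.sum_eq_single 0]
    · have h1 : (Gh * colCons x U) 0 0 = x k := by
        rw [Matrix.mul_apply]
        simp only [h0, colCons, Matrix.of_apply, Fin.cons_zero, ite_mul, one_mul, zero_mul,
          Finset.sum_ite_eq', Finset.sum_ite_eq, Finset.mem_univ, if_true]
      have h2 : (Gh * colCons x U).submatrix (Fin.succAbove 0) Fin.succ = G * U := by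
        ext a b
        rw [Matrix.submatrix_apply, Matrix.mul_apply, Matrix.mul_apply, Fin.succAbove_zero]
        refine Finset.sum_congr rfl fun j _ => ?_
        rw [hs]
        rfl
      rw [h1, h2]
      simp
    · intro i _ hi
      obtain ⟨a, rfl⟩ := Fin.exists_succ_eq.2 hi
      have h1 : (Gh * colCons x U) a.succ 0 = 0 := by
        rw [Matrix.mul_apply, ← hx' a]
        refine Finset.sum_congr rfl fun j _ => ?_
        rw [hs]
        rfl
      rw [h1, mul_zero, zero_mul]
    · intro h
      exact absurd (Finset.mem_univ 0) h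
  rw [← hprod, Matrix.det_mul, hdet]

theorem minor_comm {R : Type*} [CommRing R] (G : Matrix (Fin 3) (Fin 4) R) (x : Fin 4 → R)
    (hx : G.mulVec x = 0) (j k : Fin 4) :
    x k * (G.submatrix id j.succAbove).det =
      (-1) ^ ((k : ℕ) + (j : ℕ)) * x j * (G.submatrix id k.succAbove).det := by
  classical
  let U : Matrix (Fin 4) (Fin 3) R := Matrix.of fun i a => if i = j.succAbove a then 1 else 0
  have hU : ∀ i a, U i a = if i = j.succAbove a then 1 else 0 := fun i a => rfl
  have h1 : G * U = G.submatrix id j.succAbove := by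
    ext a b
    rw [Matrix.mul_apply, Matrix.submatrix_apply]
    simp [hU]
  have h2 : (colCons x U).det = (-1) ^ (j : ℕ) * x j := by
    rw [Matrix.det_succ_row _ j, Finset.sum_eq_single 0]
    · have h3 : (colCons x U) j 0 = x j := rfl
      have h4 : (colCons x U).submatrix j.succAbove (Fin.succAbove 0) = 1 := by
        ext a b
        rw [Matrix.submatrix_apply, Fin.succAbove_zero, Matrix.one_apply]
        have h5 : colCons x U (j.succAbove a) b.succ = U (j.succAbove a) b := rfl
        rw [h5, hU]
        simp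
      rw [h3, h4]
      simp
    · intro i _ hi
      obtain ⟨a, rfl⟩ := Fin.exists_succ_eq.2 hi
      have h3 : colCons x U j a.succ = U j a := rfl
      rw [h3, hU, if_neg (Fin.succAbove_ne j a).symm, mul_zero, zero_mul]
    · intro h
      exact absurd (Finset.mem_univ 0) h
  have h3 := det_identity G x U hx k
  rw [h1, h2] at h3
  rw [h3, pow_add]
  ring

/-- The numerators `B_i ∂_j A_i - A_i ∂_j B_i` of `∂_j (A_i / B_i)`. -/
noncomputable def wr (A B : Fin 3 → S) : Matrix (Fin 3) (Fin 4) S :=
  Matrix.of fun i j => B i * pderiv j (A i) - A i * pderiv j (B i)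

/-- The maximal minors of `wr A B`. -/
noncomputable def wmin (A B : Fin 3 → S) (m : Fin 4) : S :=
  ((wr A B).submatrix id m.succAbove).det

/-- Euler. -/
theorem wr_mulVec (A B : Fin 3 → S) (d : Fin 3 → ℕ) (hA : ∀ i, (A i).IsHomogeneous (d i))
    (hB : ∀ i, (B i).IsHomogeneous (d i)) : (wr A B).mulVec (X : Fin 4 → S) = 0 := by
  funext i
  have h1 := (hA i).sum_X_mul_pderiv
  have h2 := (hB i).sum_X_mul_pderiv
  have h3 : ((wr A B).mulVec (X : Fin 4 → S)) i =
      B i * (∑ j, X j * pderiv j (A i)) - A i * (∑ j, X j * pderiv j (B i)) := by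
    rw [Finset.mul_sum, Finset.mul_sum, ← Finset.sum_sub_distrib]
    simp only [Matrix.mulVec, dotProduct, wr, Matrix.of_apply]
    refine Finset.sum_congr rfl fun j _ => ?_
    ring
  rw [h3, h1, h2, Pi.zero_apply, nsmul_eq_mul, nsmul_eq_mul]
  ring

theorem wmin_homog (A B : Fin 3 → S) (d : Fin 3 → ℕ) (hA : ∀ i, (A i).IsHomogeneous (d i))
    (hB : ∀ i, (B i).IsHomogeneous (d i)) (m : Fin 4) (F : S) (hF : F.IsHomogeneous 4) :
    (F * wmin A B m).IsHomogeneous (1 + 2 * (d 0 + d 1 + d 2)) := by
  classical
  by_cases hd : ∀ i, 1 ≤ d i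
  · have he : ∀ i j, (wr A B i j).IsHomogeneous (2 * d i - 1) := by
      intro i j
      have h1 : (B i * pderiv j (A i)).IsHomogeneous (d i + (d i - 1)) :=
        (hB i).mul (hA i).pderiv
      have h2 : (A i * pderiv j (B i)).IsHomogeneous (d i + (d i - 1)) :=
        (hA i).mul (hB i).pderiv
      have h3 : d i + (d i - 1) = 2 * d i - 1 := by
        have := hd i
        omega
      rw [h3] at h1 h2
      exact h1.sub h2
    have hw : (wmin A B m).IsHomogeneous (∑ i, (2 * d i - 1)) := by
      unfold wmin
      rw [Matrix.det_apply]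
      refine IsHomogeneous.sum _ _ _ fun σ _ => ?_
      have h1 : (∏ i, (wr A B).submatrix id m.succAbove (σ i) i).IsHomogeneous
          (∑ i, (2 * d (σ i) - 1)) := by
        refine IsHomogeneous.prod _ _ _ fun i _ => ?_
        exact he (σ i) _
      rw [Equiv.sum_comp σ (fun i => 2 * d i - 1)] at h1
      rcases Int.units_eq_one_or (Equiv.Perm.sign σ) with h | h
      · rw [h, one_smul]
        exact h1
      · rw [h, Units.neg_smul, one_smul]
        exact h1.neg
    have h2 := hF.mul hw
    have h3 : 4 + ∑ i, (2 * d i - 1) = 1 + 2 * (d 0 + d 1 + d 2) := by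
      rw [Fin.sum_univ_three]
      have h0 := hd 0
      have h1 := hd 1
      have h2 := hd 2
      omega
    rwa [h3] at h2
  · push Not at hd
    obtain ⟨i, hi⟩ := hd
    have hi0 : d i = 0 := by omega
    have hz : ∀ (P : S), P.IsHomogeneous 0 → ∀ j, pderiv j P = 0 := by
      intro P hP j
      have h1 : P = C (coeff 0 P) := totalDegree_eq_zero_iff_eq_C.1
        (Nat.le_zero.1 hP.totalDegree_le)
      rw [h1, pderiv_C]
    have hrow : ∀ j, wr A B i j = 0 := by
      intro j
      have h1 := hz (A i) (hi0 ▸ hA i) j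
      have h2 := hz (B i) (hi0 ▸ hB i) j
      simp only [wr, Matrix.of_apply]
      rw [h1, h2, mul_zero, mul_zero, sub_zero]
    have hw : wmin A B m = 0 := by
      unfold wmin
      exact Matrix.det_eq_zero_of_row_eq_zero i fun j => hrow _
    rw [hw, mul_zero]
    exact isHomogeneous_zero _ _ _

end Pool.Agent.CLU
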