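import Pool.Agent.CLU.Coord
import Pool.Agent.KSF.Homg

/-!
# CLU / Coord2: the affine chart

`cx_injective`: if `F1(x, w, z) = 0`, homogenise (`hom_eq` and its explicit form:
`F = l_1^d F1(l_0/l_1, l_3/l_1, l_2/l_1)`); e.g. apply the inverse substitution `exists_inverse` and
set `l_1 = 1`.  `cx_frac`: `form_eq` for numerator and denominator.
`exists_form`: let `G` be the homogenisation of `G0` of degree `d = totalDegree G0` with respect to
`l_1`, so `l_1 ∤ G` and `G(l) ↦ G0` under `l_1 ↦ 1`.  `G` is irreducible: if `G = U V`, then `U, V`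
are forms (factors of forms), dehomogenise: one of them, say `U`, becomes a constant, so
`U = c l_1^k`, `k = 0`.  For a form `B`: `G ∣ B` iff `G0` divides the dehomogenisation of `B`
(`B = l_1^k hom(B1)`, and `hom` is multiplicative).
-/

set_option autoImplicit false

namespace Pool.Agent.CLU

open MvPolynomial

/-- the dehomogenised coordinates -/
private noncomputable def e4 : Fin 4 → MvPolynomial (Fin 3) ℂ := ![X 0, 1, X 2, X 1]

/-- the dehomogenisation -/
private noncomputable def DD (l' : Fin 4 → S) : S →ₐ[ℂ] MvPolynomial (Fin 3) ℂ :=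
  (aeval e4).comp (aeval l')

private theorem hom_scale {A : Type*} [CommRing A] [Algebra ℂ A] {F : S} {d : ℕ}
    (hF : F.IsHomogeneous d) (c : A) (h : Fin 4 → A) :
    aeval (fun i => c * h i) F = c ^ d * aeval h F := by
  rw [aeval_def, aeval_def, eval₂_eq', eval₂_eq', Finset.mul_sum]
  apply Finset.sum_congr rfl
  intro m hm
  have hd : ∑ i, m i = d := by
    rw [hF.degree_eq_sum_deg_support hm]
    exact (Finset.sum_subset (Finset.subset_univ _) (fun i _ hi => by
      simpa using hi)).symm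
  simp only [mul_pow, Finset.prod_mul_distrib, Finset.prod_pow_eq_pow_sum, hd]
  ring

private theorem l1_ne {l : Fin 4 → S} (hli : LinearIndependent ℂ l) :
    algebraMap S L (l 1) ≠ 0 := by
  rw [Ne, IsFractionRing.to_map_eq_zero_iff]
  exact hli.ne_zero 1

private theorem cx_coe (l : Fin 4 → S) (hl : ∀ i, (l i).IsHomogeneous 1)
    (hli : LinearIndependent ℂ l) (i : Fin 4) :
    algebraMap S L (l i) = algebraMap S L (l 1) * ((aeval (cx l hl) (e4 i) : K3) : L) := by
  have h1 := l1_ne hli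
  fin_cases i
  · have : ((aeval (cx l hl) (e4 0) : K3) : L) =
        algebraMap S L (l 0) / algebraMap S L (l 1) := by
      simp [e4, cx]
    exact (by rw [this, mul_div_cancel₀ _ h1] :
      algebraMap S L (l 0) = algebraMap S L (l 1) * ((aeval (cx l hl) (e4 0) : K3) : L))
  · have : ((aeval (cx l hl) (e4 1) : K3) : L) = 1 := by
      simp [e4]
    exact (by rw [this, mul_one] :
      algebraMap S L (l 1) = algebraMap S L (l 1) * ((aeval (cx l hl) (e4 1) : K3) : L))
  · have : ((aeval (cx l hl) (e4 2) : K3) : L) =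
        algebraMap S L (l 2) / algebraMap S L (l 1) := by
      simp [e4, cx]
    exact (by rw [this, mul_div_cancel₀ _ h1] :
      algebraMap S L (l 2) = algebraMap S L (l 1) * ((aeval (cx l hl) (e4 2) : K3) : L))
  · have : ((aeval (cx l hl) (e4 3) : K3) : L) =
        algebraMap S L (l 3) / algebraMap S L (l 1) := by
      simp [e4, cx]
    exact (by rw [this, mul_div_cancel₀ _ h1] :
      algebraMap S L (l 3) = algebraMap S L (l 1) * ((aeval (cx l hl) (e4 3) : K3) : L))

private theorem claim (l : Fin 4 → S) (hl : ∀ i, (l i).IsHomogeneous 1)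
    (hli : LinearIndependent ℂ l) {l' : Fin 4 → S} (hl' : ∀ i, (l' i).IsHomogeneous 1)
    (h1 : ∀ F : S, aeval l (aeval l' F) = F) {F : S} {d : ℕ} (hF : F.IsHomogeneous d) :
    algebraMap S L F = algebraMap S L (l 1) ^ d * ((aeval (cx l hl) (DD l' F) : K3) : L) := by
  have hF' : (aeval l' F).IsHomogeneous d := by
    have := hF.aeval l' (n := 1) hl'
    rwa [one_mul] at this
  have e1 : algebraMap S L F = aeval (fun i => algebraMap S L (l i)) (aeval l' F) := by
    conv_lhs => rw [← h1 F]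
    have : (Algebra.ofId S L).restrictScalars ℂ (aeval l (aeval l' F)) =
        aeval (fun i => (Algebra.ofId S L).restrictScalars ℂ (l i)) (aeval l' F) := by
      rw [← comp_aeval]
      rfl
    exact this
  have e2 : ((aeval (cx l hl) (DD l' F) : K3) : L) =
      aeval (fun i => ((aeval (cx l hl) (e4 i) : K3) : L)) (aeval l' F) := by
    have : (K3.val.comp ((aeval (cx l hl)).comp (aeval e4))) (aeval l' F) =
        aeval (fun i => (K3.val.comp (aeval (cx l hl))) (e4 i)) (aeval l' F) := by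
      rw [← AlgHom.comp_assoc, comp_aeval]
    exact this
  rw [e1, e2, ← hom_scale hF']
  congr 2
  funext i
  exact cx_coe l hl hli i

private theorem DD_l {l l' : Fin 4 → S} (h2 : ∀ F : S, aeval l' (aeval l F) = F) (i : Fin 4) :
    DD l' (l i) = e4 i := by
  have h := h2 (X i)
  rw [aeval_X] at h
  unfold DD
  rw [AlgHom.comp_apply, h, aeval_X]

private theorem DD_l1 {l l' : Fin 4 → S} (h2 : ∀ F : S, aeval l' (aeval l F) = F) :
    DD l' (l 1) = 1 := DD_l h2 1

private theorem DD_C (l' : Fin 4 → S) (c : ℂ) : DD l' (C c) = C c := (DD l').commutes c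

private theorem exists_hom' {l l' : Fin 4 → S} (hl : ∀ i, (l i).IsHomogeneous 1)
    (h2 : ∀ F : S, aeval l' (aeval l F) = F) (F1 : MvPolynomial (Fin 3) ℂ) :
    ∃ d0 : ℕ, ∀ d ≥ d0, ∃ F : S, F.IsHomogeneous d ∧ DD l' F = F1 := by
  induction F1 using MvPolynomial.induction_on with
  | C a =>
    refine ⟨0, fun d _ => ⟨C a * l 1 ^ d, ?_, ?_⟩⟩
    · have := ((hl 1).pow d).C_mul a
      rwa [one_mul] at this
    · rw [map_mul, map_pow, DD_l1 h2, one_pow, mul_one, DD_C]
  | add p q hp hq =>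
    obtain ⟨a, ha⟩ := hp
    obtain ⟨b, hb⟩ := hq
    refine ⟨max a b, fun d hd => ?_⟩
    obtain ⟨F, hF, hF'⟩ := ha d (le_trans (le_max_left _ _) hd)
    obtain ⟨G, hG, hG'⟩ := hb d (le_trans (le_max_right _ _) hd)
    exact ⟨F + G, hF.add hG, by rw [map_add, hF', hG']⟩
  | mul_X p i hp =>
    obtain ⟨a, ha⟩ := hp
    refine ⟨a + 1, fun d hd => ?_⟩
    obtain ⟨F, hF, hF'⟩ := ha (d - 1) (by omega)
    obtain ⟨k, hk⟩ : ∃ k : Fin 4, e4 k = X i := by
      fin_cases i
      · exact ⟨0, rfl⟩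
      · exact ⟨3, rfl⟩
      · exact ⟨2, rfl⟩
    refine ⟨F * l k, ?_, ?_⟩
    · have := hF.mul (hl k)
      rwa [show d - 1 + 1 = d by omega] at this
    · rw [map_mul, hF', DD_l h2, hk]

private theorem uniq (l : Fin 4 → S) (hl : ∀ i, (l i).IsHomogeneous 1)
    (hli : LinearIndependent ℂ l) {l' : Fin 4 → S} (hl' : ∀ i, (l' i).IsHomogeneous 1)
    (h1 : ∀ F : S, aeval l (aeval l' F) = F) {F G : S} {d : ℕ} (hF : F.IsHomogeneous d)
    (hG : G.IsHomogeneous d) (h : DD l' F = DD l' G) : F = G := by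
  apply IsFractionRing.injective S L
  rw [claim l hl hli hl' h1 hF, claim l hl hli hl' h1 hG, h]

theorem cx_injective (l : Fin 4 → S) (hl : ∀ i, (l i).IsHomogeneous 1)
    (hli : LinearIndependent ℂ l) :
    Function.Injective (aeval (cx l hl) : MvPolynomial (Fin 3) ℂ →ₐ[ℂ] K3) := by
  obtain ⟨l', hl', -, h1, h2⟩ := exists_inverse l hl hli
  rw [injective_iff_map_eq_zero]
  intro F1 h0
  obtain ⟨d, hd⟩ := exists_hom' hl h2 F1
  obtain ⟨F, hF, hF1⟩ := hd d le_rfl
  have h3 := claim l hl hli hl' h1 hF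
  rw [hF1, h0] at h3
  simp only [ZeroMemClass.coe_zero, mul_zero] at h3
  rw [IsFractionRing.to_map_eq_zero_iff] at h3
  rw [← hF1, h3, map_zero]

theorem cx_frac (l : Fin 4 → S) (hl : ∀ i, (l i).IsHomogeneous 1)
    (hli : LinearIndependent ℂ l) (a : K3) :
    ∃ n d : MvPolynomial (Fin 3) ℂ, d ≠ 0 ∧ a = aeval (cx l hl) n / aeval (cx l hl) d := by
  obtain ⟨l', hl', -, h1, h2⟩ := exists_inverse l hl hli
  obtain ⟨d, A, B, hA, hB, hB0, hab⟩ := a.2
  have hA' := claim l hl hli hl' h1 hA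
  have hB' := claim l hl hli hl' h1 hB
  refine ⟨DD l' A, DD l' B, ?_, ?_⟩
  · intro h0
    rw [h0] at hB'
    simp only [map_zero, ZeroMemClass.coe_zero, mul_zero] at hB'
    rw [IsFractionRing.to_map_eq_zero_iff] at hB'
    exact hB0 hB'
  · apply Subtype.ext
    rw [hab, hA', hB', mul_div_mul_left _ _ (pow_ne_zero _ (l1_ne hli))]
    rfl

/-- The local rings of the irreducible surfaces of the affine chart `l 1 ≠ 0` are local rings of
irreducible surfaces of `ℙ^3`.  `G` is the homogenisation of `G0`. -/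
theorem exists_form (l : Fin 4 → S) (hl : ∀ i, (l i).IsHomogeneous 1)
    (hli : LinearIndependent ℂ l) (G0 : MvPolynomial (Fin 3) ℂ) (hG0 : Irreducible G0) :
    ∃ (d : ℕ) (G : S), Irreducible G ∧ G.IsHomogeneous d ∧
      surfRing G = {a : K3 | ∃ n d : MvPolynomial (Fin 3) ℂ, ¬ G0 ∣ d ∧
        a = aeval (cx l hl) n / aeval (cx l hl) d} := by
  classical
  obtain ⟨l', hl', -, h1, h2⟩ := exists_inverse l hl hli
  have hex : ∃ d : ℕ, ∃ G : S, G.IsHomogeneous d ∧ DD l' G = G0 := by
    obtain ⟨d, hd⟩ := exists_hom' hl h2 G0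
    exact ⟨d, hd d le_rfl⟩
  obtain ⟨G, hG, hGG⟩ := Nat.find_spec hex
  have hmin : ∀ j, j < Nat.find hex → ∀ V : S, V.IsHomogeneous j → DD l' V ≠ G0 := by
    intro j hj V hV hVG
    exact Nat.find_min hex hj ⟨V, hV, hVG⟩
  set d := Nat.find hex with hd
  have hG0ne : G0 ≠ 0 := hG0.ne_zero
  have hGne : G ≠ 0 := by
    rintro rfl
    rw [map_zero] at hGG
    exact hG0ne hGG.symm
  -- a factor whose dehomogenisation is a unit is a unit
  have hfac : ∀ U V : S, ∀ i j : ℕ, i + j = d → U.IsHomogeneous i → V.IsHomogeneous j →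
      G = U * V → IsUnit (DD l' U) → IsUnit U := by
    intro U V i j hij hU hV hUV hu
    obtain ⟨c, hc, hcU⟩ := MvPolynomial.isUnit_iff_eq_C_of_isReduced.1 hu
    have h3 : DD l' (C c * V) = G0 := by
      rw [map_mul, DD_C, ← hcU, ← map_mul, ← hUV, hGG]
    have h4 : ¬ j < d := fun hj => hmin j hj _ (hV.C_mul c) h3
    have h5 : i = 0 := by omega
    subst h5
    have h6 := (totalDegree_zero_iff_isHomogeneous (Fin 4)).2 hU
    rw [totalDegree_eq_zero_iff_eq_C] at h6
    rw [h6]
    have h7 : coeff 0 U ≠ 0 := by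
      intro h8
      rw [h8, C_0] at h6
      rw [h6, zero_mul] at hUV
      exact hGne hUV
    exact (isUnit_iff_ne_zero.2 h7).map C
  have hirr : Irreducible G := by
    refine ⟨fun hu => hG0.not_isUnit (hGG ▸ hu.map (DD l')), ?_⟩
    intro U V hUV
    obtain ⟨i, j, hij, hU, hV⟩ := KSF.homog_of_mul U V d (hUV ▸ hG) (hUV ▸ hGne)
    have h3 : G0 = DD l' U * DD l' V := by
      rw [← hGG, hUV, map_mul]
    rcases hG0.isUnit_or_isUnit h3 with h4 | h4
    · exact Or.inl (hfac U V i j hij hU hV hUV h4)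
    · exact Or.inr (hfac V U j i (by omega) hV hU (by rw [hUV, mul_comm]) h4)
  have hprime : Prime G := hirr.prime
  have hkey : ∀ (e : ℕ) (B : S), B.IsHomogeneous e → G0 ∣ DD l' B → G ∣ B := by
    rintro e B hB ⟨C1, hC1⟩
    obtain ⟨f0, hf0⟩ := exists_hom' hl h2 C1
    obtain ⟨C2, hC2, hC2'⟩ := hf0 (max f0 e) (le_max_left _ _)
    have hle : e ≤ d + max f0 e := le_trans (le_max_right f0 e) (Nat.le_add_left _ _)
    have h3 : l 1 ^ (d + max f0 e - e) * B = G * C2 := by
      apply uniq l hl hli hl' h1 (d := d + max f0 e)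
      · have := ((hl 1).pow (d + max f0 e - e)).mul hB
        rwa [one_mul, Nat.sub_add_cancel hle] at this
      · exact hG.mul hC2
      · rw [map_mul, map_pow, DD_l1 h2, one_pow, one_mul, map_mul, hGG, hC2', hC1]
    rcases hprime.dvd_or_dvd (Dvd.intro _ h3.symm) with h4 | h4
    · exfalso
      have h5 := map_dvd (DD l') h4
      rw [map_pow, DD_l1 h2, one_pow, hGG] at h5
      exact hG0.not_isUnit (isUnit_of_dvd_one h5)
    · exact h4
  refine ⟨d, G, hirr, hG, ?_⟩
  have hquot : ∀ (e : ℕ) (A B : S), A.IsHomogeneous e → B.IsHomogeneous e →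
      algebraMap S L A / algebraMap S L B =
        ((aeval (cx l hl) (DD l' A) / aeval (cx l hl) (DD l' B) : K3) : L) := by
    intro e A B hA hB
    rw [claim l hl hli hl' h1 hA, claim l hl hli hl' h1 hB,
      mul_div_mul_left _ _ (pow_ne_zero _ (l1_ne hli))]
    rfl
  ext a
  constructor
  · rintro ⟨e, A, B, hA, hB, hGB, ha⟩
    refine ⟨DD l' A, DD l' B, fun hdvd => hGB (hkey e B hB hdvd), ?_⟩
    apply Subtype.ext
    rw [ha, hquot e A B hA hB]
  · rintro ⟨n, m, hm, ha⟩
    obtain ⟨a0, ha0⟩ := exists_hom' hl h2 n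
    obtain ⟨b0, hb0⟩ := exists_hom' hl h2 m
    obtain ⟨A, hA, hA'⟩ := ha0 (max a0 b0) (le_max_left _ _)
    obtain ⟨B, hB, hB'⟩ := hb0 (max a0 b0) (le_max_right _ _)
    refine ⟨max a0 b0, A, B, hA, hB, ?_, ?_⟩
    · intro hdvd
      apply hm
      rw [← hB', ← hGG]
      exact map_dvd (DD l') hdvd
    · rw [hquot _ A B hA hB, hA', hB', ha]

end Pool.Agent.CLU
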