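import Mathlib

/-!
# CLU / Torus: the triangular torus chart

`ψ : ℂ[t_0, t_1, t_2] → ℂ[x, w, z]`, `t_0 ↦ x`, `t_1 ↦ u = x w + p(x)`, `t_2 ↦ z u + r(x, w)`.
`ψ` is injective and every `n ∈ ℂ[x, w, z]` becomes a polynomial in the `ψ(t_i)` after
multiplication with a power of `ψ(t_0 t_1) = x u` (`x w = ψ(t_1 - p(t_0))`,
`x^N z u = ψ(..)`).

`torus`: `q` irreducible, `q ∤ t_0`, `q ∤ t_1`.  `ψ(q)` does not divide a power of `x u` (otherwise
`q` divides a power of `t_0 t_1`), so it has a prime factor `G0 ∤ x u`.  Write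
`ψ(q) = G0 r`, `(x u)^a G0 = ψ(G')`, `(x u)^b r = ψ(r')`; then `q (t_0 t_1)^(a+b) = G' r'`, so
`q ∣ G'` or `q ∣ r'`; in the second case `(x u)^b r = G0 r ψ(s)`, so `G0 ∣ (x u)^b`, contradiction.
So `q ∣ G'`.  For `(x u)^k d = ψ(d')`: `G0 ∣ d ↔ q ∣ d'` (if `q ∣ d'` then `G0 ∣ ψ(q) ∣ (x u)^k d`;
if `d = G0 e`, `(x u)^m e = ψ(e')`, then `(t_0 t_1)^k G' e' = (t_0 t_1)^(a+m) d'`, so `q ∣ d'`).
In particular `G0 ∣ ψ(d) ↔ q ∣ d`.  Then both sides of the claim are equal.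
-/

set_option autoImplicit false

namespace Pool.Agent.CLU

open MvPolynomial

/-- `ψ`. -/
noncomputable def psi (p : Polynomial ℂ) (r : MvPolynomial (Fin 2) ℂ) :
    MvPolynomial (Fin 3) ℂ →ₐ[ℂ] MvPolynomial (Fin 3) ℂ :=
  aeval ![X 0, X 0 * X 1 + Polynomial.aeval (X 0) p,
    X 2 * (X 0 * X 1 + Polynomial.aeval (X 0) p) + aeval ![X 0, X 1] r]

private theorem psi_X0 (p : Polynomial ℂ) (r : MvPolynomial (Fin 2) ℂ) :
    psi p r (X 0) = X 0 := by
  simp [psi]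

private theorem psi_X1 (p : Polynomial ℂ) (r : MvPolynomial (Fin 2) ℂ) :
    psi p r (X 1) = X 0 * X 1 + Polynomial.aeval (X 0) p := by
  simp [psi]

private theorem psi_X2 (p : Polynomial ℂ) (r : MvPolynomial (Fin 2) ℂ) :
    psi p r (X 2) = X 2 * (X 0 * X 1 + Polynomial.aeval (X 0) p) + aeval ![X 0, X 1] r := by
  simp [psi]

private def Clr (p : Polynomial ℂ) (r : MvPolynomial (Fin 2) ℂ) (T n : MvPolynomial (Fin 3) ℂ) :
    Prop :=
  ∃ (k : ℕ) (n' : MvPolynomial (Fin 3) ℂ), (psi p r T) ^ k * n = psi p r n'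

private theorem Clr.add {p : Polynomial ℂ} {r : MvPolynomial (Fin 2) ℂ}
    {T n m : MvPolynomial (Fin 3) ℂ} (hn : Clr p r T n) (hm : Clr p r T m) :
    Clr p r T (n + m) := by
  obtain ⟨k, n', hn'⟩ := hn
  obtain ⟨l, m', hm'⟩ := hm
  refine ⟨k + l, T ^ l * n' + T ^ k * m', ?_⟩
  rw [map_add, map_mul, map_mul, map_pow, map_pow, ← hn', ← hm']
  ring

private theorem Clr.mul {p : Polynomial ℂ} {r : MvPolynomial (Fin 2) ℂ}
    {T n m : MvPolynomial (Fin 3) ℂ} (hn : Clr p r T n) (hm : Clr p r T m) :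
    Clr p r T (n * m) := by
  obtain ⟨k, n', hn'⟩ := hn
  obtain ⟨l, m', hm'⟩ := hm
  refine ⟨k + l, n' * m', ?_⟩
  rw [map_mul, ← hn', ← hm']
  ring

private theorem Clr.const {p : Polynomial ℂ} {r : MvPolynomial (Fin 2) ℂ}
    {T : MvPolynomial (Fin 3) ℂ} (c : ℂ) : Clr p r T (C c) := by
  refine ⟨0, C c, ?_⟩
  rw [pow_zero, one_mul]
  exact ((psi p r).commutes c).symm

private theorem Clr.x0 {p : Polynomial ℂ} {r : MvPolynomial (Fin 2) ℂ}
    {T : MvPolynomial (Fin 3) ℂ} : Clr p r T (X 0) :=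
  ⟨0, X 0, by rw [pow_zero, one_mul, psi_X0]⟩

private theorem psi_aeval (p : Polynomial ℂ) (r : MvPolynomial (Fin 2) ℂ) :
    psi p r (Polynomial.aeval (X 0) p) = Polynomial.aeval (X 0) p := by
  rw [← Polynomial.aeval_algHom_apply, psi_X0]

private theorem Clr.x1 {p : Polynomial ℂ} {r : MvPolynomial (Fin 2) ℂ}
    {T : MvPolynomial (Fin 3) ℂ} (hT : T = X 0 * X 1) : Clr p r T (X 1) := by
  refine ⟨1, X 1 * (X 1 - Polynomial.aeval (X 0) p), ?_⟩
  rw [hT, map_mul, map_mul, map_sub, psi_aeval, psi_X0, psi_X1]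
  ring

private theorem Clr.ev {p : Polynomial ℂ} {r : MvPolynomial (Fin 2) ℂ}
    {T : MvPolynomial (Fin 3) ℂ} (hT : T = X 0 * X 1)
    (s : MvPolynomial (Fin 2) ℂ) : Clr p r T (aeval ![X 0, X 1] s) := by
  induction s using MvPolynomial.induction_on with
  | C a =>
    have : (aeval ![X 0, X 1] (C a) : MvPolynomial (Fin 3) ℂ) = C a := by
      rw [aeval_C]; rfl
    rw [this]
    exact Clr.const a
  | add f g hf hg => rw [map_add]; exact hf.add hg
  | mul_X f i hf =>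
    rw [map_mul]
    refine hf.mul ?_
    fin_cases i
    · simpa using (Clr.x0 (p := p) (r := r) (T := T))
    · simpa using (Clr.x1 (p := p) (r := r) hT)

private theorem Clr.x2 {p : Polynomial ℂ} {r : MvPolynomial (Fin 2) ℂ}
    {T : MvPolynomial (Fin 3) ℂ} (hT : T = X 0 * X 1) : Clr p r T (X 2) := by
  obtain ⟨k, r', hr'⟩ := Clr.ev (p := p) (r := r) hT r
  refine ⟨k + 1, X 0 * (T ^ k * X 2 - r'), ?_⟩
  have h1 : psi p r T = X 0 * psi p r (X 1) := by rw [hT, map_mul, psi_X0]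
  have h2 : psi p r (X 2) = X 2 * psi p r (X 1) + aeval ![X 0, X 1] r := by
    rw [psi_X2, psi_X1]
  have h3 : psi p r (X 0 * (T ^ k * X 2 - r')) =
      X 0 * ((psi p r T) ^ k * (X 2 * psi p r (X 1) + aeval ![X 0, X 1] r) -
        (psi p r T) ^ k * aeval ![X 0, X 1] r) := by
    rw [map_mul, map_sub, map_mul, map_pow, psi_X0, h2, hr']
  rw [h3, pow_succ]
  have h4 : (psi p r T) ^ k * psi p r T * X 2 = (psi p r T) ^ k * (X 0 * psi p r (X 1)) * X 2 := by
    rw [← h1]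
  rw [h4]
  ring

theorem psi_clear (p : Polynomial ℂ) (r : MvPolynomial (Fin 2) ℂ) (n : MvPolynomial (Fin 3) ℂ) :
    ∃ (k : ℕ) (n' : MvPolynomial (Fin 3) ℂ),
      (psi p r (X 0 * X 1)) ^ k * n = psi p r n' := by
  change Clr p r (X 0 * X 1) n
  induction n using MvPolynomial.induction_on with
  | C a => exact Clr.const a
  | add f g hf hg => exact hf.add hg
  | mul_X f i hf =>
    refine hf.mul ?_
    fin_cases i
    · exact Clr.x0
    · exact Clr.x1 rfl
    · exact Clr.x2 rfl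

theorem psi_injective (p : Polynomial ℂ) (r : MvPolynomial (Fin 2) ℂ) :
    Function.Injective (psi p r) := by
  let F := FractionRing (MvPolynomial (Fin 3) ℂ)
  let j : MvPolynomial (Fin 3) ℂ →ₐ[ℂ] F := IsScalarTower.toAlgHom ℂ (MvPolynomial (Fin 3) ℂ) F
  have hj : Function.Injective j := IsFractionRing.injective (MvPolynomial (Fin 3) ℂ) F
  have h0 : j (X 0) ≠ 0 := fun h => X_ne_zero (R := ℂ) (0 : Fin 3) (hj (by rw [h, map_zero]))
  have h1 : j (X 1) ≠ 0 := fun h => X_ne_zero (R := ℂ) (1 : Fin 3) (hj (by rw [h, map_zero]))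
  let w : F := (j (X 1) - Polynomial.aeval (j (X 0)) p) / j (X 0)
  let z : F := (j (X 2) - aeval ![j (X 0), w] r) / j (X 1)
  let χ : MvPolynomial (Fin 3) ℂ →ₐ[ℂ] F := aeval ![j (X 0), w, z]
  have hχ0 : χ (X 0) = j (X 0) := by simp [χ]
  have hχ1 : χ (X 1) = w := by simp [χ]
  have hχ2 : χ (X 2) = z := by simp [χ]
  have hw : j (X 0) * w = j (X 1) - Polynomial.aeval (j (X 0)) p := by
    rw [mul_comm]
    exact div_mul_cancel₀ _ h0
  have hz : z * j (X 1) = j (X 2) - aeval ![j (X 0), w] r := by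
    exact div_mul_cancel₀ _ h1
  have hp : χ (Polynomial.aeval (X 0) p) = Polynomial.aeval (j (X 0)) p := by
    rw [← Polynomial.aeval_algHom_apply, hχ0]
  have hu : χ (psi p r (X 1)) = j (X 1) := by
    rw [psi_X1, map_add, map_mul, hχ0, hχ1, hp, hw]
    ring
  have hr : χ (aeval ![X 0, X 1] r) = aeval ![j (X 0), w] r := by
    rw [← AlgHom.comp_apply, MvPolynomial.comp_aeval]
    congr 2
    funext i
    fin_cases i
    · simpa using hχ0
    · simpa using hχ1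
  have hcomp : χ.comp (psi p r) = j := by
    apply MvPolynomial.algHom_ext
    intro i
    rw [AlgHom.comp_apply]
    fin_cases i
    · show χ (psi p r (X 0)) = j (X 0)
      rw [psi_X0, hχ0]
    · exact hu
    · show χ (psi p r (X 2)) = j (X 2)
      rw [psi_X2, ← psi_X1 p r, map_add, map_mul, hu, hχ2, hr, hz]
      ring
  have hinj : Function.Injective (χ.comp (psi p r)) := by rw [hcomp]; exact hj
  intro a b hab
  apply hinj
  rw [AlgHom.comp_apply, AlgHom.comp_apply, hab]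

private theorem dvd_pow_of_primes {R : Type*} [CommRing R] [IsDomain R]
    [UniqueFactorizationMonoid R] (b : R) (a : R) (ha : a ≠ 0)
    (h : ∀ q : R, Prime q → q ∣ a → q ∣ b) : ∃ N : ℕ, a ∣ b ^ N := by
  induction a using UniqueFactorizationMonoid.induction_on_prime with
  | h₁ => exact absurd rfl ha
  | h₂ x hx => exact ⟨0, hx.dvd⟩
  | h₃ a q ha0 hq ih =>
    obtain ⟨N, hN⟩ := ih ha0 (fun s hs hsa => h s hs (hsa.mul_left q))
    refine ⟨N + 1, ?_⟩
    rw [pow_succ, mul_comm q a]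
    exact mul_dvd_mul hN (h q hq (dvd_mul_right q a))

theorem torus (p : Polynomial ℂ) (r : MvPolynomial (Fin 2) ℂ) (q : MvPolynomial (Fin 3) ℂ)
    (hq : Irreducible q) (h0 : ¬ q ∣ X 0) (h1 : ¬ q ∣ X 1) :
    ∃ G0 : MvPolynomial (Fin 3) ℂ, Irreducible G0 ∧
      ∀ {K : Type} [Field K] (ι : MvPolynomial (Fin 3) ℂ →+* K), Function.Injective ι → ∀ a : K,
        (∃ n d : MvPolynomial (Fin 3) ℂ, ¬ q ∣ d ∧ a = ι (psi p r n) / ι (psi p r d)) ↔
          ∃ n d : MvPolynomial (Fin 3) ℂ, ¬ G0 ∣ d ∧ a = ι n / ι d := by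
  have hinj := psi_injective p r
  have hqp : Prime q := hq.prime
  obtain ⟨T, hT⟩ : ∃ T : MvPolynomial (Fin 3) ℂ, T = X 0 * X 1 := ⟨_, rfl⟩
  have hT0 : T ≠ 0 := by rw [hT]; exact mul_ne_zero (X_ne_zero 0) (X_ne_zero 1)
  have hqT : ¬ q ∣ T := fun h => by rw [hT] at h; exact (hqp.dvd_or_dvd h).elim h0 h1
  have hqTn : ∀ n : ℕ, ¬ q ∣ T ^ n := fun n h => hqT (hqp.dvd_of_dvd_pow h)
  have hP0 : psi p r T ≠ 0 := fun h => hT0 (hinj (by rw [h, map_zero]))
  have hψq : psi p r q ≠ 0 := fun h => hq.ne_zero (hinj (by rw [h, map_zero]))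
  have hclear : ∀ n : MvPolynomial (Fin 3) ℂ, ∃ (k : ℕ) (n' : MvPolynomial (Fin 3) ℂ),
      (psi p r T) ^ k * n = psi p r n' := by rw [hT]; exact psi_clear p r
  obtain ⟨G0, hG0, hG0q, hG0P⟩ : ∃ G : MvPolynomial (Fin 3) ℂ, Prime G ∧ G ∣ psi p r q ∧
      ¬ G ∣ psi p r T := by
    by_contra hcon
    push Not at hcon
    obtain ⟨N, s, hs⟩ := dvd_pow_of_primes (psi p r T) (psi p r q) hψq hcon
    obtain ⟨k, s', hs'⟩ := hclear s
    have h : psi p r (T ^ (k + N)) = psi p r (q * s') := by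
      rw [map_pow, map_mul, pow_add, ← hs', hs]
      ring
    exact hqTn (k + N) ⟨s', hinj h⟩
  have hG0Pn : ∀ n : ℕ, ¬ G0 ∣ (psi p r T) ^ n := fun n h => hG0P (hG0.dvd_of_dvd_pow h)
  obtain ⟨s, hs⟩ := hG0q
  have hs0 : s ≠ 0 := fun h => hψq (by rw [hs, h, mul_zero])
  obtain ⟨a, G', hG'⟩ := hclear G0
  obtain ⟨b, s', hs'⟩ := hclear s
  have hqG' : q ∣ G' := by
    have h : q * T ^ (a + b) = G' * s' := by
      apply hinj
      rw [map_mul, map_mul, map_pow, ← hG', ← hs', hs, pow_add]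
      ring
    rcases hqp.dvd_or_dvd (Dvd.intro _ h : q ∣ G' * s') with h' | ⟨e, he⟩
    · exact h'
    · exfalso
      have h2 : (psi p r T) ^ b * s = G0 * psi p r e * s := by
        rw [hs', he, map_mul, hs]
        ring
      exact hG0Pn b ⟨_, mul_right_cancel₀ hs0 h2⟩
  have key : ∀ (k : ℕ) (d d' : MvPolynomial (Fin 3) ℂ), (psi p r T) ^ k * d = psi p r d' →
      (G0 ∣ d ↔ q ∣ d') := by
    intro k d d' hd
    constructor
    · rintro ⟨e, rfl⟩
      obtain ⟨m, e', he'⟩ := hclear e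
      have h : T ^ k * (G' * e') = T ^ (a + m) * d' := by
        apply hinj
        rw [map_mul, map_mul, map_mul, map_pow, map_pow, ← hG', ← he', ← hd, pow_add]
        ring
      have h2 : q ∣ T ^ (a + m) * d' := by
        rw [← h]
        exact (hqG'.mul_right e').mul_left _
      exact (hqp.dvd_or_dvd h2).resolve_left (hqTn _)
    · rintro ⟨e, rfl⟩
      have h2 : G0 ∣ (psi p r T) ^ k * d := by
        rw [hd, map_mul, hs, mul_assoc]
        exact dvd_mul_right _ _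
      exact (hG0.dvd_or_dvd h2).resolve_left (hG0Pn _)
  refine ⟨G0, hG0.irreducible, ?_⟩
  intro K _ ι hι x
  have hιP : ∀ n : ℕ, ι ((psi p r T) ^ n) ≠ 0 := fun n h =>
    pow_ne_zero n hP0 (hι (by rw [h, map_zero]))
  constructor
  · rintro ⟨n, d, hd, rfl⟩
    refine ⟨psi p r n, psi p r d, ?_, rfl⟩
    rw [key 0 (psi p r d) d (by rw [pow_zero, one_mul])]
    exact hd
  · rintro ⟨n, d, hd, rfl⟩
    obtain ⟨k, n', hn'⟩ := hclear n
    obtain ⟨l, d', hd'⟩ := hclear d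
    refine ⟨T ^ l * n', T ^ k * d', ?_, ?_⟩
    · intro h
      rcases hqp.dvd_or_dvd h with h | h
      · exact hqTn _ h
      · exact hd ((key l d d' hd').2 h)
    · rw [map_mul (psi p r) (T ^ l) n', map_mul (psi p r) (T ^ k) d', map_pow, map_pow,
        ← hn', ← hd']
      have e1 : (psi p r T) ^ l * ((psi p r T) ^ k * n) = (psi p r T) ^ (k + l) * n := by
        rw [pow_add]; ring
      have e2 : (psi p r T) ^ k * ((psi p r T) ^ l * d) = (psi p r T) ^ (k + l) * d := by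
        rw [pow_add]; ring
      rw [e1, e2, map_mul ι, map_mul ι, mul_div_mul_left _ _ (hιP _)]

end Pool.Agent.CLU
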