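import Pool.Agent.CLU.Theta
import Pool.Agent.CLU.Torus
import Pool.Agent.CLU.Coord2
import Pool.Agent.CLU.Frac

/-!
# CLU / Chart: the torus chart of a nodal quartic

`B = l_2 (l_3 l_0 l_1 + g(l_0, l_1)) + h(l_0, l_1, l_3)`; `x = l_0/l_1`, `w = l_3/l_1`,
`z = l_2/l_1` (`cx l`), `p(x) = g(x, 1)`, `r(x, w) = h(x, 1, w)`, `t_i = ψ(X_i)(x, w, z)`:
`t_0 = x = l_0 / l_1`, `t_1 = x w + p(x) = (l_3 l_0 l_1 + g) / l_1^3`,
`t_2 = z t_1 + r(x, w) = B / l_1^4`.

* `aeval t = (aeval cx) ∘ ψ` is injective (`cx_injective`, `psi_injective`); `t` generates `K3`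
  (`cx_frac`, `psi_clear`).  `θ` from `exists_theta`.
* determinant: for the `dl_k` of `change` and `a_i = A_i / B_i`, the chain rule of `exists_theta`
  (`δ = (dl k).compAlgebraMap K3`, `M = L`) gives
  `(dl_k a_i)_{ik} = (θ_j a_i)_{ij} diag(1 / t_j) (dl_k t_j)_{jk}`, and `(dl_k t_j)_{jk}` is lower
  triangular with diagonal `1 / l_1`, `l_0 / l_1^2`, `t_1 / l_1`.  So
  `det (dl_k a_i) = det (θ_j a_i) / (l_1^3 t_2) = det (θ_j a_i) l_1 / B`.
* torus divisors: `torus` (with `ι = aeval (cx l)`) and `exists_form`.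
-/

set_option autoImplicit false

namespace Pool.Agent.CLU

open MvPolynomial

theorem nodal_homog (B : S) (hB : NodalQuartic B) : B.IsHomogeneous 4 := by
  obtain ⟨l, g, h, hl, -, hg, hh, rfl⟩ := hB
  have h1 : (aeval ![l 0, l 1] g : S).IsHomogeneous 3 := by
    have := hg.aeval (n := 1) (![l 0, l 1] : Fin 2 → S) (by
      intro i
      fin_cases i
      · exact hl 0
      · exact hl 1)
    rwa [one_mul] at this
  have h2 : (aeval ![l 0, l 1, l 3] h : S).IsHomogeneous 4 := by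
    have := hh.aeval (n := 1) (![l 0, l 1, l 3] : Fin 3 → S) (by
      intro i
      fin_cases i
      · exact hl 0
      · exact hl 1
      · exact hl 3)
    rwa [one_mul] at this
  have h3 : (l 3 * l 0 * l 1 : S).IsHomogeneous 3 := ((hl 3).mul (hl 0)).mul (hl 1)
  exact ((hl 2).mul (h3.add h1)).add h2

theorem nodal_ne_zero (B : S) (hB : NodalQuartic B) : B ≠ 0 := by
  obtain ⟨l, g, h, hl, hli, hg, hh, rfl⟩ := hB
  intro h0
  obtain ⟨l', -, -, hll, -⟩ := exists_inverse l hl hli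
  -- the inverse substitution the other way round
  obtain ⟨l'', -, -, -, hl2⟩ := exists_inverse l hl hli
  have h1 := congrArg (aeval l'' : S →ₐ[ℂ] S) h0
  have hX : ∀ i, aeval l'' (l i) = (X i : S) := by
    intro i
    have := hl2 (X i)
    rwa [aeval_X] at this
  have hv2 : (fun i => aeval l'' ((![l 0, l 1] : Fin 2 → S) i)) = (![X 0, X 1] : Fin 2 → S) := by
    funext i
    fin_cases i
    · exact hX 0
    · exact hX 1
  have hv3 : (fun i => aeval l'' ((![l 0, l 1, l 3] : Fin 3 → S) i)) =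
      (![X 0, X 1, X 3] : Fin 3 → S) := by
    funext i
    fin_cases i
    · exact hX 0
    · exact hX 1
    · exact hX 3
  rw [map_zero, map_add, map_mul, map_add, map_mul, map_mul, hX, hX, hX, hX,
    comp_aeval_apply _ (aeval l'' : S →ₐ[ℂ] S), comp_aeval_apply _ (aeval l'' : S →ₐ[ℂ] S),
    hv2, hv3] at h1
  have key : ∀ s w : ℂ, s * (w + aeval ![(1 : ℂ), 1] g) + aeval ![(1 : ℂ), 1, w] h = 0 := by
    intro s w
    have h2 := congrArg (aeval (![1, 1, s, w] : Fin 4 → ℂ)) h1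
    rw [map_zero, map_add, map_mul, map_add, map_mul, map_mul, aeval_X, aeval_X, aeval_X, aeval_X,
      comp_aeval_apply, comp_aeval_apply] at h2
    have e2 : (fun i => aeval (![1, 1, s, w] : Fin 4 → ℂ) ((![X 0, X 1] : Fin 2 → S) i)) =
        (![1, 1] : Fin 2 → ℂ) := by
      funext i
      fin_cases i <;> simp
    have e3 : (fun i => aeval (![1, 1, s, w] : Fin 4 → ℂ) ((![X 0, X 1, X 3] : Fin 3 → S) i)) =
        (![1, 1, w] : Fin 3 → ℂ) := by
      funext i
      fin_cases i <;> simp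
    rw [e2, e3] at h2
    simpa using h2
  have k1 := key 1 1
  have k2 := key 0 1
  have k3 := key 1 0
  have k4 := key 0 0
  have : (1 : ℂ) = 0 := by linear_combination k1 - k2 - k3 + k4
  exact one_ne_zero this

/-- Scaling of homogeneous polynomials. -/
theorem chart_scale {σ : Type} [Fintype σ] {A : Type} [CommRing A] [Algebra ℂ A]
    (φ : MvPolynomial σ ℂ) (n : ℕ) (hφ : φ.IsHomogeneous n) (c : A) (v : σ → A) :
    aeval (fun i => c * v i) φ = c ^ n * aeval v φ := by
  rw [aeval_def, aeval_def, eval₂_eq', eval₂_eq', Finset.mul_sum]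
  apply Finset.sum_congr rfl
  intro d hd
  have h1 : ∑ i, d i = n := by
    have h2 := hφ (mem_support_iff.mp hd)
    have h4 := congrFun (congrArg DFunLike.coe (Finsupp.degree_eq_weight_one (σ := σ) (R := ℕ))) d
    rw [Finsupp.degree_eq_sum] at h4
    rw [← h2]
    exact h4
  have h3 : ∏ i, (c * v i) ^ d i = c ^ n * ∏ i, v i ^ d i := by
    rw [← h1, ← Finset.prod_pow_eq_pow_sum, ← Finset.prod_mul_distrib]
    apply Finset.prod_congr rfl
    intro i _
    rw [mul_pow]
  rw [h3]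
  ring

/-- Derivations of polynomials in constants vanish. -/
theorem chart_const {σ : Type} {A M : Type} [CommRing A] [Algebra ℂ A] [AddCommGroup M] [Module A M]
    [Module ℂ M] (D : Derivation ℂ A M) (v : σ → A) (hv : ∀ i, D (v i) = 0)
    (φ : MvPolynomial σ ℂ) : D (aeval v φ) = 0 := by
  induction φ using MvPolynomial.induction_on with
  | C a => rw [aeval_C, D.map_algebraMap]
  | add p q hp hq => rw [map_add, map_add, hp, hq, add_zero]
  | mul_X p i hp => rw [map_mul, aeval_X, D.leibniz, hp, hv, smul_zero, smul_zero, add_zero]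

/-- The affine coordinates as elements of `L`. -/
noncomputable def chV (l : Fin 4 → S) : Fin 3 → L :=
  ![algebraMap S L (l 0) / algebraMap S L (l 1), algebraMap S L (l 3) / algebraMap S L (l 1),
    algebraMap S L (l 2) / algebraMap S L (l 1)]

theorem chV_cx (l : Fin 4 → S) (hl : ∀ i, (l i).IsHomogeneous 1) (i : Fin 3) :
    ((cx l hl i : K3) : L) = chV l i := by
  fin_cases i <;> rfl

theorem chV_aeval (l : Fin 4 → S) (hl : ∀ i, (l i).IsHomogeneous 1)
    (F : MvPolynomial (Fin 3) ℂ) : ((aeval (cx l hl) F : K3) : L) = aeval (chV l) F := by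
  have h := comp_aeval_apply (cx l hl) K3.val F
  have h2 : (fun i => K3.val (cx l hl i)) = chV l := by
    funext i
    exact chV_cx l hl i
  rw [h2] at h
  exact h

/-- The torus coordinates. -/
noncomputable def chT (l : Fin 4 → S) (hl : ∀ i, (l i).IsHomogeneous 1) (p : Polynomial ℂ)
    (r : MvPolynomial (Fin 2) ℂ) (i : Fin 3) : K3 := aeval (cx l hl) (psi p r (X i))

theorem chT_zero (l : Fin 4 → S) (hl : ∀ i, (l i).IsHomogeneous 1) (p : Polynomial ℂ)
    (r : MvPolynomial (Fin 2) ℂ) : ((chT l hl p r 0 : K3) : L) = chV l 0 := by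
  unfold chT psi
  rw [aeval_X, chV_aeval]
  exact aeval_X _ _

theorem chT_one (l : Fin 4 → S) (hl : ∀ i, (l i).IsHomogeneous 1) (p : Polynomial ℂ)
    (r : MvPolynomial (Fin 2) ℂ) :
    ((chT l hl p r 1 : K3) : L) = chV l 0 * chV l 1 + Polynomial.aeval (chV l 0) p := by
  unfold chT psi
  rw [aeval_X, chV_aeval]
  show aeval (chV l) (X 0 * X 1 + Polynomial.aeval (X 0) p) = _
  rw [map_add, map_mul, aeval_X, aeval_X, ← Polynomial.aeval_algHom_apply, aeval_X]

theorem chT_two (l : Fin 4 → S) (hl : ∀ i, (l i).IsHomogeneous 1) (p : Polynomial ℂ)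
    (r : MvPolynomial (Fin 2) ℂ) :
    ((chT l hl p r 2 : K3) : L) =
      chV l 2 * ((chT l hl p r 1 : K3) : L) + aeval ![chV l 0, chV l 1] r := by
  rw [chT_one]
  unfold chT psi
  rw [aeval_X, chV_aeval]
  show aeval (chV l) (X 2 * (X 0 * X 1 + Polynomial.aeval (X 0) p) + aeval ![X 0, X 1] r) = _
  have e : (fun i => aeval (chV l) ((![X 0, X 1] : Fin 2 → MvPolynomial (Fin 3) ℂ) i)) =
      (![chV l 0, chV l 1] : Fin 2 → L) := by
    funext i
    fin_cases i <;> simp
  rw [map_add, map_mul, map_add, map_mul, aeval_X, aeval_X, aeval_X,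
    ← Polynomial.aeval_algHom_apply, aeval_X, comp_aeval_apply, e]

theorem chT_aeval (l : Fin 4 → S) (hl : ∀ i, (l i).IsHomogeneous 1) (p : Polynomial ℂ)
    (r : MvPolynomial (Fin 2) ℂ) (F : MvPolynomial (Fin 3) ℂ) :
    (aeval (chT l hl p r) F : K3) = aeval (cx l hl) (psi p r F) := by
  have h : (aeval (chT l hl p r) : MvPolynomial (Fin 3) ℂ →ₐ[ℂ] K3) =
      (aeval (cx l hl)).comp (psi p r) := by
    apply MvPolynomial.algHom_ext
    intro i
    rw [aeval_X]
    rfl
  rw [h]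
  rfl

theorem chT_injective (l : Fin 4 → S) (hl : ∀ i, (l i).IsHomogeneous 1)
    (hli : LinearIndependent ℂ l) (p : Polynomial ℂ) (r : MvPolynomial (Fin 2) ℂ) :
    Function.Injective (aeval (chT l hl p r) : MvPolynomial (Fin 3) ℂ →ₐ[ℂ] K3) := by
  intro F G h
  rw [chT_aeval, chT_aeval] at h
  exact psi_injective p r (cx_injective l hl hli h)

theorem chT_ne_zero (l : Fin 4 → S) (hl : ∀ i, (l i).IsHomogeneous 1)
    (hli : LinearIndependent ℂ l) (p : Polynomial ℂ) (r : MvPolynomial (Fin 2) ℂ) (i : Fin 3) :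
    chT l hl p r i ≠ 0 := by
  intro h
  have h1 : (aeval (chT l hl p r) (X i : MvPolynomial (Fin 3) ℂ) : K3) =
      aeval (chT l hl p r) (0 : MvPolynomial (Fin 3) ℂ) := by
    rw [aeval_X, h, map_zero]
  exact MvPolynomial.X_ne_zero (R := ℂ) i (chT_injective l hl hli p r h1)

theorem chT_gen (l : Fin 4 → S) (hl : ∀ i, (l i).IsHomogeneous 1)
    (hli : LinearIndependent ℂ l) (p : Polynomial ℂ) (r : MvPolynomial (Fin 2) ℂ) :
    IntermediateField.adjoin ℂ (Set.range (chT l hl p r)) = ⊤ := by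
  rw [eq_top_iff]
  intro a _
  set E := IntermediateField.adjoin ℂ (Set.range (chT l hl p r)) with hE
  have ht : ∀ i, chT l hl p r i ∈ E := fun i =>
    IntermediateField.subset_adjoin _ _ (Set.mem_range_self i)
  have hpoly : ∀ F : MvPolynomial (Fin 3) ℂ, (aeval (chT l hl p r) F : K3) ∈ E := by
    intro F
    induction F using MvPolynomial.induction_on with
    | C c => rw [aeval_C]; exact E.algebraMap_mem c
    | add p q hp hq => rw [map_add]; exact E.add_mem hp hq
    | mul_X p i hp => rw [map_mul, aeval_X]; exact E.mul_mem hp (ht i)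
  have hcx : ∀ F : MvPolynomial (Fin 3) ℂ, (aeval (cx l hl) F : K3) ∈ E := by
    intro F
    obtain ⟨k, n', hk⟩ := psi_clear p r F
    have h1 := congrArg (aeval (cx l hl) : MvPolynomial (Fin 3) ℂ →ₐ[ℂ] K3) hk
    rw [map_mul, map_pow, ← chT_aeval, ← chT_aeval, map_mul, aeval_X, aeval_X] at h1
    have h2 : (chT l hl p r 0 * chT l hl p r 1) ^ k ≠ 0 :=
      pow_ne_zero k (mul_ne_zero (chT_ne_zero l hl hli p r 0) (chT_ne_zero l hl hli p r 1))
    have h3 : (aeval (cx l hl) F : K3) = aeval (chT l hl p r) n' /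
        (chT l hl p r 0 * chT l hl p r 1) ^ k := by
      rw [eq_div_iff h2, ← h1]
      ring
    rw [h3]
    exact E.div_mem (hpoly n') (E.pow_mem (E.mul_mem (ht 0) (ht 1)) k)
  obtain ⟨n, d, hd, rfl⟩ := cx_frac l hl hli a
  exact E.div_mem (hcx n) (hcx d)

theorem l_ne_zero {l : Fin 4 → S} (hli : LinearIndependent ℂ l) (i : Fin 4) :
    algebraMap S L (l i) ≠ 0 := by
  have h := hli.ne_zero i
  simpa using h

theorem chart_B_aux {M : Type} [Field M] [Algebra ℂ M] (φ : S →ₐ[ℂ] M) (l : Fin 4 → S)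
    (h1 : φ (l 1) ≠ 0) (g : MvPolynomial (Fin 2) ℂ) (h : MvPolynomial (Fin 3) ℂ)
    (hg : g.IsHomogeneous 3) (hh : h.IsHomogeneous 4) :
    φ (l 2 * (l 3 * l 0 * l 1 + aeval ![l 0, l 1] g) + aeval ![l 0, l 1, l 3] h) =
      φ (l 1) ^ 4 * (φ (l 2) / φ (l 1) * (φ (l 0) / φ (l 1) * (φ (l 3) / φ (l 1)) +
        Polynomial.aeval (φ (l 0) / φ (l 1)) (aeval ![Polynomial.X, 1] g : Polynomial ℂ)) +
        aeval ![φ (l 0) / φ (l 1), φ (l 3) / φ (l 1)]
          (aeval ![X 0, 1, X 1] h : MvPolynomial (Fin 2) ℂ)) := by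
  have e0 : φ (l 0) = φ (l 1) * (φ (l 0) / φ (l 1)) := by field_simp
  have e3 : φ (l 3) = φ (l 1) * (φ (l 3) / φ (l 1)) := by field_simp
  have e2 : φ (l 2) = φ (l 1) * (φ (l 2) / φ (l 1)) := by field_simp
  have k1 : φ (aeval ![l 0, l 1] g) = φ (l 1) ^ 3 * aeval ![φ (l 0) / φ (l 1), 1] g := by
    rw [comp_aeval_apply, ← chart_scale g 3 hg]
    have : (fun i => φ ((![l 0, l 1] : Fin 2 → S) i)) =
        fun i => φ (l 1) * (![φ (l 0) / φ (l 1), 1] : Fin 2 → M) i := by
      funext i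
      fin_cases i
      · exact e0
      · exact (mul_one _).symm
    rw [this]
  have k2 : φ (aeval ![l 0, l 1, l 3] h) =
      φ (l 1) ^ 4 * aeval ![φ (l 0) / φ (l 1), 1, φ (l 3) / φ (l 1)] h := by
    rw [comp_aeval_apply, ← chart_scale h 4 hh]
    have : (fun i => φ ((![l 0, l 1, l 3] : Fin 3 → S) i)) =
        fun i => φ (l 1) * (![φ (l 0) / φ (l 1), 1, φ (l 3) / φ (l 1)] : Fin 3 → M) i := by
      funext i
      fin_cases i
      · exact e0
      · exact (mul_one _).symm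
      · exact e3
    rw [this]
  have k3 : Polynomial.aeval (φ (l 0) / φ (l 1)) (aeval ![Polynomial.X, 1] g : Polynomial ℂ) =
      aeval ![φ (l 0) / φ (l 1), 1] g := by
    rw [comp_aeval_apply]
    have : (fun i => Polynomial.aeval (φ (l 0) / φ (l 1))
        ((![Polynomial.X, 1] : Fin 2 → Polynomial ℂ) i)) =
        (![φ (l 0) / φ (l 1), 1] : Fin 2 → M) := by
      funext i
      fin_cases i <;> simp
    rw [this]
  have k4 : aeval ![φ (l 0) / φ (l 1), φ (l 3) / φ (l 1)]
      (aeval ![X 0, 1, X 1] h : MvPolynomial (Fin 2) ℂ) =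
      aeval ![φ (l 0) / φ (l 1), 1, φ (l 3) / φ (l 1)] h := by
    rw [comp_aeval_apply]
    have : (fun i => aeval ![φ (l 0) / φ (l 1), φ (l 3) / φ (l 1)]
        ((![X 0, 1, X 1] : Fin 3 → MvPolynomial (Fin 2) ℂ) i)) =
        (![φ (l 0) / φ (l 1), 1, φ (l 3) / φ (l 1)] : Fin 3 → M) := by
      funext i
      fin_cases i <;> simp
    rw [this]
  rw [k3, k4, map_add, map_mul, map_add, map_mul, map_mul, k1, k2]
  generalize aeval ![φ (l 0) / φ (l 1), 1] g = P at *
  generalize aeval ![φ (l 0) / φ (l 1), 1, φ (l 3) / φ (l 1)] h = R at *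
  field_simp

/-- `B = l_1^4 t_2`. -/
theorem chart_B (l : Fin 4 → S) (hl : ∀ i, (l i).IsHomogeneous 1)
    (hli : LinearIndependent ℂ l) (g : MvPolynomial (Fin 2) ℂ) (h : MvPolynomial (Fin 3) ℂ)
    (hg : g.IsHomogeneous 3) (hh : h.IsHomogeneous 4) :
    algebraMap S L (l 2 * (l 3 * l 0 * l 1 + aeval ![l 0, l 1] g) + aeval ![l 0, l 1, l 3] h) =
      algebraMap S L (l 1) ^ 4 *
        ((chT l hl (aeval ![Polynomial.X, 1] g) (aeval ![X 0, 1, X 1] h) 2 : K3) : L) := by
  have ha1 := l_ne_zero hli 1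
  have key := chart_B_aux (IsScalarTower.toAlgHom ℂ S L) l ha1 g h hg hh
  rw [chT_two, chT_one]
  exact key

/-- The matrix of the logarithmic derivatives of the `t_j`. -/
theorem chart_tri (l : Fin 4 → S) (hl : ∀ i, (l i).IsHomogeneous 1)
    (hli : LinearIndependent ℂ l) (p : Polynomial ℂ) (r : MvPolynomial (Fin 2) ℂ)
    (dl : Fin 3 → Derivation ℂ L L) (h1 : ∀ k, dl k (algebraMap S L (l 1)) = 0)
    (h2 : ∀ k i, dl k (algebraMap S L (![l 0, l 3, l 2] i)) = if k = i then 1 else 0) :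
    (Matrix.of fun j k => ((chT l hl p r j : K3) : L)⁻¹ * dl k ((chT l hl p r j : K3) : L)).det =
      (algebraMap S L (l 1) ^ 3 * ((chT l hl p r 2 : K3) : L))⁻¹ := by
  have ha1 := l_ne_zero hli 1
  have hv : ∀ k i, dl k (chV l i) = if k = i then (algebraMap S L (l 1))⁻¹ else 0 := by
    intro k i
    have e : chV l i = algebraMap S L (![l 0, l 3, l 2] i) / algebraMap S L (l 1) := by
      fin_cases i <;> rfl
    rw [e, (dl k).leibniz_div_const _ _ (h1 k), h2]
    split_ifs <;> simp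
  have t0 : ∀ k, dl k ((chT l hl p r 0 : K3) : L) =
      if k = 0 then (algebraMap S L (l 1))⁻¹ else 0 := by
    intro k
    rw [chT_zero, hv]
  have t1 : ∀ k, k ≠ 0 → dl k ((chT l hl p r 1 : K3) : L) =
      if k = 1 then chV l 0 * (algebraMap S L (l 1))⁻¹ else 0 := by
    intro k hk
    rw [chT_one, map_add, Derivation.leibniz, Derivation.map_aeval, hv, hv, if_neg hk]
    split_ifs <;> simp
  have t2 : dl 2 ((chT l hl p r 2 : K3) : L) =
      ((chT l hl p r 1 : K3) : L) * (algebraMap S L (l 1))⁻¹ := by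
    have e : dl 2 (aeval ![chV l 0, chV l 1] r) = 0 := by
      apply chart_const
      intro i
      fin_cases i
      · show dl 2 (chV l 0) = 0
        rw [hv]; simp
      · show dl 2 (chV l 1) = 0
        rw [hv]; simp
    rw [chT_two, map_add, Derivation.leibniz, e, hv, t1 2 (by decide)]
    simp
  have n0 : ((chT l hl p r 0 : K3) : L) ≠ 0 := by
    simpa using chT_ne_zero l hl hli p r 0
  have n1 : ((chT l hl p r 1 : K3) : L) ≠ 0 := by
    simpa using chT_ne_zero l hl hli p r 1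
  have n2 : ((chT l hl p r 2 : K3) : L) ≠ 0 := by
    simpa using chT_ne_zero l hl hli p r 2
  have n0' : chV l 0 ≠ 0 := by
    rw [← chT_zero l hl p r]
    exact n0
  rw [Matrix.det_fin_three]
  simp only [Matrix.of_apply]
  rw [t0 0, t0 1, t0 2, t1 1 (by decide), t1 2 (by decide), t2, chT_zero]
  simp only [if_true, one_ne_zero, if_false, Fin.reduceEq]
  generalize ((chT l hl p r 1 : K3) : L) = T1 at *
  generalize ((chT l hl p r 2 : K3) : L) = T2 at *
  generalize chV l 0 = V0 at *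
  generalize algebraMap S L (l 1) = A1 at *
  field_simp
  ring

/-- The determinant of the chain rule. -/
theorem chart_chain {F : Type} [Field F] [Algebra ℂ F] {K : Type} [Field K] [Algebra ℂ K]
    [Algebra K F] [IsScalarTower ℂ K F] (t : Fin 3 → K) (θ : Fin 3 → Derivation ℂ K K)
    (hθ : ∀ (δ : Derivation ℂ K F) (a : K), δ a = ∑ j, algebraMap K F (θ j a / t j) * δ (t j))
    (dl : Fin 3 → Derivation ℂ F F) (a : Fin 3 → K) (e : F) (he : e ≠ 0)
    (hdet : (Matrix.of fun j k => (algebraMap K F (t j))⁻¹ *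
      dl k (algebraMap K F (t j))).det = e⁻¹) :
    algebraMap K F (Matrix.of fun i j => θ j (a i)).det =
      (Matrix.of fun i k => dl k (algebraMap K F (a i))).det * e := by
  have h1 : (Matrix.of fun i k => dl k (algebraMap K F (a i))) =
      ((algebraMap K F).mapMatrix (Matrix.of fun i j => θ j (a i))) *
        (Matrix.of fun j k => (algebraMap K F (t j))⁻¹ * dl k (algebraMap K F (t j))) := by
    ext i k
    rw [Matrix.mul_apply]
    have h2 := hθ ((dl k).compAlgebraMap K) (a i)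
    have h3 : ∀ b : K, ((dl k).compAlgebraMap K) b = dl k (algebraMap K F b) := fun _ => rfl
    rw [h3] at h2
    simp only [Matrix.of_apply]
    rw [h2]
    apply Finset.sum_congr rfl
    intro j _
    rw [h3, map_div₀]
    simp only [RingHom.mapMatrix_apply, Matrix.map_apply, Matrix.of_apply]
    rw [div_eq_mul_inv]
    ring
  rw [h1, Matrix.det_mul, hdet, RingHom.map_det]
  field_simp

/-- The algebra of the last step. -/
theorem chart_final {F : Type} [Field F] (Dt DL X A1 T2 W Bf cc : F) (h1 : Dt = DL * (A1 ^ 3 * T2)) (h2 : DL * X = cc * (A1 * W))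
    (h3 : Bf = A1 ^ 4 * T2) : Dt * X = cc * (Bf * W) := by
  rw [h1, h3]
  calc DL * (A1 ^ 3 * T2) * X = (DL * X) * (A1 ^ 3 * T2) := by ring
    _ = cc * (A1 ^ 4 * T2 * W) := by rw [h2]; ring

theorem chart (B : S) (hB : NodalQuartic B) :
    ∃ (t : Fin 3 → K3) (θ : Fin 3 → Derivation ℂ K3 K3) (c : ℂ), c ≠ 0 ∧
      (∀ i, t i ≠ 0) ∧ (∀ i j, θ j (t i) = if i = j then t i else 0) ∧
      IntermediateField.adjoin ℂ (Set.range t) = ⊤ ∧
      (∀ (a : Fin 3 → K3) (A Bd : Fin 3 → S) (d : Fin 3 → ℕ)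
        (_ : ∀ i, (A i).IsHomogeneous (d i)) (_ : ∀ i, (Bd i).IsHomogeneous (d i))
        (_ : ∀ i, Bd i ≠ 0)
        (_ : ∀ i, (a i : L) = algebraMap S L (A i) / algebraMap S L (Bd i)) (m : Fin 4),
        (((Matrix.of fun i j => θ j (a i)).det : K3) : L) *
            algebraMap S L (X m * (Bd 0 * Bd 1 * Bd 2) ^ 2) =
          algebraMap ℂ L (c * (-1) ^ (m : ℕ)) * algebraMap S L (B * wmin A Bd m)) ∧
      ∀ q : MvPolynomial (Fin 3) ℂ, Irreducible q → (∀ i, ¬ q ∣ X i) →
        ∃ (d : ℕ) (G : S), Irreducible G ∧ G.IsHomogeneous d ∧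
          {a : K3 | ∃ n d : MvPolynomial (Fin 3) ℂ, ¬ q ∣ d ∧ a = aeval t n / aeval t d} =
            surfRing G := by
  obtain ⟨l, g, h, hl, hli, hg, hh, rfl⟩ := hB
  set p : Polynomial ℂ := aeval ![Polynomial.X, 1] g with hp
  set r : MvPolynomial (Fin 2) ℂ := aeval ![X 0, 1, X 1] h with hr
  obtain ⟨θ, hθ1, hθ2⟩ := exists_theta (chT l hl p r) (chT_injective l hl hli p r)
    (chT_gen l hl hli p r)
  obtain ⟨dl, c, hc, hd1, hd2, hd3⟩ := change l hl hli
  have hA1 := l_ne_zero hli 1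
  have hT2 : ((chT l hl p r 2 : K3) : L) ≠ 0 := by
    simpa using chT_ne_zero l hl hli p r 2
  refine ⟨chT l hl p r, θ, c, hc, chT_ne_zero l hl hli p r, hθ1, chT_gen l hl hli p r, ?_, ?_⟩
  · intro a A Bd d hA hBd hBd0 ha m
    have k1 := chart_chain (F := L) (chT l hl p r) θ (hθ2 L) dl a
      (algebraMap S L (l 1) ^ 3 * ((chT l hl p r 2 : K3) : L))
      (mul_ne_zero (pow_ne_zero 3 hA1) hT2) (chart_tri l hl hli p r dl hd1 hd2)
    have k2 := hd3 A Bd d hA hBd hBd0 m
    have k3 := chart_B l hl hli g h hg hh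
    have k4 : (Matrix.of fun i k => dl k (algebraMap K3 L (a i))) =
        (Matrix.of fun i k => dl k (algebraMap S L (A i) / algebraMap S L (Bd i))) := by
      ext i k
      simp only [Matrix.of_apply]
      rw [← ha i]
      rfl
    rw [k4] at k1
    rw [map_mul (algebraMap S L) (l 1)] at k2
    rw [map_mul (algebraMap S L) (l 2 * _ + _)]
    exact chart_final _ _ _ _ _ _ _ _ k1 k2 k3
  · intro q hq hqX
    obtain ⟨G0, hG0, hG0'⟩ := torus p r q hq (hqX 0) (hqX 1)
    obtain ⟨d, G, hG, hGh, hG'⟩ := exists_form l hl hli G0 hG0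
    refine ⟨d, G, hG, hGh, ?_⟩
    rw [hG']
    ext a
    have h1 := hG0' (K := K3) ((aeval (cx l hl) : MvPolynomial (Fin 3) ℂ →ₐ[ℂ] K3) :
      MvPolynomial (Fin 3) ℂ →+* K3) (cx_injective l hl hli) a
    constructor
    · rintro ⟨n, e, hne, rfl⟩
      apply h1.mp
      refine ⟨n, e, hne, ?_⟩
      rw [chT_aeval, chT_aeval]
      rfl
    · intro ha
      obtain ⟨n, e, hne, hae⟩ := h1.mpr ha
      refine ⟨n, e, hne, ?_⟩
      rw [chT_aeval, chT_aeval]
      exact hae

end Pool.Agent.CLU
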