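import Pool.Agent.CLU.Mult

/-!
# CLU / Col: three kinds of derivations on `κ[T][s]`

`κ = Kap P`, `Rg P = κ[T][s]`, `F(s) = expand P F = F(ξ + s T)`.  For `u ∈ (Rg P)^4` put
`Δ_u F = Σ_j u_j (∂_j F)(s)` (`del`).

* (T) `u_j = T_j`: `Δ_u F = ∂_s F(s)` (chain rule; `Polynomial.derivative`).  With `b = mult B`,
  `B(s) = s^b B'`, `A(s) = s^b A'`: `B ∂_s A - A ∂_s B = s^(2b) (B' ∂_s A' - A' ∂_s B')`.
* (E) `u_j = s δ_{ij}`: `Δ_u F = ∂_{T_i} F(s)` (`pderiv i` on the coefficients in `κ[T]`), which
  commutes with `s`: `B ΔA - A ΔB = s^(2b) (B' ΔA' - A' ΔB')`.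
* (D) `u_j = D ξ_j` for a derivation `D` of `κ`: `Δ_u F = D F(s)`, `D` acting on the coefficients
  in `κ` (of the monomials in `T` and `s`); it commutes with `s`.

In all cases both sides of `Δ_u F = ..` are derivations of `S` (over `ℂ`) with values in `Rg P`
(over the ring homomorphism `expand P`), so it is enough to compare them on the `X_j`.
-/

set_option autoImplicit false

namespace Pool.Agent.CLU

open MvPolynomial

/-- `κ[T][s]`. -/
abbrev Rg (P : Ideal S) : Type := Polynomial (MvPolynomial (Fin 4) (Kap P))

/-- `Δ_u F = Σ_j u_j (∂_j F)(ξ + s T)`. -/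
noncomputable def del (P : Ideal S) (u : Fin 4 → Rg P) (F : S) : Rg P :=
  ∑ j, expand P (pderiv j F) * u j

/-- The columns `u` which preserve the order condition. -/
def Good (P : Ideal S) (u : Fin 4 → Rg P) : Prop :=
  ∀ A B : S, B ≠ 0 → mult P B ≤ mult P A →
    Polynomial.X ^ (2 * (mult P B).toNat) ∣ expand P B * del P u A - expand P A * del P u B

/-- A derivation of `A`, applied to the coefficients of polynomials. -/
noncomputable def polyDer {A : Type*} [CommRing A] [Algebra ℂ A] (d : Derivation ℂ A A) :
    Derivation ℂ (Polynomial A) (Polynomial A) :=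
  Derivation.mk'
    { toFun := fun p => ∑ n ∈ p.support, Polynomial.monomial n (d (p.coeff n))
      map_add' := by
        intro p q
        ext n
        have key : ∀ r : Polynomial A,
            (∑ n ∈ r.support, Polynomial.monomial n (d (r.coeff n))).coeff n = d (r.coeff n) := by
          intro r
          rw [Polynomial.finsetSum_coeff]
          simp only [Polynomial.coeff_monomial]
          rw [Finset.sum_ite_eq']
          split_ifs with h
          · rfl
          · rw [Polynomial.notMem_support_iff.1 h, map_zero]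
        rw [Polynomial.coeff_add, key, key, key, Polynomial.coeff_add, map_add]
      map_smul' := by
        intro c p
        ext n
        have key : ∀ r : Polynomial A,
            (∑ n ∈ r.support, Polynomial.monomial n (d (r.coeff n))).coeff n = d (r.coeff n) := by
          intro r
          rw [Polynomial.finsetSum_coeff]
          simp only [Polynomial.coeff_monomial]
          rw [Finset.sum_ite_eq']
          split_ifs with h
          · rfl
          · rw [Polynomial.notMem_support_iff.1 h, map_zero]
        simp only [RingHom.id_apply]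
        rw [Polynomial.coeff_smul, key, key, Polynomial.coeff_smul, d.map_smul] }
    (by
      intro p q
      ext n
      have key : ∀ (r : Polynomial A) (n : ℕ),
          (∑ n ∈ r.support, Polynomial.monomial n (d (r.coeff n))).coeff n = d (r.coeff n) := by
        intro r n
        rw [Polynomial.finsetSum_coeff]
        simp only [Polynomial.coeff_monomial]
        rw [Finset.sum_ite_eq']
        split_ifs with h
        · rfl
        · rw [Polynomial.notMem_support_iff.1 h, map_zero]
      change (∑ n ∈ (p * q).support, Polynomial.monomial n (d ((p * q).coeff n))).coeff n =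
        (p * (∑ n ∈ q.support, Polynomial.monomial n (d (q.coeff n))) +
          q * (∑ n ∈ p.support, Polynomial.monomial n (d (p.coeff n)))).coeff n
      rw [key, Polynomial.coeff_add, mul_comm q, Polynomial.coeff_mul, Polynomial.coeff_mul,
        Polynomial.coeff_mul, map_sum, ← Finset.sum_add_distrib]
      refine Finset.sum_congr rfl fun x _ => ?_
      rw [key q, key p, Derivation.leibniz, smul_eq_mul, smul_eq_mul]
      ring)

lemma polyDer_coeff {A : Type*} [CommRing A] [Algebra ℂ A] (d : Derivation ℂ A A)
    (p : Polynomial A) (n : ℕ) : (polyDer d p).coeff n = d (p.coeff n) := by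
  change (∑ n ∈ p.support, Polynomial.monomial n (d (p.coeff n))).coeff n = d (p.coeff n)
  rw [Polynomial.finsetSum_coeff]
  simp only [Polynomial.coeff_monomial]
  rw [Finset.sum_ite_eq']
  split_ifs with h
  · rfl
  · rw [Polynomial.notMem_support_iff.1 h, map_zero]

lemma polyDer_C {A : Type*} [CommRing A] [Algebra ℂ A] (d : Derivation ℂ A A) (a : A) :
    polyDer d (Polynomial.C a) = Polynomial.C (d a) := by
  ext n
  rw [polyDer_coeff, Polynomial.coeff_C, Polynomial.coeff_C]
  split_ifs with h
  · rfl
  · exact map_zero d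

lemma polyDer_X {A : Type*} [CommRing A] [Algebra ℂ A] (d : Derivation ℂ A A) :
    polyDer d Polynomial.X = 0 := by
  ext n
  rw [polyDer_coeff, Polynomial.coeff_X, Polynomial.coeff_zero]
  split_ifs with h
  · exact d.map_one_eq_zero
  · exact map_zero d

/-- A derivation of `κ`, applied to the coefficients of polynomials in several variables. -/
lemma exists_mvDer {K : Type*} [CommRing K] [Algebra ℂ K] (d : Derivation ℂ K K) :
    ∃ D : Derivation ℂ (MvPolynomial (Fin 4) K) (MvPolynomial (Fin 4) K),
      (∀ c, D (C c) = C (d c)) ∧ ∀ j, D (X j) = 0 := by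
  have key : ∀ (r : MvPolynomial (Fin 4) K) (n : Fin 4 →₀ ℕ),
      (∑ n ∈ r.support, monomial n (d (r.coeff n))).coeff n = d (r.coeff n) := by
    intro r n
    rw [coeff_sum]
    simp only [coeff_monomial]
    rw [Finset.sum_ite_eq']
    split_ifs with h
    · rfl
    · rw [notMem_support_iff.1 h, map_zero]
  let L : MvPolynomial (Fin 4) K →ₗ[ℂ] MvPolynomial (Fin 4) K :=
    { toFun := fun p => ∑ n ∈ p.support, monomial n (d (p.coeff n))
      map_add' := by
        intro p q
        ext n
        rw [coeff_add, key, key, key, coeff_add, map_add]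
      map_smul' := by
        intro c p
        ext n
        simp only [RingHom.id_apply]
        rw [coeff_smul, key, key, coeff_smul, d.map_smul] }
  have hL : ∀ (r : MvPolynomial (Fin 4) K) (n : Fin 4 →₀ ℕ), (L r).coeff n = d (r.coeff n) := key
  refine ⟨Derivation.mk' L ?_, ?_, ?_⟩
  · intro p q
    ext n
    rw [hL, coeff_add, smul_eq_mul, smul_eq_mul, mul_comm q, coeff_mul, coeff_mul, coeff_mul,
      map_sum, ← Finset.sum_add_distrib]
    refine Finset.sum_congr rfl fun x _ => ?_
    rw [hL, hL, Derivation.leibniz, smul_eq_mul, smul_eq_mul]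
    ring
  · intro c
    change L (C c) = C (d c)
    ext n
    rw [hL, coeff_C, coeff_C]
    split_ifs with h
    · rfl
    · exact map_zero d
  · intro j
    change L (X j) = 0
    ext n
    rw [hL, coeff_X, coeff_zero]
    split_ifs with h
    · exact d.map_one_eq_zero
    · exact map_zero d

/-- The chain rule. -/
lemma chain_rule {R : Type*} [CommRing R] [Algebra ℂ R] (φ : S →ₐ[ℂ] R)
    (Δ : Derivation ℂ R R) (F : S) : Δ (φ F) = ∑ j, φ (pderiv j F) * Δ (φ (X j)) := by
  induction F using MvPolynomial.induction_on with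
  | C a =>
    have h1 : φ (C a) = algebraMap ℂ R a := φ.commutes a
    rw [h1, Derivation.map_algebraMap]
    simp
  | add p q hp hq =>
    rw [map_add, map_add, hp, hq, ← Finset.sum_add_distrib]
    refine Finset.sum_congr rfl fun j _ => ?_
    rw [map_add, map_add]
    ring
  | mul_X p n hp =>
    rw [map_mul, Derivation.leibniz, hp, smul_eq_mul, smul_eq_mul]
    have h2 : ∀ j, φ (pderiv j (p * X n)) * Δ (φ (X j)) =
        φ (X n) * (φ (pderiv j p) * Δ (φ (X j))) +
          (if j = n then φ p * Δ (φ (X j)) else 0) := by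
      intro j
      rw [Derivation.leibniz, pderiv_X, smul_eq_mul, smul_eq_mul, map_add, map_mul, map_mul]
      by_cases h : j = n
      · subst h
        simp
        ring
      · rw [if_neg h, Pi.single_eq_of_ne (fun h' => h h'.symm)]
        simp
        ring
    rw [Finset.sum_congr rfl fun j _ => h2 j, Finset.sum_add_distrib, ← Finset.mul_sum,
      Finset.sum_ite_eq' Finset.univ n, if_pos (Finset.mem_univ n)]
    ring

/-- The numerator of a logarithmic derivative. -/
lemma dvd_wronskian {R : Type*} [CommRing R] [Algebra ℂ R]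
    (Δ : Derivation ℂ (Polynomial R) (Polynomial R)) (a b : Polynomial R) (n : ℕ)
    (ha : Polynomial.X ^ n ∣ a) (hb : Polynomial.X ^ n ∣ b) :
    Polynomial.X ^ (2 * n) ∣ b * Δ a - a * Δ b := by
  obtain ⟨a', rfl⟩ := ha
  obtain ⟨b', rfl⟩ := hb
  refine ⟨b' * Δ a' - a' * Δ b', ?_⟩
  rw [Derivation.leibniz, Derivation.leibniz, smul_eq_mul, smul_eq_mul, smul_eq_mul,
    smul_eq_mul, two_mul, pow_add]
  ring

lemma X_pow_dvd_of_le {R : Type*} [CommRing R] (p : Polynomial R) (n : ℕ)
    (h : (n : ℕ∞) ≤ p.trailingDegree) : Polynomial.X ^ n ∣ p := by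
  rw [Polynomial.X_pow_dvd_iff]
  intro d hd
  apply Polynomial.coeff_eq_zero_of_lt_trailingDegree
  exact lt_of_lt_of_le (by exact_mod_cast hd) h

/-- Every derivation of `κ[T][s]` gives a good column. -/
lemma good_of_der (P : Ideal S) [P.IsPrime] (Δ : Derivation ℂ (Rg P) (Rg P))
    (u : Fin 4 → Rg P) (hu : ∀ j, Δ (expand P (X j)) = u j) : Good P u := by
  intro A B hB hAB
  have hdel : ∀ F : S, del P u F = Δ (expand P F) := by
    intro F
    have h := chain_rule (R := Rg P) (expand P) Δ F
    rw [h, del]
    refine Finset.sum_congr rfl fun j _ => ?_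
    rw [hu]
  have hn : ((mult P B).toNat : ℕ∞) = mult P B :=
    ENat.natCast_toNat (mult_ne_top P B hB)
  rw [hdel, hdel]
  refine dvd_wronskian Δ _ _ _ ?_ ?_
  · apply X_pow_dvd_of_le
    rw [hn]
    exact hAB
  · apply X_pow_dvd_of_le
    rw [hn]
    exact le_refl _

lemma expand_X' (P : Ideal S) (j : Fin 4) :
    expand P (X j) = Polynomial.C (C (gen P j)) + Polynomial.X * Polynomial.C (X j) := by
  rw [expand, aeval_X]

theorem good_T (P : Ideal S) [P.IsPrime] : Good P (fun j => Polynomial.C (X j)) := by
  refine good_of_der P ((Polynomial.derivative' (R := MvPolynomial (Fin 4) (Kap P))).restrictScalars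
    ℂ) _ ?_
  intro j
  rw [expand_X']
  change Polynomial.derivative _ = _
  simp

theorem good_E (P : Ideal S) [P.IsPrime] (i : Fin 4) :
    Good P (fun j => if j = i then Polynomial.X else 0) := by
  refine good_of_der P (polyDer ((pderiv i : Derivation (Kap P) (MvPolynomial (Fin 4) (Kap P))
    (MvPolynomial (Fin 4) (Kap P))).restrictScalars ℂ)) _ ?_
  intro j
  rw [expand_X', map_add, Derivation.leibniz, polyDer_C, polyDer_X, polyDer_C]
  have h1 : ((pderiv i : Derivation (Kap P) (MvPolynomial (Fin 4) (Kap P))
    (MvPolynomial (Fin 4) (Kap P))).restrictScalars ℂ) (C (gen P j)) = 0 := pderiv_C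
  have h2 : ((pderiv i : Derivation (Kap P) (MvPolynomial (Fin 4) (Kap P))
    (MvPolynomial (Fin 4) (Kap P))).restrictScalars ℂ) (X j) =
      if j = i then 1 else 0 := by
    change pderiv i (X j) = _
    rw [pderiv_X]
    by_cases h : j = i
    · subst h; simp
    · rw [if_neg h, Pi.single_eq_of_ne h]
  rw [h1, h2]
  by_cases h : j = i
  · simp [h]
  · simp [h]

theorem good_D (P : Ideal S) [P.IsPrime] (D : Derivation ℂ (Kap P) (Kap P)) :
    Good P (fun j => Polynomial.C (C (D (gen P j)))) := by
  obtain ⟨D', h1, h2⟩ := exists_mvDer D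
  refine good_of_der P (polyDer D') _ ?_
  intro j
  rw [expand_X', map_add, Derivation.leibniz, polyDer_C, polyDer_X, polyDer_C, h1, h2]
  simp

end Pool.Agent.CLU
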