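import Pool.Agent.CLU.Alg
import Pool.Agent.CLU.Col

/-!
# CLU / Jac: the discrepancy lemma

Notation as in `Col`.

`key`: let the columns of the `4 × 3` matrix `U` over `Rg P` be good.  As
`((wr A B).map (expand P)) * U` has the entries `B_i(s) Δ_c A_i - A_i(s) Δ_c B_i`, its determinant
is divisible by `s^(2 Σ mult B_i)` (take a factor out of each row); `det_identity` for
`(wr A B).map (expand P)`, `x = (expand P X_j)_j = ξ + s T` (`wr_mulVec`) gives
`X_m(s) * det (..) = ± (wmin A B m)(s) * det [ξ + s T | U]`.  If `det [ξ + s T | U] = s^r δ` with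
`δ ∈ κ[T]`, `δ ≠ 0` (a constant polynomial in `s`), then, comparing trailing degrees,
`mult X_m + 2 Σ mult B_i ≤ r + mult (wmin A B m)`.

`jac_point`: columns `T, s e_i, s e_j`: `det [ξ + s T | T, s e_i, s e_j] = s^2 det [ξ, T, e_i, e_j]`
(subtract `s` times the second column from the first), nonzero for suitable `i, j` as `ξ ≠ 0`:
if `ξ_k ≠ 0` choose `i, j ≠ k` and `l` the remaining index; the determinant is
`± (ξ_k T_l - ξ_l T_k)`.
`jac_curve`: columns `Dξ, T, s e_i`: `det = s det [ξ, Dξ, T, e_i]`, nonzero for some `i` as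
`ξ, Dξ` are linearly independent: a `2 × 2` minor of `[ξ, Dξ]` with rows `k, l` is not zero; take
`i ≠ k, l`; the coefficient of `T_n` (`n` the remaining index) is this minor up to sign.
-/

set_option autoImplicit false

namespace Pool.Agent.CLU

open MvPolynomial

lemma trailingDegree_le_of_dvd {R : Type*} [CommRing R] [IsDomain R] {a b : Polynomial R}
    (h : a ∣ b) : a.trailingDegree ≤ b.trailingDegree := by
  obtain ⟨c, rfl⟩ := h
  rw [Polynomial.trailingDegree_mul]
  exact le_self_add

lemma trailingDegree_X_pow' {R : Type*} [CommRing R] [IsDomain R] (n : ℕ) :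
    (Polynomial.X ^ n : Polynomial R).trailingDegree = n := by
  rw [Polynomial.trailingDegree_eq_natTrailingDegree (pow_ne_zero _ Polynomial.X_ne_zero)]
  simp

/-- The abstract version of `key`. -/
lemma key_abs {R : Type*} [CommRing R] [IsDomain R] (φ : S →+* Polynomial R)
    (U : Matrix (Fin 4) (Fin 3) (Polynomial R)) (r : ℕ) (δ : R) (hδ : δ ≠ 0)
    (hdet : (colCons (fun j => φ (X j)) U).det = Polynomial.X ^ r * Polynomial.C δ)
    (A B : Fin 3 → S) (d : Fin 3 → ℕ) (hA : ∀ i, (A i).IsHomogeneous (d i))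
    (hB : ∀ i, (B i).IsHomogeneous (d i)) (b : Fin 3 → ℕ)
    (hent : ∀ i c, (Polynomial.X ^ (2 * b i) : Polynomial R) ∣
      φ (B i) * (∑ j, φ (pderiv j (A i)) * U j c) - φ (A i) * (∑ j, φ (pderiv j (B i)) * U j c))
    (m : Fin 4) :
    (φ (X m)).trailingDegree + ((2 * (b 0 + b 1 + b 2) : ℕ) : ℕ∞) ≤
      (φ (wmin A B m)).trailingDegree + r := by
  set G : Matrix (Fin 3) (Fin 4) (Polynomial R) := (wr A B).map φ with hG
  have hGx : G.mulVec (fun j => φ (X j)) = 0 := by
    funext i
    have h1 := congrArg φ (congrFun (wr_mulVec A B d hA hB) i)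
    simp only [Matrix.mulVec, dotProduct, map_sum, map_mul, Pi.zero_apply, map_zero] at h1
    simpa [Matrix.mulVec, dotProduct, hG] using h1
  have hGent : ∀ i j, G i j = φ (B i) * φ (pderiv j (A i)) - φ (A i) * φ (pderiv j (B i)) := by
    intro i j
    rw [hG, Matrix.map_apply, wr, Matrix.of_apply, map_sub, map_mul, map_mul]
  have hent : ∀ i c, (Polynomial.X ^ (2 * b i) : Polynomial R) ∣ (G * U) i c := by
    intro i c
    have h2 : (G * U) i c = φ (B i) * (∑ j, φ (pderiv j (A i)) * U j c) -
        φ (A i) * (∑ j, φ (pderiv j (B i)) * U j c) := by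
      rw [Matrix.mul_apply, Finset.mul_sum, Finset.mul_sum, ← Finset.sum_sub_distrib]
      refine Finset.sum_congr rfl fun j _ => ?_
      rw [hGent]
      ring
    rw [h2]
    exact hent i c
  choose Q hQ using hent
  have hdetGU : (G * U).det = (∏ i, (Polynomial.X ^ (2 * b i) : Polynomial R)) *
      (Matrix.of Q).det := by
    rw [← Matrix.det_mul_column]
    congr 1
    ext i c
    simp [hQ]
  have hmin : (G.submatrix id m.succAbove).det = φ (wmin A B m) := by
    rw [wmin, hG, Matrix.submatrix_map]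
    exact (RingHom.map_det φ _).symm
  have hid := det_identity G (fun j => φ (X j)) U hGx m
  rw [hdetGU, hmin, hdet] at hid
  have hdvd : (φ (X m) * ∏ i, (Polynomial.X ^ (2 * b i) : Polynomial R)) ∣
      φ (wmin A B m) * (Polynomial.X ^ r * Polynomial.C δ) := by
    have hu : IsUnit ((-1 : Polynomial R) ^ (m : ℕ)) := (isUnit_one.neg).pow _
    have h3 : (φ (X m) * ∏ i, (Polynomial.X ^ (2 * b i) : Polynomial R)) ∣
        (-1 : Polynomial R) ^ (m : ℕ) *
          (φ (wmin A B m) * (Polynomial.X ^ r * Polynomial.C δ)) := by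
      refine ⟨(Matrix.of Q).det, ?_⟩
      linear_combination -hid
    exact (hu.dvd_mul_left).1 h3
  have hle := trailingDegree_le_of_dvd hdvd
  have hprod : (∏ i, (Polynomial.X ^ (2 * b i) : Polynomial R)) =
      Polynomial.X ^ (2 * (b 0 + b 1 + b 2)) := by
    rw [Fin.prod_univ_three, ← pow_add, ← pow_add]
    congr 1
    ring
  have hCδ : (Polynomial.C δ : Polynomial R).trailingDegree = 0 := Polynomial.trailingDegree_C hδ
  rw [hprod, Polynomial.trailingDegree_mul, Polynomial.trailingDegree_mul,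
    Polynomial.trailingDegree_mul, trailingDegree_X_pow', trailingDegree_X_pow', hCδ,
    add_zero] at hle
  exact hle

theorem key (P : Ideal S) [P.IsPrime] (U : Matrix (Fin 4) (Fin 3) (Rg P))
    (hU : ∀ c, Good P (fun j => U j c)) (r : ℕ) (δ : MvPolynomial (Fin 4) (Kap P)) (hδ : δ ≠ 0)
    (hdet : (colCons (fun j => expand P (X j)) U).det = Polynomial.X ^ r * Polynomial.C δ)
    (A B : Fin 3 → S) (d : Fin 3 → ℕ) (hA : ∀ i, (A i).IsHomogeneous (d i))
    (hB : ∀ i, (B i).IsHomogeneous (d i)) (hB0 : ∀ i, B i ≠ 0)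
    (hAB : ∀ i, mult P (B i) ≤ mult P (A i)) (m : Fin 4) :
    mult P (X m * (B 0 * B 1 * B 2) ^ 2) ≤ r + mult P (wmin A B m) := by
  have hbm : ∀ i, mult P (B i) = ((mult P (B i)).toNat : ℕ∞) := fun i =>
    (ENat.natCast_toNat (mult_ne_top P (B i) (hB0 i))).symm
  have h := key_abs (expand P : S →+* Rg P) U r δ hδ hdet A B d hA hB
    (fun i => (mult P (B i)).toNat) (fun i c => hU c (A i) (B i) (hB0 i) (hAB i)) m
  have e1 : mult P (X m * (B 0 * B 1 * B 2) ^ 2) = mult P (X m) +
      ((2 * ((mult P (B 0)).toNat + (mult P (B 1)).toNat + (mult P (B 2)).toNat) : ℕ) : ℕ∞) := by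
    rw [mult_mul, pow_two, mult_mul, mult_mul, mult_mul, hbm 0, hbm 1, hbm 2]
    simp only [ENat.toNat_natCast]
    congr 1
    push_cast
    ring
  rw [e1, add_comm (r : ℕ∞)]
  exact h

lemma det4 {R : Type*} [CommRing R] (x a b c : Fin 4 → R) :
    (colCons x (Matrix.of fun j k => ![a j, b j, c j] k)).det =
      x 0 * (a 1 * (b 2 * c 3 - b 3 * c 2) - a 2 * (b 1 * c 3 - b 3 * c 1)
        + a 3 * (b 1 * c 2 - b 2 * c 1))
      - x 1 * (a 0 * (b 2 * c 3 - b 3 * c 2) - a 2 * (b 0 * c 3 - b 3 * c 0)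
        + a 3 * (b 0 * c 2 - b 2 * c 0))
      + x 2 * (a 0 * (b 1 * c 3 - b 3 * c 1) - a 1 * (b 0 * c 3 - b 3 * c 0)
        + a 3 * (b 0 * c 1 - b 1 * c 0))
      - x 3 * (a 0 * (b 1 * c 2 - b 2 * c 1) - a 1 * (b 0 * c 2 - b 2 * c 0)
        + a 2 * (b 0 * c 1 - b 1 * c 0)) := by
  rw [Matrix.det_succ_column_zero]
  simp only [Fin.sum_univ_four, Matrix.det_fin_three, Matrix.submatrix_apply, colCons,
    Matrix.of_apply, Fin.cons_zero, Fin.cons_succ]
  simp [Fin.succAbove]
  ring

/-- `det [ξ + s T | T, s e_2, s e_3]`. -/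
lemma det_point1 {R : Type*} [CommRing R] (ξ T : Fin 4 → R) :
    (colCons (fun j => Polynomial.C (ξ j) + Polynomial.X * Polynomial.C (T j))
      (Matrix.of fun j k => ![Polynomial.C (T j), if j = 2 then Polynomial.X else 0,
        if j = 3 then Polynomial.X else 0] k)).det =
      Polynomial.X ^ 2 * Polynomial.C (ξ 0 * T 1 - ξ 1 * T 0) := by
  rw [det4]
  simp only [map_sub, map_mul]
  simp
  ring

/-- `det [ξ + s T | T, s e_0, s e_1]`. -/
lemma det_point2 {R : Type*} [CommRing R] (ξ T : Fin 4 → R) :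
    (colCons (fun j => Polynomial.C (ξ j) + Polynomial.X * Polynomial.C (T j))
      (Matrix.of fun j k => ![Polynomial.C (T j), if j = 0 then Polynomial.X else 0,
        if j = 1 then Polynomial.X else 0] k)).det =
      Polynomial.X ^ 2 * Polynomial.C (ξ 2 * T 3 - ξ 3 * T 2) := by
  rw [det4]
  simp only [map_sub, map_mul]
  simp
  ring

/-- `det [ξ + s T | η, T, s e_a]`. -/
lemma det_curve {R : Type*} [CommRing R] (ξ η T : Fin 4 → R) (a : Fin 4) :
    (colCons (fun j => Polynomial.C (ξ j) + Polynomial.X * Polynomial.C (T j))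
      (Matrix.of fun j k => ![Polynomial.C (η j), Polynomial.C (T j),
        if j = a then Polynomial.X else 0] k)).det =
      Polynomial.X ^ 1 * Polynomial.C (colCons ξ (Matrix.of fun j k => ![η j, T j,
        if j = a then 1 else 0] k)).det := by
  rw [det4, det4]
  simp only [map_sub, map_mul, map_add]
  fin_cases a <;> simp <;> ring

lemma gen_ne_zero (P : Ideal S) [P.IsPrime] (j : Fin 4) (hj : X j ∉ P) : gen P j ≠ 0 := by
  intro h
  apply hj
  rw [gen] at h
  have h1 := (IsFractionRing.injective (S ⧸ P) (Kap P)) (h.trans (map_zero _).symm)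
  exact Ideal.Quotient.eq_zero_iff_mem.1 h1

lemma expand_X (P : Ideal S) (j : Fin 4) :
    expand P (X j) = Polynomial.C (C (gen P j)) + Polynomial.X * Polynomial.C (X j) := by
  rw [expand, aeval_X]

lemma two_var_ne_zero {K : Type*} [Field K] (a b : K) (k l : Fin 4) (hkl : k ≠ l)
    (h : a ≠ 0 ∨ b ≠ 0) :
    (C a * X k - C b * X l : MvPolynomial (Fin 4) K) ≠ 0 := by
  intro h0
  rcases h with h | h
  · apply h
    have := congrArg (eval (Pi.single k 1)) h0
    simpa [hkl.symm, Pi.single_apply] using this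
  · apply h
    have := congrArg (eval (Pi.single l 1)) h0
    simpa [hkl, Pi.single_apply] using this

theorem jac_point (P : Ideal S) [P.IsPrime] (hP : ∃ j, X j ∉ P) (A B : Fin 3 → S)
    (d : Fin 3 → ℕ) (hA : ∀ i, (A i).IsHomogeneous (d i)) (hB : ∀ i, (B i).IsHomogeneous (d i))
    (hB0 : ∀ i, B i ≠ 0) (hAB : ∀ i, mult P (B i) ≤ mult P (A i)) (m : Fin 4) :
    mult P (X m * (B 0 * B 1 * B 2) ^ 2) ≤ 2 + mult P (wmin A B m) := by
  obtain ⟨j, hj⟩ := hP
  have hg := gen_ne_zero P j hj
  have hx : (fun j => expand P (X j)) = fun j => Polynomial.C (C (gen P j) : MvPolynomial (Fin 4) (Kap P)) +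
      Polynomial.X * Polynomial.C (X j) := by
    funext j; exact expand_X P j
  by_cases h01 : gen P 0 ≠ 0 ∨ gen P 1 ≠ 0
  · have hd := det_point1 (fun j => (C (gen P j) : MvPolynomial (Fin 4) (Kap P))) X
    refine key P (Matrix.of fun j k => ![Polynomial.C (X j), if j = 2 then Polynomial.X else 0,
        if j = 3 then Polynomial.X else 0] k) ?_ 2 _
        (two_var_ne_zero (gen P 0) (gen P 1) 1 0 (by decide) h01) ?_ A B d hA hB hB0 hAB m
    · intro c
      fin_cases c
      · exact good_T P
      · exact good_E P 2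
      · exact good_E P 3
    · rw [hx]; exact hd
  · push Not at h01
    have h23 : gen P 2 ≠ 0 ∨ gen P 3 ≠ 0 := by
      fin_cases j
      · exact absurd h01.1 hg
      · exact absurd h01.2 hg
      · exact Or.inl hg
      · exact Or.inr hg
    have hd := det_point2 (fun j => (C (gen P j) : MvPolynomial (Fin 4) (Kap P))) X
    refine key P (Matrix.of fun j k => ![Polynomial.C (X j), if j = 0 then Polynomial.X else 0,
        if j = 1 then Polynomial.X else 0] k) ?_ 2 _
        (two_var_ne_zero (gen P 2) (gen P 3) 3 2 (by decide) h23) ?_ A B d hA hB hB0 hAB m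
    · intro c
      fin_cases c
      · exact good_T P
      · exact good_E P 0
      · exact good_E P 1
    · rw [hx]; exact hd

/-- Some determinant `[ξ, η, T, e_a]` is not zero. -/
lemma exists_det_ne_zero {K : Type*} [Field K] (ξ η : Fin 4 → K)
    (h : LinearIndependent K ![ξ, η]) : ∃ a : Fin 4,
      (colCons (fun j => (C (ξ j) : MvPolynomial (Fin 4) K)) (Matrix.of fun j k =>
        ![C (η j), X j, if j = a then 1 else 0] k)).det ≠ 0 := by
  by_contra hcon
  push Not at hcon
  have hm : ∀ k l : Fin 4, ξ k * η l = ξ l * η k := by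
    have e : ∀ (a n : Fin 4), eval (Pi.single n 1 : Fin 4 → K)
      (colCons (fun j => (C (ξ j) : MvPolynomial (Fin 4) K)) (Matrix.of fun j k =>
        ![C (η j), X j, if j = a then 1 else 0] k)).det = 0 := by
      intro a n
      rw [hcon a, map_zero]
    have e01 := e 3 2
    have e02 := e 3 1
    have e12 := e 3 0
    have e03 := e 2 1
    have e13 := e 2 0
    have e23 := e 1 0
    rw [det4] at e01 e02 e12 e03 e13 e23
    simp at e01 e02 e12 e03 e13 e23
    intro k l
    fin_cases k <;> fin_cases l <;> simp <;> first | linear_combination e01 | linear_combination -e01 | linear_combination e02 | linear_combination -e02 | linear_combination e12 | linear_combination -e12 | linear_combination e03 | linear_combination -e03 | linear_combination e13 | linear_combination -e13 | linear_combination e23 | linear_combination -e23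
  obtain ⟨k, hk⟩ : ∃ k, ξ k ≠ 0 := by
    by_contra h0
    push Not at h0
    exact h.ne_zero 0 (funext h0)
  have := (LinearIndependent.pair_iff.1 h) (η k) (-(ξ k)) (by
    funext l
    simp only [Pi.add_apply, Pi.smul_apply, smul_eq_mul, Pi.zero_apply]
    linear_combination -(hm k l))
  exact hk (neg_eq_zero.1 this.2)

theorem jac_curve (P : Ideal S) [P.IsPrime] (D : Derivation ℂ (Kap P) (Kap P))
    (hD : LinearIndependent (Kap P) ![gen P, fun j => D (gen P j)]) (A B : Fin 3 → S)
    (d : Fin 3 → ℕ) (hA : ∀ i, (A i).IsHomogeneous (d i)) (hB : ∀ i, (B i).IsHomogeneous (d i))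
    (hB0 : ∀ i, B i ≠ 0) (hAB : ∀ i, mult P (B i) ≤ mult P (A i)) (m : Fin 4) :
    mult P (X m * (B 0 * B 1 * B 2) ^ 2) ≤ 1 + mult P (wmin A B m) := by
  have hx : (fun j => expand P (X j)) = fun j => Polynomial.C (C (gen P j) : MvPolynomial (Fin 4) (Kap P)) +
      Polynomial.X * Polynomial.C (X j) := by
    funext j; exact expand_X P j
  obtain ⟨a, ha⟩ := exists_det_ne_zero (gen P) (fun j => D (gen P j)) hD
  have hd := det_curve (fun j => (C (gen P j) : MvPolynomial (Fin 4) (Kap P)))
    (fun j => C (D (gen P j))) X a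
  refine key P (Matrix.of fun j k => ![Polynomial.C (C (D (gen P j))), Polynomial.C (X j),
        if j = a then Polynomial.X else 0] k) ?_ 1 _ ha ?_ A B d hA hB hB0 hAB m
  · intro c
    fin_cases c
    · exact good_D P D
    · exact good_T P
    · exact good_E P a
  · rw [hx]; exact hd

end Pool.Agent.CLU
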