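import Pool.Agent.CLU.Defs
import Pool.Agent.CLU.Der

/-!
# CLU / Tan: the tangent derivation of a curve

`κ = Kap P` is generated as a field by the `ξ_j = gen P j` and has transcendence degree `2` over
`ℂ` (`trdeg (S / P) = 2`).  Some `ξ_j ≠ 0` (otherwise `κ = ℂ`).  If all the ratios `ξ_i / ξ_j` were
algebraic over `ℂ`, they would be in `ℂ` and `κ = ℂ(ξ_j)` would have transcendence degree `≤ 1`.  So
some `u = ξ_i / ξ_j` is transcendental and `exists_ne_zero` gives `D` with `D u ≠ 0`; then
`ξ, Dξ` are linearly independent (if `a ξ + b Dξ = 0` with `b ≠ 0` then `Dξ = c ξ`, `D u = 0`).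
-/

set_option autoImplicit false

namespace Pool.Agent.CLU

open MvPolynomial

private theorem const_of_alg {K : Type*} [Field K] [Algebra ℂ K] (c : K) (hc : IsAlgebraic ℂ c) :
    ∃ z : ℂ, c = algebraMap ℂ K z := by
  have h1 : IsIntegral ℂ c := hc.isIntegral
  have h2 : (minpoly ℂ c).degree = 1 :=
    IsAlgClosed.degree_eq_one_of_irreducible ℂ (minpoly.irreducible h1)
  obtain ⟨z, hz⟩ := minpoly.mem_range_of_degree_eq_one ℂ c h2
  exact ⟨z, hz.symm⟩

/-- An element killed by all derivations is a constant. -/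
theorem const_of_killed (P : Ideal S) [P.IsPrime] (c : Kap P)
    (hc : ∀ D : Derivation ℂ (Kap P) (Kap P), D c = 0) : ∃ z : ℂ, c = algebraMap ℂ (Kap P) z := by
  by_cases h : Transcendental ℂ c
  · obtain ⟨D, hD⟩ := exists_ne_zero (k := ℂ) c h
    exact absurd (hc D) hD
  · have h1 : IsAlgebraic ℂ c := by
      by_contra h2
      exact h h2
    exact const_of_alg c h1

/-- if all coordinates are multiples of one element then the transcendence degree is at most
one. -/
private theorem not_mult (P : Ideal S) [P.IsPrime] (hP : Algebra.trdeg ℂ (S ⧸ P) = 2)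
    (x : S ⧸ P) (c : Fin 4 → ℂ) (hx : ∀ i, Ideal.Quotient.mk P (X i) = algebraMap ℂ (S ⧸ P) (c i) * x) : False := by
  let φ : Polynomial ℂ →ₐ[ℂ] (S ⧸ P) := Polynomial.aeval x
  let ψ : S →ₐ[ℂ] Polynomial ℂ := aeval (fun i => Polynomial.C (c i) * Polynomial.X)
  have h1 : φ.comp ψ = Ideal.Quotient.mkₐ ℂ P := by
    apply MvPolynomial.algHom_ext
    intro i
    simp only [φ, ψ, AlgHom.comp_apply, aeval_X, map_mul, Polynomial.aeval_X, Polynomial.aeval_C]
    exact (hx i).symm
  have h2 : Function.Surjective φ := by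
    intro y
    obtain ⟨f, rfl⟩ := Ideal.Quotient.mk_surjective y
    refine ⟨ψ f, ?_⟩
    have := DFunLike.congr_fun h1 f
    simpa using this
  have h3 := trdeg_le_of_surjective φ h2
  rw [hP, Polynomial.trdeg_of_isDomain] at h3
  exact absurd h3 (by norm_num)

theorem exists_tangent (P : Ideal S) [P.IsPrime] (hP : Algebra.trdeg ℂ (S ⧸ P) = 2) :
    ∃ D : Derivation ℂ (Kap P) (Kap P),
      LinearIndependent (Kap P) ![gen P, fun j => D (gen P j)] := by
  have hinj : Function.Injective (algebraMap (S ⧸ P) (Kap P)) :=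
    IsFractionRing.injective (S ⧸ P) (Kap P)
  have key : ∃ i j : Fin 4, gen P j ≠ 0 ∧ Transcendental ℂ (gen P i / gen P j) := by
    by_contra hcon
    push Not at hcon
    by_cases h0 : ∃ j, gen P j ≠ 0
    · obtain ⟨j, hj⟩ := h0
      have h1 : ∀ i, ∃ z : ℂ, gen P i / gen P j = algebraMap ℂ (Kap P) z := by
        intro i
        apply const_of_alg
        by_contra h2
        exact hcon i j hj h2
      choose c hc using h1
      refine not_mult P hP (Ideal.Quotient.mk P (X j)) c ?_
      intro i
      apply hinj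
      have h2 : gen P i = algebraMap ℂ (Kap P) (c i) * gen P j := by
        rw [← hc i, div_mul_cancel₀ _ hj]
      rw [map_mul, ← IsScalarTower.algebraMap_apply ℂ (S ⧸ P) (Kap P)]
      exact h2
    · push Not at h0
      refine not_mult P hP 0 (fun _ => 0) ?_
      intro i
      apply hinj
      rw [mul_zero, map_zero]
      exact h0 i
  obtain ⟨i, j, hj, hu⟩ := key
  obtain ⟨D, hD⟩ := exists_ne_zero (k := ℂ) (gen P i / gen P j) hu
  refine ⟨D, ?_⟩
  have hne : D (gen P i) * gen P j - gen P i * D (gen P j) ≠ 0 := by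
    intro h
    apply hD
    have h1 : gen P i = (gen P i / gen P j) * gen P j := by rw [div_mul_cancel₀ _ hj]
    have h2 : D (gen P i) = D ((gen P i / gen P j) * gen P j) := by rw [← h1]
    rw [Derivation.leibniz, smul_eq_mul, smul_eq_mul] at h2
    have h3 : gen P j * gen P j * D (gen P i / gen P j) = 0 := by
      have : gen P j * (gen P i / gen P j) = gen P i := by field_simp
      rw [h2] at h
      linear_combination h - D (gen P j) * this
    rcases mul_eq_zero.1 h3 with h4 | h4
    · exact absurd h4 (mul_ne_zero hj hj)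
    · exact h4
  rw [LinearIndependent.pair_iff]
  intro s t hst
  have hi := congrFun hst i
  have hj' := congrFun hst j
  simp only [Pi.add_apply, Pi.smul_apply, smul_eq_mul, Pi.zero_apply] at hi hj'
  have ht : t * (D (gen P i) * gen P j - gen P i * D (gen P j)) = 0 := by
    linear_combination gen P j * hi - gen P i * hj'
  have ht0 : t = 0 := by
    rcases mul_eq_zero.1 ht with h | h
    · exact h
    · exact absurd h hne
  refine ⟨?_, ht0⟩
  rw [ht0, zero_mul, add_zero] at hj'
  rcases mul_eq_zero.1 hj' with h | h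
  · exact h
  · exact absurd h hj

end Pool.Agent.CLU
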