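import Pool.Agent.CLU.Chart
import Pool.Agent.CLU.Jac
import Pool.Agent.CLU.Tan

/-!
# CLU / Crit: the criterion

Take `t, θ, c` from `chart`.  The last condition of `IsClusterType` is the last part of `chart`.
Regularity of `det (θ_j a_i) = ± c B wmin_m / (X_m (B_0 B_1 B_2)^2)` (both forms of degree
`1 + 2 (d_0 + d_1 + d_2)`, `wmin_homog`):
* `O = surfRing G`: choose `m` with `G ∤ X_m` (`G` cannot divide both `X_0` and `X_1`); `G` is prime
  and `G ∤ B_i`.
* `O = excRing P`, `P` a curve: `exists_tangent`, `jac_curve`, `one_le_mult` for `B`, `mult_mul`.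
* `O = excRing (pointIdeal p)`: `jac_point`.
-/

set_option autoImplicit false

namespace Pool.Agent.CLU

open MvPolynomial

/-- An irreducible polynomial does not divide both `X 0` and `X 1`. -/
theorem crit_exists_m (G : S) (hG : Irreducible G) : ∃ m : Fin 4, ¬ G ∣ X m := by
  by_contra hn
  push Not at hn
  have h0 := hn 0
  have h1 := hn 1
  have hX0 : Irreducible (X 0 : S) := (MvPolynomial.X_prime (i := (0 : Fin 4))).irreducible
  obtain ⟨u, hu⟩ := h0
  have hu' : IsUnit u := (hX0.isUnit_or_isUnit hu).resolve_left hG.not_isUnit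
  have h2 : (X 0 : S) ∣ X 1 := by
    obtain ⟨v, hv⟩ := h1
    obtain ⟨w, hw⟩ := hu'.exists_right_inv
    refine ⟨w * v, ?_⟩
    rw [hv, hu]
    calc G * v = G * (u * w) * v := by rw [hw, mul_one]
      _ = G * u * (w * v) := by ring
  obtain ⟨q, hq⟩ := h2
  have h3 := congrArg (eval (fun i : Fin 4 => if i = 0 then (0 : ℂ) else 1)) hq
  simp at h3

/-- The determinant as a quotient of forms of the same degree. -/
theorem crit_form (B : S) (hB : NodalQuartic B) (c : ℂ) (D : K3) (A Bd : Fin 3 → S)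
    (d : Fin 3 → ℕ) (hA : ∀ i, (A i).IsHomogeneous (d i)) (hBd : ∀ i, (Bd i).IsHomogeneous (d i))
    (hBd0 : ∀ i, Bd i ≠ 0) (m : Fin 4)
    (h : (D : L) * algebraMap S L (X m * (Bd 0 * Bd 1 * Bd 2) ^ 2) =
      algebraMap ℂ L (c * (-1) ^ (m : ℕ)) * algebraMap S L (B * wmin A Bd m)) :
    (C (c * (-1) ^ (m : ℕ)) * (B * wmin A Bd m)).IsHomogeneous (1 + 2 * (d 0 + d 1 + d 2)) ∧
    (X m * (Bd 0 * Bd 1 * Bd 2) ^ 2).IsHomogeneous (1 + 2 * (d 0 + d 1 + d 2)) ∧
    (X m * (Bd 0 * Bd 1 * Bd 2) ^ 2) ≠ 0 ∧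
    (D : L) = algebraMap S L (C (c * (-1) ^ (m : ℕ)) * (B * wmin A Bd m)) /
      algebraMap S L (X m * (Bd 0 * Bd 1 * Bd 2) ^ 2) := by
  have h1 : (X m * (Bd 0 * Bd 1 * Bd 2) ^ 2 : S) ≠ 0 :=
    mul_ne_zero (MvPolynomial.X_ne_zero m)
      (pow_ne_zero 2 (mul_ne_zero (mul_ne_zero (hBd0 0) (hBd0 1)) (hBd0 2)))
  refine ⟨?_, ?_, h1, ?_⟩
  · have h2 := (isHomogeneous_C (Fin 4) (c * (-1) ^ (m : ℕ))).mul
      (wmin_homog A Bd d hA hBd m B (nodal_homog B hB))
    rwa [zero_add] at h2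
  · have h2 := (isHomogeneous_X ℂ m).mul ((((hBd 0).mul (hBd 1)).mul (hBd 2)).pow 2)
    convert h2 using 1
    ring
  · rw [eq_div_iff, h, map_mul (algebraMap S L) (C _) _]
    · congr 1
    · simpa using h1

theorem criterion (B : S) (hB : NodalQuartic B) (Z : Set (Ideal S))
    (hZ : ∀ P ∈ Z, (IsCurve P ∧ B ∈ P) ∨
      ∃ p : Fin 4 → ℂ, p ≠ 0 ∧ P = pointIdeal p ∧ 2 ≤ mult P B) :
    IsClusterType (divisors Z) := by
  obtain ⟨t, θ, c, hc, ht, hθ, hgen, hdet, htor⟩ := chart B hB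
  refine ⟨t, θ, ht, hθ, hgen, ?_, ?_⟩
  · rintro O (⟨e, G, hG, hGh, rfl⟩ | ⟨P, hP, rfl⟩) a ha
    · choose d A Bd hA hBd hGB hq using ha
      have hBd0 : ∀ i, Bd i ≠ 0 := by
        intro i h0
        apply hGB i
        rw [h0]
        exact dvd_zero G
      obtain ⟨m, hm⟩ := crit_exists_m G hG
      obtain ⟨f1, f2, f3, f4⟩ := crit_form B hB c _ A Bd d hA hBd hBd0 m
        (hdet a A Bd d hA hBd hBd0 hq m)
      refine ⟨_, _, _, f1, f2, ?_, f4⟩
      have hp := hG.prime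
      intro hdvd
      rcases hp.dvd_or_dvd hdvd with h | h
      · exact hm h
      · have h' := hp.dvd_of_dvd_pow h
        rcases hp.dvd_or_dvd h' with h | h
        · rcases hp.dvd_or_dvd h with h | h
          · exact hGB 0 h
          · exact hGB 1 h
        · exact hGB 2 h
    · choose d A Bd hA hBd hBd0 hmul hq using ha
      obtain ⟨f1, f2, f3, f4⟩ := crit_form B hB c _ A Bd d hA hBd hBd0 0
        (hdet a A Bd d hA hBd hBd0 hq 0)
      refine ⟨_, _, _, f1, f2, f3, ?_, f4⟩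
      have hc' : c * (-1) ^ ((0 : Fin 4) : ℕ) ≠ 0 := by simpa using hc
      rcases hZ P hP with ⟨hcur, hBP⟩ | ⟨p, hp0, rfl, h2⟩
      · have : P.IsPrime := hcur.1
        obtain ⟨D, hD⟩ := exists_tangent P hcur.2.2
        have h3 := jac_curve P D hD A Bd d hA hBd hBd0 hmul 0
        rw [mult_mul P (C _) _, mult_C P _ hc', zero_add, mult_mul P B _]
        exact h3.trans (add_le_add (one_le_mult P B hBP) le_rfl)
      · have : (pointIdeal p).IsPrime := pointIdeal_prime p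
        have hj : ∃ j, X j ∉ pointIdeal p := by
          obtain ⟨j, hj⟩ := Function.ne_iff.mp hp0
          exact ⟨j, X_notMem_pointIdeal p j hj⟩
        have h3 := jac_point (pointIdeal p) hj A Bd d hA hBd hBd0 hmul 0
        rw [mult_mul (pointIdeal p) (C _) _, mult_C (pointIdeal p) _ hc', zero_add,
          mult_mul (pointIdeal p) B _]
        exact h3.trans (add_le_add h2 le_rfl)
  · intro q hq hqX
    obtain ⟨d, G, hG, hGh, hset⟩ := htor q hq hqX
    exact Or.inl ⟨d, G, hG, hGh, hset⟩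

end Pool.Agent.CLU
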