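import Pool.Agent.CLU.Coord

/-!
# CLU / Cubic: cubics with a double point of rank at least two

`b(u, v) = Σ_{ij} u_i v_j (∂_i ∂_j F)(p)` is a symmetric bilinear form on `ℂ^4` with `p` in its
radical (`Σ_j p_j (∂_i ∂_j F)(p) = 2 (∂_i F)(p) = 0`), and of rank `≥ 2`.  So there are
`vX, vY` with `b(vX, vX) = b(vY, vY) = 0`, `b(vX, vY) = 1`, and `vW` with `b(vX, vW) = b(vY, vW) = 0`
such that `vX, vY, p, vW` is a basis (`{vX, vY}^⊥` has dimension two, meets `⟨vX, vY⟩` in `0` and
contains `p`).  Let `c = b(vW, vW) / 2` and `x, y, z, w ∈ S` the linear forms of the dual basis: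
`v = x(v) vX + y(v) vY + z(v) p + w(v) vW`.  Taylor's formula for the cubic form `F` at
`z p + u`, `u = x vX + y vY + w vW`:
`F(z p + u) = z^3 F(p) + z^2 Σ u_i (∂_i F)(p) + z b(u, u) / 2 + F(u) = z (x y + c w^2) + F(u)`.
`F(u) = f3(x, y, w)` is a cubic form in `x, y, w`.  So
`w F = z (w x y + c w^3) + w f3(x, y, w)`.  In the normal form of `NodalQuartic` take
`l_0 = w`, `l_1 = y`, `l_2 = z`, `l_3 = x`: `l_2 (l_3 l_0 l_1 + g(l_0, l_1)) + h(l_0, l_1, l_3)` with
`g(s, t) = c s^3`, `h(s, t, r) = s f3(r, t, s)`.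
-/

set_option autoImplicit false

namespace Pool.Agent.CLU

open MvPolynomial

private lemma pd_comm (i j : Fin 4) (F : S) : pderiv i (pderiv j F) = pderiv j (pderiv i F) := by
  classical
  ext m
  rw [coeff_pderiv, coeff_pderiv, coeff_pderiv, coeff_pderiv, add_right_comm]
  rcases eq_or_ne i j with h | h
  · rw [h]
  · simp only [Finsupp.add_apply, Finsupp.single_apply]
    rw [if_neg h, if_neg h.symm]
    push_cast
    ring

/-- third partial derivatives of a cubic form -/
private noncomputable def T3 (F : S) (i j k : Fin 4) : ℂ :=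
  coeff 0 (pderiv i (pderiv j (pderiv k F)))

private lemma T3_eq {F : S} (hF : F.IsHomogeneous 3) (i j k : Fin 4) :
    pderiv i (pderiv j (pderiv k F)) = C (T3 F i j k) := by
  have h1 : (pderiv i (pderiv j (pderiv k F))).IsHomogeneous 0 := ((hF.pderiv).pderiv).pderiv
  rw [← totalDegree_zero_iff_isHomogeneous, totalDegree_eq_zero_iff_eq_C] at h1
  exact h1

private lemma T3_comm1 (F : S) (i j k : Fin 4) : T3 F i j k = T3 F j i k := by
  unfold T3; rw [pd_comm i j]

private lemma T3_comm2 (F : S) (i j k : Fin 4) : T3 F i j k = T3 F i k j := by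
  unfold T3; rw [pd_comm j k]

/-- the trilinear form over `S` -/
private noncomputable def tau (F : S) (R : Type*) [CommRing R] [Algebra ℂ R]
    (u v w : Fin 4 → R) : R :=
  ∑ i, ∑ j, ∑ k, u i * v j * w k * algebraMap ℂ R (T3 F i j k)

section tau

variable (F : S) {R : Type*} [CommRing R] [Algebra ℂ R] (u u' v w : Fin 4 → R)

private lemma tau_comm1 : tau F R u v w = tau F R v u w := by
  unfold tau
  rw [Finset.sum_comm]
  refine Finset.sum_congr rfl fun i _ => Finset.sum_congr rfl fun j _ =>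
    Finset.sum_congr rfl fun k _ => ?_
  rw [T3_comm1]; ring

private lemma tau_comm2 : tau F R u v w = tau F R u w v := by
  unfold tau
  refine Finset.sum_congr rfl fun i _ => ?_
  rw [Finset.sum_comm]
  refine Finset.sum_congr rfl fun j _ => Finset.sum_congr rfl fun k _ => ?_
  rw [T3_comm2]; ring

private lemma tau_add : tau F R (fun i => u i + u' i) v w = tau F R u v w + tau F R u' v w := by
  unfold tau
  simp only [← Finset.sum_add_distrib]
  refine Finset.sum_congr rfl fun i _ => Finset.sum_congr rfl fun j _ =>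
    Finset.sum_congr rfl fun k _ => ?_
  ring

private lemma tau_smul (a : R) : tau F R (fun i => a * u i) v w = a * tau F R u v w := by
  unfold tau
  simp only [Finset.mul_sum]
  refine Finset.sum_congr rfl fun i _ => Finset.sum_congr rfl fun j _ =>
    Finset.sum_congr rfl fun k _ => ?_
  ring

private lemma tau_expand (a : R) (p : Fin 4 → R) :
    tau F R (fun i => a * p i + u i) (fun i => a * p i + u i) (fun i => a * p i + u i)
      = a ^ 3 * tau F R p p p + 3 * a ^ 2 * tau F R p p u + 3 * a * tau F R p u u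
        + tau F R u u u := by
  have h1 : ∀ v w, tau F R (fun i => a * p i + u i) v w = a * tau F R p v w + tau F R u v w := by
    intro v w
    rw [← tau_smul]
    exact tau_add F (fun i => a * p i) u v w
  rw [h1, tau_comm1 F p, tau_comm1 F u, h1, h1, tau_comm2 F p p, tau_comm2 F u p, tau_comm1 F p (fun i => a * p i + u i) p,
    tau_comm1 F u (fun i => a * p i + u i) p, tau_comm2 F p u, tau_comm2 F u u,
    tau_comm1 F p _ u, tau_comm1 F u _ u, h1, h1, h1, h1]
  rw [tau_comm1 F u p p, tau_comm2 F p u p, tau_comm1 F u p u, tau_comm2 F u u p, tau_comm1 F u p u]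
  ring

end tau

private lemma six_F {F : S} (hF : F.IsHomogeneous 3) :
    6 * F = tau F S (fun i => X i) (fun i => X i) (fun i => X i) := by
  have h1 : ∀ k, 2 * pderiv k F = ∑ j, X j * pderiv j (pderiv k F) := by
    intro k
    have := (hF.pderiv (i := k)).sum_X_mul_pderiv
    rw [this]; simp
  have h2 : ∀ j k, pderiv j (pderiv k F) = ∑ i, X i * pderiv i (pderiv j (pderiv k F)) := by
    intro j k
    have := ((hF.pderiv (i := k)).pderiv (i := j)).sum_X_mul_pderiv
    rw [this]; simp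
  have h3 : 3 * F = ∑ k, X k * pderiv k F := by
    rw [hF.sum_X_mul_pderiv]; simp
  have h4 : 6 * F = ∑ k, X k * (2 * pderiv k F) := by
    calc 6 * F = 2 * (3 * F) := by ring
      _ = _ := by
        rw [h3, Finset.mul_sum]
        exact Finset.sum_congr rfl fun k _ => by ring
  have h5 : ∀ i j k, T3 F k j i = T3 F i j k := by
    intro i j k
    rw [T3_comm1, T3_comm2, T3_comm1]
  rw [h4]
  unfold tau
  refine Finset.sum_congr rfl fun k _ => ?_
  rw [h1, Finset.mul_sum]
  refine Finset.sum_congr rfl fun j _ => ?_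
  rw [h2 j k, Finset.mul_sum, Finset.mul_sum]
  refine Finset.sum_congr rfl fun i _ => ?_
  rw [T3_eq hF, h5 i j k, algebraMap_eq]
  ring

private lemma hess {F : S} (hF : F.IsHomogeneous 3) (p : Fin 4 → ℂ) (j k : Fin 4) :
    eval p (pderiv j (pderiv k F)) = ∑ i, p i * T3 F i j k := by
  have := ((hF.pderiv (i := k)).pderiv (i := j)).sum_X_mul_pderiv
  have h2 : pderiv j (pderiv k F) = ∑ i, X i * pderiv i (pderiv j (pderiv k F)) := by
    rw [this]; simp
  rw [h2, map_sum]
  refine Finset.sum_congr rfl fun i _ => ?_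
  rw [T3_eq hF, map_mul, eval_X, eval_C]

private lemma hess_p {F : S} (hF : F.IsHomogeneous 3) (p : Fin 4 → ℂ) (k : Fin 4) :
    ∑ j, p j * eval p (pderiv j (pderiv k F)) = 2 * eval p (pderiv k F) := by
  have := (hF.pderiv (i := k)).sum_X_mul_pderiv
  have h2 := congrArg (eval p) this
  rw [map_sum] at h2
  simp only [map_mul, eval_X] at h2
  rw [h2]
  simp

private lemma tau_P {F : S} (hF : F.IsHomogeneous 3) (p : Fin 4 → ℂ) (v w : Fin 4 → S) :
    tau F S (fun i => C (p i)) v w
      = ∑ j, ∑ k, v j * w k * C (eval p (pderiv j (pderiv k F))) := by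
  unfold tau
  rw [Finset.sum_comm]
  refine Finset.sum_congr rfl fun j _ => ?_
  rw [Finset.sum_comm]
  refine Finset.sum_congr rfl fun k _ => ?_
  rw [hess hF, map_sum, Finset.mul_sum]
  refine Finset.sum_congr rfl fun i _ => ?_
  rw [map_mul, algebraMap_eq]
  ring

private lemma tau_PP {F : S} (hF : F.IsHomogeneous 3) (p : Fin 4 → ℂ)
    (h1 : ∀ j, eval p (pderiv j F) = 0) (w : Fin 4 → S) :
    tau F S (fun i => C (p i)) (fun i => C (p i)) w = 0 := by
  rw [tau_P hF, Finset.sum_comm]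
  refine Finset.sum_eq_zero fun k _ => ?_
  have h := hess_p hF p k
  rw [h1, mul_zero] at h
  have h' : ∑ j, C (p j) * (C (eval p (pderiv j (pderiv k F))) : S) = 0 := by
    simp only [← C_mul, ← map_sum]
    rw [h, C_0]
  calc _ = w k * ∑ j, C (p j) * (C (eval p (pderiv j (pderiv k F))) : S) := by
        rw [Finset.mul_sum]
        exact Finset.sum_congr rfl fun j _ => by ring
    _ = 0 := by rw [h', mul_zero]

section pair

variable {V : Type*} [AddCommGroup V] [Module ℂ V] (B : V →ₗ[ℂ] V →ₗ[ℂ] ℂ)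

private lemma exists_unit (hs : ∀ u v, B u v = B v u) (h0 : ∃ u v, B u v ≠ 0) :
    ∃ u, B u u ≠ 0 := by
  by_contra hc
  push Not at hc
  obtain ⟨u, v, h⟩ := h0
  apply h
  have h1 := hc (u + v)
  simp only [map_add, LinearMap.add_apply, hc] at h1
  rw [hs v u] at h1
  linear_combination h1 / 2

private lemma exists_pair (hs : ∀ u v, B u v = B v u)
    (hr : ∃ a b c d, B a c * B b d - B a d * B b c ≠ 0) :
    ∃ x y, B x x = 0 ∧ B y y = 0 ∧ B x y = 1 := by
  obtain ⟨u, hu⟩ := exists_unit B hs (by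
    by_contra hc
    push Not at hc
    obtain ⟨a, b, c, d, h⟩ := hr
    exact h (by simp [hc]))
  obtain ⟨r, hr1⟩ := IsAlgClosed.exists_eq_mul_self (B u u)
  have hr0 : r ≠ 0 := by
    rintro rfl
    exact hu (by rw [hr1]; ring)
  obtain ⟨u1, h11⟩ : ∃ u1, B u1 u1 = 1 := by
    refine ⟨r⁻¹ • u, ?_⟩
    simp only [map_smul, LinearMap.smul_apply, smul_eq_mul]
    rw [hr1]; field_simp
  obtain ⟨v, hv⟩ := exists_unit (B - (B u1).smulRight (B u1)) (by
      intro u v
      simp only [LinearMap.sub_apply, LinearMap.smulRight_apply, LinearMap.smul_apply, smul_eq_mul]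
      rw [hs u v]; ring) (by
    by_contra hc
    push Not at hc
    simp only [LinearMap.sub_apply, LinearMap.smulRight_apply, LinearMap.smul_apply,
      smul_eq_mul] at hc
    have hc' : ∀ u v, B u v = B u1 u * B u1 v := fun u v => by linear_combination hc u v
    obtain ⟨a, b, c, d, h⟩ := hr
    exact h (by rw [hc' a c, hc' b d, hc' a d, hc' b c]; ring))
  simp only [LinearMap.sub_apply, LinearMap.smulRight_apply, LinearMap.smul_apply,
      smul_eq_mul] at hv
  obtain ⟨s, hs1⟩ := IsAlgClosed.exists_eq_mul_self (B v v - B u1 v * B u1 v)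
  have hs0 : s ≠ 0 := by
    rintro rfl
    exact hv (by rw [hs1]; ring)
  obtain ⟨u2, h22, h12⟩ : ∃ u2, B u2 u2 = 1 ∧ B u1 u2 = 0 := by
    refine ⟨s⁻¹ • (v - B u1 v • u1), ?_, ?_⟩
    · simp only [map_smul, LinearMap.smul_apply, smul_eq_mul, map_sub, LinearMap.sub_apply]
      rw [hs v u1, h11]
      field_simp
      linear_combination hs1
    · simp only [map_smul, smul_eq_mul, map_sub]
      rw [h11]; ring
  refine ⟨u1 + Complex.I • u2, (1 / 2 : ℂ) • (u1 - Complex.I • u2), ?_, ?_, ?_⟩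
  · simp only [map_smul, LinearMap.smul_apply, smul_eq_mul, map_add, LinearMap.add_apply]
    rw [hs u2 u1, h11, h12, h22]
    linear_combination Complex.I_mul_I
  · simp only [map_smul, LinearMap.smul_apply, smul_eq_mul, map_sub, LinearMap.sub_apply]
    rw [hs u2 u1, h11, h12, h22]
    linear_combination Complex.I_mul_I / 4
  · simp only [map_smul, smul_eq_mul, map_sub, map_add, LinearMap.add_apply,
      LinearMap.smul_apply]
    rw [hs u2 u1, h11, h12, h22]
    linear_combination -Complex.I_mul_I / 2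

end pair

private lemma exists_frame (B : (Fin 4 → ℂ) →ₗ[ℂ] (Fin 4 → ℂ) →ₗ[ℂ] ℂ)
    (hs : ∀ u v, B u v = B v u) (hr : ∃ a b c d, B a c * B b d - B a d * B b c ≠ 0)
    (p : Fin 4 → ℂ) (hp0 : p ≠ 0) (hp : ∀ v, B p v = 0) :
    ∃ A : Matrix (Fin 4) (Fin 4) ℂ, IsUnit A ∧ A 2 = p ∧ B (A 1) (A 1) = 0 ∧
      B (A 3) (A 3) = 0 ∧ B (A 1) (A 3) = 1 ∧ B (A 0) (A 1) = 0 ∧ B (A 0) (A 3) = 0 := by
  obtain ⟨x, y, hx, hy, hxy⟩ := exists_pair B hs hr
  obtain ⟨v, hv⟩ : ∃ v, v ∉ Submodule.span ℂ (Set.range ![x, y, p]) := by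
    by_contra hc
    push Not at hc
    have h1 : Submodule.span ℂ (Set.range ![x, y, p]) = ⊤ := by
      rw [Submodule.eq_top_iff']; exact hc
    have h2 := finrank_range_le_card (R := ℂ) ![x, y, p]
    rw [Set.finrank, h1, finrank_top] at h2
    simp at h2
  have hyx : B y x = 1 := by rw [hs]; exact hxy
  have hpx : B x p = 0 := by rw [hs]; exact hp x
  have hpy : B y p = 0 := by rw [hs]; exact hp y
  obtain ⟨w, hw⟩ : ∃ w, w = v - B v y • x - B v x • y := ⟨_, rfl⟩
  have hwx : B w x = 0 := by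
    rw [hw]
    simp only [map_sub, map_smul, LinearMap.sub_apply, LinearMap.smul_apply, smul_eq_mul]
    rw [hx, hyx]; ring
  have hwy : B w y = 0 := by
    rw [hw]
    simp only [map_sub, map_smul, LinearMap.sub_apply, LinearMap.smul_apply, smul_eq_mul]
    rw [hy, hxy]; ring
  refine ⟨Matrix.of ![w, y, p, x], ?_, rfl, hy, hx, hyx, hwy, hwx⟩
  rw [← Matrix.linearIndependent_rows_iff_isUnit, Fintype.linearIndependent_iff]
  intro g hg
  have hg' : g 0 • w + g 1 • y + g 2 • p + g 3 • x = 0 := by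
    rw [Fin.sum_univ_four] at hg
    exact hg
  have hsx : x ∈ Submodule.span ℂ (Set.range ![x, y, p]) := Submodule.subset_span ⟨0, rfl⟩
  have hsy : y ∈ Submodule.span ℂ (Set.range ![x, y, p]) := Submodule.subset_span ⟨1, rfl⟩
  have hsp : p ∈ Submodule.span ℂ (Set.range ![x, y, p]) := Submodule.subset_span ⟨2, rfl⟩
  have h0 : g 0 = 0 := by
    by_contra hne
    apply hv
    have h1 : w = -(g 0)⁻¹ • (g 1 • y + g 2 • p + g 3 • x) := by
      have h2 : g 0 • w = -(g 1 • y + g 2 • p + g 3 • x) := by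
        rw [eq_neg_iff_add_eq_zero, ← hg']; abel
      rw [neg_smul, ← smul_neg, ← h2, smul_smul, inv_mul_cancel₀ hne, one_smul]
    have h3 : w ∈ Submodule.span ℂ (Set.range ![x, y, p]) := by
      rw [h1]
      exact Submodule.smul_mem _ _ (Submodule.add_mem _ (Submodule.add_mem _
        (Submodule.smul_mem _ _ hsy) (Submodule.smul_mem _ _ hsp)) (Submodule.smul_mem _ _ hsx))
    have h4 : v = w + B v y • x + B v x • y := by rw [hw]; abel
    rw [h4]
    exact Submodule.add_mem _ (Submodule.add_mem _ h3 (Submodule.smul_mem _ _ hsx))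
      (Submodule.smul_mem _ _ hsy)
  have h1 : g 1 = 0 := by
    have := congrArg (B · x) hg'
    simp only [map_add, map_smul, LinearMap.add_apply, LinearMap.smul_apply, smul_eq_mul,
      map_zero, LinearMap.zero_apply] at this
    rw [hwx, hyx, hp, hx] at this
    linear_combination this
  have h3 : g 3 = 0 := by
    have := congrArg (B · y) hg'
    simp only [map_add, map_smul, LinearMap.add_apply, LinearMap.smul_apply, smul_eq_mul,
      map_zero, LinearMap.zero_apply] at this
    rw [hwy, hy, hp, hxy] at this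
    linear_combination this
  have h2 : g 2 = 0 := by
    rw [h0, h1, h3, zero_smul, zero_smul, zero_smul, zero_add, zero_add, add_zero,
      smul_eq_zero] at hg'
    exact hg'.resolve_right hp0
  intro i
  fin_cases i <;> assumption

private lemma tau_map (F : S) {R R' : Type*} [CommRing R] [Algebra ℂ R] [CommRing R']
    [Algebra ℂ R'] (φ : R →ₐ[ℂ] R') (u v w : Fin 4 → R) :
    φ (tau F R u v w) = tau F R' (fun i => φ (u i)) (fun i => φ (v i)) (fun i => φ (w i)) := by
  unfold tau
  simp only [map_sum, map_mul, AlgHom.commutes]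

private lemma tau_hom (F : S) (u v w : Fin 4 → MvPolynomial (Fin 3) ℂ)
    (hu : ∀ i, (u i).IsHomogeneous 1) (hv : ∀ i, (v i).IsHomogeneous 1)
    (hw : ∀ i, (w i).IsHomogeneous 1) :
    (tau F (MvPolynomial (Fin 3) ℂ) u v w).IsHomogeneous 3 := by
  unfold tau
  refine IsHomogeneous.sum _ _ _ fun i _ => IsHomogeneous.sum _ _ _ fun j _ =>
    IsHomogeneous.sum _ _ _ fun k _ => ?_
  exact (((hu i).mul (hv j)).mul (hw k)).mul (isHomogeneous_C _ _)

private lemma tau_add2 (F : S) {R : Type*} [CommRing R] [Algebra ℂ R] (u u' v w : Fin 4 → R) :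
    tau F R v (fun i => u i + u' i) w = tau F R v u w + tau F R v u' w := by
  rw [tau_comm1, tau_add, tau_comm1, tau_comm1 F u']

private lemma tau_add3 (F : S) {R : Type*} [CommRing R] [Algebra ℂ R] (u u' v w : Fin 4 → R) :
    tau F R v w (fun i => u i + u' i) = tau F R v w u + tau F R v w u' := by
  rw [tau_comm2, tau_add2, tau_comm2, tau_comm2 F _ u']

private lemma tau_smul2 (F : S) {R : Type*} [CommRing R] [Algebra ℂ R] (a : R)
    (u v w : Fin 4 → R) :
    tau F R v (fun i => a * u i) w = a * tau F R v u w := by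
  rw [tau_comm1, tau_smul, tau_comm1]

private lemma tau_smul3 (F : S) {R : Type*} [CommRing R] [Algebra ℂ R] (a : R)
    (u v w : Fin 4 → R) :
    tau F R v w (fun i => a * u i) = a * tau F R v w u := by
  rw [tau_comm2, tau_smul2, tau_comm2]

theorem nodal_cubic (F : S) (hF : F.IsHomogeneous 3) (p : Fin 4 → ℂ)
    (h1 : ∀ j, eval p (pderiv j F) = 0)
    (h2 : ∃ i j k l, eval p (pderiv i (pderiv k F) * pderiv j (pderiv l F) -
      pderiv i (pderiv l F) * pderiv j (pderiv k F)) ≠ 0) :
    ∃ W : S, W.IsHomogeneous 1 ∧ NodalQuartic (W * F) := by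
  classical
  -- the Hessian form
  obtain ⟨H, hH⟩ : ∃ H : Matrix (Fin 4) (Fin 4) ℂ, H = Matrix.of fun j k =>
    eval p (pderiv j (pderiv k F)) := ⟨_, rfl⟩
  have hHa : ∀ j k, H j k = eval p (pderiv j (pderiv k F)) := fun j k => by rw [hH]; rfl
  obtain ⟨B, hB⟩ : ∃ B : (Fin 4 → ℂ) →ₗ[ℂ] (Fin 4 → ℂ) →ₗ[ℂ] ℂ, ∀ u v, B u v =
      ∑ j, ∑ k, u j * v k * H j k := by
    refine ⟨Matrix.toLinearMap₂' ℂ H, fun u v => ?_⟩
    rw [Matrix.toLinearMap₂'_apply]
    refine Finset.sum_congr rfl fun j _ => Finset.sum_congr rfl fun k _ => ?_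
    simp only [smul_eq_mul]; ring
  have hs : ∀ u v, B u v = B v u := by
    intro u v
    rw [hB, hB, Finset.sum_comm]
    refine Finset.sum_congr rfl fun j _ => Finset.sum_congr rfl fun k _ => ?_
    rw [hHa, hHa, pd_comm]; ring
  have hp : ∀ v, B p v = 0 := by
    intro v
    rw [hB, Finset.sum_comm]
    refine Finset.sum_eq_zero fun k _ => ?_
    have h := hess_p hF p k
    rw [h1, mul_zero] at h
    calc _ = v k * ∑ j, p j * eval p (pderiv j (pderiv k F)) := by
          rw [Finset.mul_sum]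
          exact Finset.sum_congr rfl fun j _ => by rw [hHa]; ring
      _ = 0 := by rw [h, mul_zero]
  have hsingle : ∀ j k, B (Pi.single j 1) (Pi.single k 1) = H j k := by
    intro j k
    rw [hB, Finset.sum_eq_single j, Finset.sum_eq_single k]
    · simp
    · intro b _ hb; simp [hb]
    · simp
    · intro b _ hb; simp [hb]
    · simp
  have hr : ∃ a b c d, B a c * B b d - B a d * B b c ≠ 0 := by
    obtain ⟨i, j, k, l, h⟩ := h2
    refine ⟨Pi.single i 1, Pi.single j 1, Pi.single k 1, Pi.single l 1, ?_⟩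
    rw [hsingle, hsingle, hsingle, hsingle, hHa, hHa, hHa, hHa]
    simpa only [map_sub, map_mul] using h
  have hp0 : p ≠ 0 := by
    rintro rfl
    obtain ⟨i, j, k, l, h⟩ := h2
    apply h
    have h0 : ∀ j k, eval (0 : Fin 4 → ℂ) (pderiv j (pderiv k F)) = 0 := by
      intro j k
      rw [hess hF]
      simp
    simp only [map_sub, map_mul, h0]
    ring
  obtain ⟨A, hA, hA2, h11, h33, h13, h01, h03⟩ := exists_frame B hs hr p hp0 hp
  have hdet : IsUnit A.det := (Matrix.isUnit_iff_isUnit_det A).1 hA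
  -- the dual basis
  obtain ⟨l, hl⟩ : ∃ l : Fin 4 → S, l = fun a => ∑ k, C (A⁻¹ k a) * X k := ⟨_, rfl⟩
  have hl1 : ∀ a, (l a).IsHomogeneous 1 := by
    intro a
    rw [hl]
    refine IsHomogeneous.sum _ _ _ fun k _ => ?_
    have := (isHomogeneous_C (Fin 4) (A⁻¹ k a)).mul (isHomogeneous_X ℂ k)
    rwa [zero_add] at this
  have hX : ∀ j, (X j : S) = ∑ a, C (A a j) * l a := by
    intro j
    have e1 : ∑ a, C (A a j) * l a = ∑ k, C ((A⁻¹ * A) k j) * X k := by
      simp only [hl, Finset.mul_sum, Matrix.mul_apply, map_sum, Finset.sum_mul, C_mul]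
      rw [Finset.sum_comm]
      refine Finset.sum_congr rfl fun k _ => Finset.sum_congr rfl fun a _ => ?_
      ring
    rw [e1, Matrix.nonsing_inv_mul A hdet, Finset.sum_eq_single j]
    · simp
    · intro b _ hb; simp [hb]
    · simp
  have hli : LinearIndependent ℂ l := by
    rw [Fintype.linearIndependent_iff]
    intro g hg b
    have e2 : ∀ a, eval (A b) (l a) = (A * A⁻¹) b a := by
      intro a
      rw [hl, map_sum, Matrix.mul_apply]
      refine Finset.sum_congr rfl fun k _ => ?_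
      rw [map_mul, eval_C, eval_X]; ring
    have e3 := congrArg (eval (A b)) hg
    rw [map_sum, Finset.sum_eq_single b, map_zero, smul_eval, e2, Matrix.mul_nonsing_inv A hdet] at e3
    · simpa using e3
    · intro a _ ha
      rw [smul_eval, e2, Matrix.mul_nonsing_inv A hdet, Matrix.one_apply_ne ha.symm, mul_zero]
    · simp
  -- the decomposition
  obtain ⟨U, hU⟩ : ∃ U : Fin 4 → S, U = fun j =>
    l 0 * C (A 0 j) + (l 1 * C (A 1 j) + l 3 * C (A 3 j)) := ⟨_, rfl⟩
  have hXU : ∀ j, (X j : S) = l 2 * C (p j) + U j := by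
    intro j
    rw [hX j, Fin.sum_univ_four, hU, ← hA2]
    ring
  have hPB : ∀ a b : Fin 4 → ℂ, tau F S (fun i => C (p i)) (fun i => C (a i)) (fun i => C (b i))
      = C (B a b) := by
    intro a b
    rw [tau_P hF, hB, map_sum]
    refine Finset.sum_congr rfl fun j _ => ?_
    rw [map_sum]
    refine Finset.sum_congr rfl fun k _ => ?_
    rw [map_mul, map_mul, hHa]
  have hPU : tau F S (fun i => C (p i)) U U = C (B (A 0) (A 0)) * l 0 ^ 2 + 2 * l 1 * l 3 := by
    rw [hU]
    simp only [tau_add2, tau_add3, tau_smul2, tau_smul3, hPB]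
    rw [hs (A 1) (A 0), hs (A 3) (A 0), hs (A 3) (A 1), h11, h33, h13, h01, h03, C_0, C_1]
    ring
  have h6 : 6 * F = 3 * l 2 * (C (B (A 0) (A 0)) * l 0 ^ 2 + 2 * l 1 * l 3) + tau F S U U U := by
    have e : (fun i => (X i : S)) = fun i => l 2 * (C (p i)) + U i := funext hXU
    rw [six_F hF, e, tau_expand F U (l 2) (fun i => C (p i)), tau_PP hF p h1, tau_PP hF p h1, hPU]
    ring
  obtain ⟨U', hU'⟩ : ∃ U' : Fin 4 → MvPolynomial (Fin 3) ℂ, U' = fun j =>
    X 0 * C (A 0 j) + (X 1 * C (A 1 j) + X 2 * C (A 3 j)) := ⟨_, rfl⟩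
  have hU'1 : ∀ j, (U' j).IsHomogeneous 1 := by
    intro j
    rw [hU']
    have e : ∀ (i : Fin 3) (c : ℂ), (X i * C c : MvPolynomial (Fin 3) ℂ).IsHomogeneous 1 :=
      fun i c => (isHomogeneous_X ℂ i).mul (isHomogeneous_C (Fin 3) c)
    exact (e _ _).add ((e _ _).add (e _ _))
  have hUU : ∀ j, aeval ![l 0, l 1, l 3] (U' j) = U j := by
    intro j
    rw [hU', hU]
    simp only [map_add, map_mul, aeval_X, aeval_C, algebraMap_eq]
    rfl
  refine ⟨l 0, hl1 0, l, C (B (A 0) (A 0) / 2) * X 0 ^ 3,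
    C (1 / 6) * X 0 * tau F (MvPolynomial (Fin 3) ℂ) U' U' U', hl1, hli, ?_, ?_, ?_⟩
  · have := (isHomogeneous_C (Fin 2) (B (A 0) (A 0) / 2)).mul ((isHomogeneous_X ℂ (0 : Fin 2)).pow 3)
    simpa using this
  · have := ((isHomogeneous_C (Fin 3) (1 / 6 : ℂ)).mul (isHomogeneous_X ℂ (0 : Fin 3))).mul
      (tau_hom F U' U' U' hU'1 hU'1 hU'1)
    simpa using this
  · rw [map_mul, map_mul, map_pow, map_mul, tau_map]
    simp only [aeval_X, aeval_C, algebraMap_eq, hUU]
    have e6 : F = C (1 / 6) * (6 * F) := by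
      have : (6 : S) = C 6 := (map_ofNat C 6).symm
      rw [this, ← mul_assoc, ← C_mul]
      norm_num
    have e7 : (C (B (A 0) (A 0) / 2) : S) = C (1 / 6) * 3 * C (B (A 0) (A 0)) := by
      have : (3 : S) = C 3 := (map_ofNat C 3).symm
      rw [this, ← C_mul, ← C_mul]
      congr 1
      ring
    have e8 : (1 : S) = C (1 / 6) * 6 := by
      have : (6 : S) = C 6 := (map_ofNat C 6).symm
      rw [this, ← C_mul]
      norm_num
    have e9 : (fun i => U i) = U := rfl
    rw [e9]
    have e10 : (![l 0, l 1] : Fin 2 → S) 0 = l 0 := rfl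
    have e11 : (![l 0, l 1, l 3] : Fin 3 → S) 0 = l 0 := rfl
    rw [e10, e11, e7]
    conv_lhs => rw [e6, h6]
    linear_combination (-(l 2 * l 3 * l 0 * l 1)) * e8

end Pool.Agent.CLU
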