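import Pool.Agent.CLU.Tan

/-!
# CLU / Node: a net of cubics through a curve on no quadric has a member with a double point
of rank at least two

`κ = Kap P`, `ξ = gen P`; `F(ξ)` is the class of `F`.  `D` a derivation of `κ` with `ξ, Dξ`
independent (`exists_tangent`).  The three vectors `∇F_i(ξ) ∈ κ^4` are orthogonal to `ξ` (Euler:
`Σ ξ_j ∂_j F_i(ξ) = 3 F_i(ξ) = 0`) and to `Dξ` (`0 = D(F_i(ξ)) = Σ Dξ_j ∂_j F_i(ξ)`), so they are
linearly dependent: `N = {c ∈ κ^3 : Σ c_i ∇F_i(ξ) = 0} ≠ 0`.

Claim: some `c ∈ N` has a nonzero `2 × 2` minor of `H_c = Σ c_i Hess F_i(ξ)`.  Otherwise all `H_c`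
have rank `≤ 1`, `H_c = λ v v^T`.  Let `D'` be any derivation of `κ`, `c ∈ N`.  Differentiating
`Σ c_i ∇F_i(ξ) = 0`: `∇F_{D'c}(ξ) = - H_c D'ξ = - λ (v · D'ξ) v`.  As all `∇F_i(ξ)` are orthogonal
to `D'ξ`: `λ (v · D'ξ)^2 = 0`, so `H_c D'ξ = 0` and `D'c ∈ N`.  (Without diagonalising: a symmetric
`H` with vanishing `2 × 2` minors and `u^T H u = 0` satisfies `H u = 0`, since
`(H u)_i (H u)_j = Σ_{kl} H_ik u_k H_jl u_l = Σ H_ij H_kl u_k u_l = H_ij u^T H u = 0`.)
Take `0 ≠ c ∈ N` with the minimal number of nonzero coordinates, scaled to have one coordinate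
`= 1`; `D'c ∈ N` has fewer nonzero coordinates, so `D'c = 0` for all `D'`, and `c ∈ ℂ^3`
(`const_of_killed`).  `F = Σ c_i F_i ≠ 0` is a cubic form whose partial derivatives are in `P`, so
they vanish (`hq`), `3 F = Σ X_j ∂_j F = 0`, contradiction.

Specialisation: multiply `c` with a common denominator: `c_i` = class of `a_i ∈ S`.  Then
`Σ a_i ∂_j F_i ∈ P` for all `j`, and a `2 × 2` minor `μ ∈ S` of `Σ a_i Hess F_i` is not in `P`.
Nullstellensatz (`P` is prime, so the intersection of the maximal ideals containing it): there is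
`p ∈ ℂ^4` where all elements of `P` vanish and `μ(p) ≠ 0`.  `F0 = Σ a_i(p) F_i`.
-/

set_option autoImplicit false

namespace Pool.Agent.CLU

open MvPolynomial

private lemma node_chain {κ : Type*} [Field κ] [Algebra ℂ κ] (D : Derivation ℂ κ κ)
    (x : Fin 4 → κ) (F : S) :
    D (aeval x F) = ∑ j, aeval x (pderiv j F) * D (x j) := by
  classical
  induction F using MvPolynomial.induction_on with
  | C a =>
    rw [aeval_C, Derivation.map_algebraMap]
    symm
    apply Finset.sum_eq_zero
    intro j _
    rw [pderiv_C, map_zero, zero_mul]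
  | add p q hp hq =>
    rw [map_add, map_add, hp, hq, ← Finset.sum_add_distrib]
    apply Finset.sum_congr rfl
    intro j _
    rw [map_add, map_add, add_mul]
  | mul_X p i hp =>
    rw [map_mul, aeval_X, Derivation.leibniz, smul_eq_mul, smul_eq_mul, hp, Finset.mul_sum]
    have h1 : ∀ j, aeval x (pderiv j (p * X i)) * D (x j) =
        x i * (aeval x (pderiv j p) * D (x j)) +
          aeval x p * ((if j = i then (1 : κ) else 0) * D (x j)) := by
      intro j
      rw [pderiv_mul, map_add, map_mul, map_mul, aeval_X]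
      by_cases hji : j = i
      · subst hji
        rw [pderiv_X_self, map_one, if_pos rfl]
        ring
      · rw [pderiv_X_of_ne (fun h => hji h.symm), map_zero, if_neg hji]
        ring
    rw [Finset.sum_congr rfl (fun j _ => h1 j), Finset.sum_add_distrib, ← Finset.mul_sum]
    have h2 : ∑ j, (if j = i then (1 : κ) else 0) * D (x j) = D (x i) := by
      rw [Finset.sum_eq_single i]
      · simp
      · intro b _ hb
        rw [if_neg hb, zero_mul]
      · intro h
        exact absurd (Finset.mem_univ i) h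
    rw [← Finset.mul_sum, h2, add_comm]

private lemma node_comm (i j : Fin 4) (F : S) : pderiv i (pderiv j F) = pderiv j (pderiv i F) := by
  classical
  have h : ⁅pderiv (R := ℂ) (σ := Fin 4) i, pderiv (R := ℂ) (σ := Fin 4) j⁆ = 0 := by
    apply MvPolynomial.derivation_ext
    intro k
    rw [Derivation.commutator_apply, Derivation.zero_apply, pderiv_X, pderiv_X]
    rcases eq_or_ne j k with h1 | h1 <;> rcases eq_or_ne i k with h2 | h2 <;>
      simp [h1, h2]
  have h3 : ⁅pderiv (R := ℂ) (σ := Fin 4) i, pderiv (R := ℂ) (σ := Fin 4) j⁆ F = 0 := by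
    rw [h]; rfl
  rw [Derivation.commutator_apply] at h3
  exact sub_eq_zero.1 h3

private lemma node_q (P : Ideal S) [P.IsPrime] (F : S) :
    aeval (gen P) F = algebraMap (S ⧸ P) (Kap P) (Ideal.Quotient.mk P F) := by
  have h : (aeval (gen P) : S →ₐ[ℂ] Kap P) =
      (IsScalarTower.toAlgHom ℂ (S ⧸ P) (Kap P)).comp (Ideal.Quotient.mkₐ ℂ P) := by
    apply MvPolynomial.algHom_ext
    intro i
    rw [aeval_X]
    rfl
  rw [h]
  rfl

private lemma node_q_zero (P : Ideal S) [P.IsPrime] (F : S) :
    aeval (gen P) F = 0 ↔ F ∈ P := by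
  rw [node_q, ← Ideal.Quotient.eq_zero_iff_mem]
  constructor
  · intro h
    exact (IsFractionRing.injective (S ⧸ P) (Kap P)) (by rw [h, map_zero])
  · intro h
    rw [h, map_zero]

/-- a symmetric `H` with vanishing `2 × 2` minors and `u^T H u = 0` satisfies `H u = 0` -/
private lemma node_sym {κ : Type*} [Field κ] (H : Fin 4 → Fin 4 → κ) (u : Fin 4 → κ)
    (hs : ∀ i j, H i j = H j i) (hm : ∀ i j k l, H i k * H j l - H i l * H j k = 0)
    (hu : ∑ i, u i * ∑ k, H i k * u k = 0) : ∀ i, ∑ k, H i k * u k = 0 := by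
  intro i
  have h : (∑ k, H i k * u k) * (∑ l, H i l * u l) = 0 := by
    rw [Finset.sum_mul_sum]
    have h1 : ∀ k l, H i k * u k * (H i l * u l) = H i i * (u l * (H l k * u k)) := by
      intro k l
      have h2 := hm i l k i
      have h3 : H i k * H l i = H i i * H l k := by linear_combination h2
      rw [hs i l]
      linear_combination (u k * u l) * h3
    have h4 : ∑ k, ∑ l, H i k * u k * (H i l * u l) = H i i * ∑ l, u l * ∑ k, H l k * u k := by
      rw [Finset.sum_comm, Finset.mul_sum]
      apply Finset.sum_congr rfl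
      intro l _
      rw [Finset.mul_sum, Finset.mul_sum]
      apply Finset.sum_congr rfl
      intro k _
      exact h1 k l
    rw [h4, hu, mul_zero]
  exact mul_self_eq_zero.1 h

private lemma node_generic (P : Ideal S) (hP : IsCurve P)
    (hq : ∀ Q ∈ P, Q.IsHomogeneous 2 → Q = 0) (F : Fin 3 → S)
    (hF : ∀ i, (F i).IsHomogeneous 3) (hFP : ∀ i, F i ∈ P) (hli : LinearIndependent ℂ F) :
    ∃ c : Fin 3 → Kap P, (∀ j, ∑ i, c i * aeval (gen P) (pderiv j (F i)) = 0) ∧
      ∃ i j k l,
        (∑ m, c m * aeval (gen P) (pderiv i (pderiv k (F m)))) *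
          (∑ m, c m * aeval (gen P) (pderiv j (pderiv l (F m)))) -
        (∑ m, c m * aeval (gen P) (pderiv i (pderiv l (F m)))) *
          (∑ m, c m * aeval (gen P) (pderiv j (pderiv k (F m)))) ≠ 0 := by
  classical
  have : P.IsPrime := hP.1
  set ξ := gen P with hξ
  set G : Fin 3 → Fin 4 → Kap P := fun i j => aeval ξ (pderiv j (F i)) with hG
  -- orthogonality
  have euler : ∀ i, ∑ j, G i j * ξ j = 0 := by
    intro i
    have h1 := (hF i).sum_X_mul_pderiv
    rw [nsmul_eq_mul] at h1
    have h2 : aeval ξ (∑ j, X j * pderiv j (F i)) = aeval ξ ((3 : ℕ) : S) * aeval ξ (F i) := by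
      rw [h1, map_mul]
    rw [map_sum, (node_q_zero P (F i)).2 (hFP i), mul_zero] at h2
    rw [← h2]
    apply Finset.sum_congr rfl
    intro j _
    rw [map_mul, aeval_X, mul_comm]
  have orth : ∀ (D : Derivation ℂ (Kap P) (Kap P)) (i : Fin 3), ∑ j, G i j * D (ξ j) = 0 := by
    intro D i
    have h1 := node_chain D ξ (F i)
    rw [(node_q_zero P (F i)).2 (hFP i), map_zero] at h1
    exact h1.symm
  obtain ⟨D, hD⟩ := exists_tangent P hP.2.2
  -- a nontrivial dependence
  have hdep : ∃ c : Fin 3 → Kap P, (∀ j, ∑ i, c i * G i j = 0) ∧ c ≠ 0 := by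
    set A : Matrix (Fin 3) (Fin 4) (Kap P) := Matrix.of G with hA
    set M : Matrix (Fin 2) (Fin 4) (Kap P) := Matrix.of ![ξ, fun j => D (ξ j)] with hM
    have hAB : A * M.transpose = 0 := by
      ext i k
      rw [Matrix.mul_apply, Matrix.zero_apply]
      fin_cases k
      · exact euler i
      · exact orth D i
    have h1 := Matrix.rank_add_rank_le_card_of_mul_eq_zero hAB
    have h2 : M.rank = 2 := by
      have h3 : LinearIndependent (Kap P) M.row := hD
      rw [h3.rank_matrix]
      rfl
    rw [Matrix.rank_transpose, h2, Fintype.card_fin] at h1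
    have h4 : ¬ LinearIndependent (Kap P) A.row := by
      intro h5
      rw [h5.rank_matrix, Fintype.card_fin] at h1
      omega
    rw [Fintype.not_linearIndependent_iff] at h4
    obtain ⟨g, hg, i, hi⟩ := h4
    refine ⟨g, ?_, fun h => hi (by rw [h]; rfl)⟩
    intro j
    have h6 := congrFun hg j
    rw [Finset.sum_apply] at h6
    exact h6
  by_contra hcon
  push Not at hcon
  have hcon' : ∀ c : Fin 3 → Kap P, (∀ j, ∑ i, c i * G i j = 0) → ∀ i j k l,
      (∑ m, c m * aeval ξ (pderiv i (pderiv k (F m)))) *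
          (∑ m, c m * aeval ξ (pderiv j (pderiv l (F m)))) -
        (∑ m, c m * aeval ξ (pderiv i (pderiv l (F m)))) *
          (∑ m, c m * aeval ξ (pderiv j (pderiv k (F m)))) = 0 := by
    intro c hc i j k l
    exact hcon c hc i j k l
  -- stability under derivations
  have stab : ∀ (D' : Derivation ℂ (Kap P) (Kap P)) (c : Fin 3 → Kap P),
      (∀ j, ∑ i, c i * G i j = 0) → ∀ j, ∑ i, D' (c i) * G i j = 0 := by
    intro D' c hc
    set H : Fin 4 → Fin 4 → Kap P :=
      fun i k => ∑ m, c m * aeval ξ (pderiv i (pderiv k (F m))) with hH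
    have hsym : ∀ i j, H i j = H j i := by
      intro i j
      simp only [hH]
      apply Finset.sum_congr rfl
      intro m _
      rw [node_comm]
    have key : ∀ j, ∑ i, D' (c i) * G i j + ∑ k, H j k * D' (ξ k) = 0 := by
      intro j
      have h1 : D' (∑ i, c i * G i j) = 0 := by rw [hc j, map_zero]
      rw [map_sum] at h1
      have h2 : ∀ i, D' (c i * G i j) = D' (c i) * G i j +
          ∑ k, c i * aeval ξ (pderiv j (pderiv k (F i))) * D' (ξ k) := by
        intro i
        rw [Derivation.leibniz, smul_eq_mul, smul_eq_mul]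
        have h3 : D' (G i j) = ∑ k, aeval ξ (pderiv k (pderiv j (F i))) * D' (ξ k) :=
          node_chain D' ξ (pderiv j (F i))
        rw [h3, Finset.mul_sum, add_comm, mul_comm (G i j)]
        congr 1
        apply Finset.sum_congr rfl
        intro k _
        rw [node_comm k j]
        ring
      rw [Finset.sum_congr rfl (fun i _ => h2 i), Finset.sum_add_distrib, Finset.sum_comm] at h1
      rw [← h1]
      congr 1
      apply Finset.sum_congr rfl
      intro k _
      rw [hH]
      simp only
      rw [Finset.sum_mul]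
    have hu : ∑ i, D' (ξ i) * ∑ k, H i k * D' (ξ k) = 0 := by
      have h1 : ∀ j, ∑ k, H j k * D' (ξ k) = - ∑ i, D' (c i) * G i j := by
        intro j
        have := key j
        linear_combination this
      rw [Finset.sum_congr rfl (fun i _ => by rw [h1 i])]
      have h2 : ∑ j, D' (ξ j) * -∑ i, D' (c i) * G i j =
          - ∑ i, D' (c i) * ∑ j, G i j * D' (ξ j) := by
        rw [← Finset.sum_neg_distrib]
        have h3 : ∀ j, D' (ξ j) * -∑ i, D' (c i) * G i j =
            ∑ i, -(D' (c i) * (G i j * D' (ξ j))) := by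
          intro j
          rw [Finset.sum_neg_distrib, mul_neg, Finset.mul_sum]
          congr 1
          apply Finset.sum_congr rfl
          intro i _
          ring
        rw [Finset.sum_congr rfl (fun j _ => h3 j), Finset.sum_comm]
        apply Finset.sum_congr rfl
        intro i _
        rw [Finset.sum_neg_distrib, Finset.mul_sum]
      rw [h2, Finset.sum_congr rfl (fun i _ => by rw [orth D' i, mul_zero])]
      simp
    have hz := node_sym H (fun k => D' (ξ k)) hsym (hcon' c hc) hu
    intro j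
    have h1 := key j
    rw [hz j, add_zero] at h1
    exact h1
  -- minimal support
  obtain ⟨c0, hc0, hc0ne⟩ := hdep
  have hex : ∃ n : ℕ, ∃ c : Fin 3 → Kap P, (∀ j, ∑ i, c i * G i j = 0) ∧ c ≠ 0 ∧
      (Finset.univ.filter fun i => c i ≠ 0).card = n := ⟨_, c0, hc0, hc0ne, rfl⟩
  obtain ⟨c, hc, hcne, hcard⟩ := Nat.find_spec hex
  obtain ⟨a, ha⟩ := Function.ne_iff.1 hcne
  have ha' : c a ≠ 0 := ha
  set c' : Fin 3 → Kap P := fun i => (c a)⁻¹ * c i with hc'
  have hc'N : ∀ j, ∑ i, c' i * G i j = 0 := by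
    intro j
    have h1 : ∑ i, c' i * G i j = (c a)⁻¹ * ∑ i, c i * G i j := by
      rw [Finset.mul_sum]
      apply Finset.sum_congr rfl
      intro i _
      simp only [hc']
      ring
    rw [h1, hc j, mul_zero]
  have hc'a : c' a = 1 := by
    simp only [hc']
    exact inv_mul_cancel₀ ha'
  have hkill : ∀ (D' : Derivation ℂ (Kap P) (Kap P)) (i : Fin 3), D' (c' i) = 0 := by
    intro D'
    by_contra hne
    push Not at hne
    obtain ⟨i0, hi0⟩ := hne
    have hmin := Nat.find_min' hex ⟨fun i => D' (c' i), stab D' c' hc'N, Function.ne_iff.2 ⟨i0, hi0⟩,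
      rfl⟩
    have hlt : (Finset.univ.filter fun i => D' (c' i) ≠ 0).card <
        (Finset.univ.filter fun i => c i ≠ 0).card := by
      apply Finset.card_lt_card
      rw [Finset.ssubset_iff_of_subset]
      · refine ⟨a, by simp [ha'], ?_⟩
        simp [hc'a]
      · intro i hi
        rw [Finset.mem_filter] at hi ⊢
        refine ⟨Finset.mem_univ _, fun h => hi.2 ?_⟩
        simp [hc', h]
    rw [hcard] at hlt
    exact absurd hmin (not_le.2 hlt)
  have hconst : ∀ i, ∃ z : ℂ, c' i = algebraMap ℂ (Kap P) z :=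
    fun i => const_of_killed P (c' i) (fun D' => hkill D' i)
  choose z hz using hconst
  set F1 : S := ∑ i, z i • F i with hF1
  have hpd : ∀ j, pderiv j F1 = 0 := by
    intro j
    apply hq
    · rw [← node_q_zero, hF1, map_sum, map_sum]
      rw [← hc'N j]
      apply Finset.sum_congr rfl
      intro i _
      rw [(pderiv j).map_smul, map_smul, Algebra.smul_def, hz i]
    · have h1 : F1.IsHomogeneous 3 := by
        rw [hF1]
        apply MvPolynomial.IsHomogeneous.sum
        intro i _
        rw [MvPolynomial.smul_eq_C_mul]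
        have := (isHomogeneous_C (Fin 4) (z i)).mul (hF i)
        simpa using this
      exact h1.pderiv
  have hF1zero : F1 = 0 := by
    have h1 : F1.IsHomogeneous 3 := by
      rw [hF1]
      apply MvPolynomial.IsHomogeneous.sum
      intro i _
      rw [MvPolynomial.smul_eq_C_mul]
      have := (isHomogeneous_C (Fin 4) (z i)).mul (hF i)
      simpa using this
    have h2 := h1.sum_X_mul_pderiv
    rw [Finset.sum_congr rfl (fun j _ => by rw [hpd j, mul_zero])] at h2
    rw [Finset.sum_const_zero] at h2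
    have h3 : (3 : ℕ) • F1 = 0 := h2.symm
    rcases smul_eq_zero.1 h3 with h4 | h4
    · norm_num at h4
    · exact h4
  have hz0 := Fintype.linearIndependent_iff.1 hli z hF1zero a
  have : c' a = 0 := by rw [hz a, hz0, map_zero]
  rw [hc'a] at this
  exact one_ne_zero this

theorem exists_node (P : Ideal S) (hP : IsCurve P)
    (hq : ∀ Q ∈ P, Q.IsHomogeneous 2 → Q = 0) (F : Fin 3 → S)
    (hF : ∀ i, (F i).IsHomogeneous 3) (hFP : ∀ i, F i ∈ P) (hli : LinearIndependent ℂ F) :
    ∃ F0 ∈ P, F0.IsHomogeneous 3 ∧ ∃ p : Fin 4 → ℂ, (∀ j, eval p (pderiv j F0) = 0) ∧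
      ∃ i j k l, eval p (pderiv i (pderiv k F0) * pderiv j (pderiv l F0) -
        pderiv i (pderiv l F0) * pderiv j (pderiv k F0)) ≠ 0 := by
  classical
  have : P.IsPrime := hP.1
  obtain ⟨c, hc, i, j, k, l, hne⟩ := node_generic P hP hq F hF hFP hli
  obtain ⟨b, hb⟩ := IsLocalization.exist_integer_multiples_of_finite
    (nonZeroDivisors (S ⧸ P)) (S := Kap P) c
  have hb' : ∀ m, ∃ a : S, aeval (gen P) a = algebraMap (S ⧸ P) (Kap P) b * c m := by
    intro m
    obtain ⟨r, hr⟩ := hb m
    obtain ⟨a, rfl⟩ := Ideal.Quotient.mk_surjective r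
    refine ⟨a, ?_⟩
    rw [node_q, hr, Algebra.smul_def]
  choose a ha using hb'
  have hb0 : algebraMap (S ⧸ P) (Kap P) b ≠ 0 := by
    intro h
    have h1 : (b : S ⧸ P) = 0 :=
      (IsFractionRing.injective (S ⧸ P) (Kap P)) (by rw [h, map_zero])
    exact nonZeroDivisors.ne_zero b.2 h1
  set β := algebraMap (S ⧸ P) (Kap P) b with hβ
  -- Hessian entries
  set h : Fin 4 → Fin 4 → S := fun s t => ∑ m, a m * pderiv s (pderiv t (F m)) with hh
  have hval : ∀ s t, aeval (gen P) (h s t) =
      β * ∑ m, c m * aeval (gen P) (pderiv s (pderiv t (F m))) := by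
    intro s t
    simp only [hh]
    rw [map_sum, Finset.mul_sum]
    apply Finset.sum_congr rfl
    intro m _
    rw [map_mul, ha m]
    ring
  set μ : S := h i k * h j l - h i l * h j k with hμ
  have hμP : μ ∉ P := by
    rw [← node_q_zero, hμ, map_sub, map_mul, map_mul, hval, hval, hval, hval]
    intro h0
    apply hne
    have h1 : β * β ≠ 0 := mul_ne_zero hb0 hb0
    apply mul_left_cancel₀ h1
    rw [mul_zero, ← h0]
    ring
  have hgrad : ∀ t, ∑ m, a m * pderiv t (F m) ∈ P := by
    intro t
    rw [← node_q_zero, map_sum]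
    have h1 : ∑ m, aeval (gen P) (a m * pderiv t (F m)) =
        β * ∑ m, c m * aeval (gen P) (pderiv t (F m)) := by
      rw [Finset.mul_sum]
      apply Finset.sum_congr rfl
      intro m _
      rw [map_mul, ha m]
      ring
    rw [h1, hc t, mul_zero]
  -- Nullstellensatz
  have hnull : ∃ p : Fin 4 → ℂ, (∀ Q ∈ P, eval p Q = 0) ∧ eval p μ ≠ 0 := by
    by_contra hcon
    push Not at hcon
    apply hμP
    have h1 : vanishingIdeal ℂ (zeroLocus ℂ P) = P.radical :=
      vanishingIdeal_zeroLocus_eq_radical P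
    have h2 : P.radical = P := Ideal.IsPrime.radical hP.1
    rw [← h2, ← h1, mem_vanishingIdeal_iff]
    intro p hp
    rw [mem_zeroLocus_iff] at hp
    have h3 := hcon p (fun Q hQ => by have := hp Q hQ; rwa [aeval_eq_eval] at this)
    rwa [aeval_eq_eval]
  obtain ⟨p, hpP, hpμ⟩ := hnull
  refine ⟨∑ m, C (eval p (a m)) * F m, ?_, ?_, p, ?_, i, j, k, l, ?_⟩
  · exact Ideal.sum_mem _ (fun m _ => Ideal.mul_mem_left _ _ (hFP m))
  · apply MvPolynomial.IsHomogeneous.sum
    intro m _
    have := (isHomogeneous_C (Fin 4) (eval p (a m))).mul (hF m)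
    simpa using this
  · intro t
    rw [map_sum, map_sum]
    have h1 := hpP _ (hgrad t)
    rw [map_sum] at h1
    rw [← h1]
    apply Finset.sum_congr rfl
    intro m _
    rw [pderiv_C_mul, map_mul, map_mul, eval_C]
  · have hent : ∀ s t, eval p (pderiv s (pderiv t (∑ m, C (eval p (a m)) * F m))) =
        eval p (h s t) := by
      intro s t
      simp only [hh]
      rw [map_sum, map_sum, map_sum, map_sum]
      apply Finset.sum_congr rfl
      intro m _
      rw [pderiv_C_mul, pderiv_C_mul, map_mul, map_mul, eval_C]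
    rw [map_sub, map_mul, map_mul, hent, hent, hent, hent]
    rw [hμ, map_sub, map_mul, map_mul] at hpμ
    exact hpμ

end Pool.Agent.CLU
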