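import Pool.Agent.CLU.Coord
import Pool.Agent.CLU.LinQ

/-!
# CLU / Normal: normal forms

`nodal_planes`: `l = (m 0, m 1, m 2, m 3)` (`l 2 * (l 3 * l 0 * l 1)`), `g = 0`, `h = 0`.

`nodal_quadric`: let `b` be the polar form of `Q` (`b(u, v) = Q(u+v) - Q(u) - Q(v)`),
`β = b(v1, v2) ≠ 0`, `l_2 = b(·, v2) / β · β = b(·, v2)`, `l_1 = b(·, v1) / β`, so
`Q - l_1 l_2` has `v1, v2` in its radical, hence it is a quadratic form `q(X0, W0)` in `X0, W0`
(the linear forms vanishing on `v1, v2`), and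
`X0 W0 Q = l_2 (W0 X0 l_1) + X0 W0 q(X0, W0)`: `l = (X0, l_1, l_2, W0)`, `g = 0`.
-/

set_option autoImplicit false

namespace Pool.Agent.CLU

open MvPolynomial Matrix

theorem nodal_planes (m : Fin 4 → S) (hm : ∀ i, (m i).IsHomogeneous 1)
    (hli : LinearIndependent ℂ m) : NodalQuartic (m 0 * m 1 * m 2 * m 3) := by
  refine ⟨m, 0, 0, hm, hli, isHomogeneous_zero _ _ _, isHomogeneous_zero _ _ _, ?_⟩
  rw [map_zero, map_zero]; ring

/-- A dual basis of a basis of linear forms. -/
private theorem dual_basis (l : Fin 4 → S) (hl : ∀ i, (l i).IsHomogeneous 1)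
    (hli : LinearIndependent ℂ l) :
    ∃ e : Fin 4 → (Fin 4 → ℂ), (∀ i j, eval (e i) (l j) = if i = j then 1 else 0) ∧
      ∀ v, v = ∑ i, eval v (l i) • e i := by
  choose c hc using fun i => exists_lf (l i) (hl i)
  have hli' : LinearIndependent ℂ c := by
    rw [← li_lf]
    have : (fun i => lf (c i)) = l := funext fun i => (hc i).symm
    rw [this]; exact hli
  have hM : IsUnit (Matrix.of c) := by
    rw [← Matrix.linearIndependent_rows_iff_isUnit]
    exact hli'
  have hdet : IsUnit (Matrix.of c).det := (Matrix.isUnit_iff_isUnit_det _).1 hM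
  refine ⟨fun i => (Matrix.of c)⁻¹ *ᵥ Pi.single i 1, ?_, ?_⟩
  · intro i j
    have h1 : eval ((Matrix.of c)⁻¹ *ᵥ Pi.single i 1) (l j)
        = (Matrix.of c *ᵥ ((Matrix.of c)⁻¹ *ᵥ Pi.single i 1)) j := by
      rw [hc j, eval_lf]; rfl
    rw [h1, Matrix.mulVec_mulVec, Matrix.mul_nonsing_inv _ hdet, Matrix.one_mulVec, Pi.single_apply]
    simp only [eq_comm]
  · intro v
    have h1 : ∀ i, eval v (l i) = (Matrix.of c *ᵥ v) i := by
      intro i
      rw [hc i, eval_lf]; rfl
    have h2 : ∑ i, (Matrix.of c *ᵥ v) i • ((Matrix.of c)⁻¹ *ᵥ Pi.single i 1)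
        = (Matrix.of c)⁻¹ *ᵥ (Matrix.of c *ᵥ v) := by
      conv_rhs => rw [pi_eq_sum_univ' (Matrix.of c *ᵥ v)]
      rw [Matrix.mulVec_sum]
      refine Finset.sum_congr rfl fun i _ => ?_
      rw [Matrix.mulVec_smul]
    simp only [h1]
    rw [h2, Matrix.mulVec_mulVec, Matrix.nonsing_inv_mul _ hdet, Matrix.one_mulVec]

theorem nodal_quadric (Q X0 W0 : S) (hQ : Q.IsHomogeneous 2) (hX : X0.IsHomogeneous 1)
    (hW : W0.IsHomogeneous 1) (hli : LinearIndependent ℂ ![X0, W0]) (v1 v2 : Fin 4 → ℂ)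
    (h1 : eval v1 Q = 0) (h2 : eval v2 Q = 0) (h12 : eval (v1 + v2) Q ≠ 0)
    (hX1 : eval v1 X0 = 0) (hX2 : eval v2 X0 = 0) (hW1 : eval v1 W0 = 0)
    (hW2 : eval v2 W0 = 0) : NodalQuartic (X0 * W0 * Q) := by
  obtain ⟨B, hB, hB'⟩ := exists_bilin Q hQ
  have hβ : B v1 v2 ≠ 0 := by
    intro h
    apply h12
    rw [hB']
    simp only [map_add, LinearMap.add_apply]
    rw [← hB', ← hB', h1, h2, hB v2 v1, h]
    ring
  obtain ⟨l1, hl1, hl1'⟩ := exists_lform ((B v1 v2)⁻¹ • B.flip v1)
  obtain ⟨l2, hl2, hl2'⟩ := exists_lform ((2 : ℂ) • B.flip v2)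
  have e1 : ∀ v, eval v l1 = (B v1 v2)⁻¹ * B v v1 := fun v => by
    rw [hl1']; rfl
  have e2 : ∀ v, eval v l2 = 2 * B v v2 := fun v => by
    rw [hl2']; rfl
  have hlin : LinearIndependent ℂ ![X0, l1, l2, W0] := by
    rw [Fintype.linearIndependent_iff]
    intro g hg
    rw [Fin.sum_univ_four] at hg
    simp only [Matrix.cons_val_zero, Matrix.cons_val_one, Matrix.cons_val] at hg
    have g1 := congrArg (eval v1) hg
    have g2 := congrArg (eval v2) hg
    simp only [map_add, smul_eval, e1, e2, hX1, hW1, hX2, hW2, ← hB', h1, h2, map_zero,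
      hB v2 v1] at g1 g2
    have g1' : g 2 = 0 := by
      have : g 2 * (2 * B v1 v2) = 0 := by linear_combination g1
      exact (mul_eq_zero.1 this).resolve_right (mul_ne_zero two_ne_zero hβ)
    have g2' : g 1 = 0 := by
      have : g 1 * ((B v1 v2)⁻¹ * B v1 v2) = 0 := by linear_combination g2
      rw [inv_mul_cancel₀ hβ, mul_one] at this
      exact this
    rw [g1', g2', zero_smul, zero_smul, add_zero, add_zero] at hg
    have := LinearIndependent.pair_iff.1 hli (g 0) (g 3) hg
    intro i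
    fin_cases i
    · exact this.1
    · exact g2'
    · exact g1'
    · exact this.2
  have hhom : ∀ i, (![X0, l1, l2, W0] i).IsHomogeneous 1 := by
    intro i
    fin_cases i
    · exact hX
    · exact hl1
    · exact hl2
    · exact hW
  obtain ⟨e, he, hev⟩ := dual_basis _ hhom hlin
  have hB01 : B (e 0) v1 = 0 := by
    have := he 0 1
    simp only [Matrix.cons_val_one, Matrix.cons_val_zero, e1] at this
    rw [if_neg (by decide)] at this
    exact (mul_eq_zero.1 this).resolve_left (inv_ne_zero hβ)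
  have hB31 : B (e 3) v1 = 0 := by
    have := he 3 1
    simp only [Matrix.cons_val_one, Matrix.cons_val_zero, e1] at this
    rw [if_neg (by decide)] at this
    exact (mul_eq_zero.1 this).resolve_left (inv_ne_zero hβ)
  have hB02 : B (e 0) v2 = 0 := by
    have := he 0 2
    simp only [Matrix.cons_val, e2] at this
    rw [if_neg (by decide)] at this
    exact (mul_eq_zero.1 this).resolve_left two_ne_zero
  have hB32 : B (e 3) v2 = 0 := by
    have := he 3 2
    simp only [Matrix.cons_val, e2] at this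
    rw [if_neg (by decide)] at this
    exact (mul_eq_zero.1 this).resolve_left two_ne_zero
  -- `e 1 = v2`, `2 B(v1, v2) e 2 = v1`
  have hv1 : v1 = (2 * B v1 v2) • e 2 := by
    have := hev v1
    rw [Fin.sum_univ_four] at this
    simp only [Matrix.cons_val_zero, Matrix.cons_val_one, Matrix.cons_val, hX1, hW1, e1, e2] at this
    rw [← hB', h1, mul_zero, zero_smul, zero_smul, zero_smul, zero_add, zero_add, add_zero] at this
    exact this
  have hv2 : v2 = e 1 := by
    have := hev v2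
    rw [Fin.sum_univ_four] at this
    simp only [Matrix.cons_val_zero, Matrix.cons_val_one, Matrix.cons_val, hX2, hW2, e1, e2] at this
    rw [← hB', h2, mul_zero, zero_smul, zero_smul, zero_smul, zero_add, add_zero, add_zero, hB v2 v1,
      inv_mul_cancel₀ hβ, one_smul] at this
    exact this
  have hkey : Q = l1 * l2 + (C (B (e 0) (e 0)) * X0 ^ 2 + C (2 * B (e 0) (e 3)) * (X0 * W0)
      + C (B (e 3) (e 3)) * W0 ^ 2) := by
    apply MvPolynomial.funext
    intro v
    have hv : v = eval v X0 • e 0 + eval v l1 • v2 + (eval v l2 * (2 * B v1 v2)⁻¹) • v1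
        + eval v W0 • e 3 := by
      have h3 := hev v
      rw [Fin.sum_univ_four] at h3
      simp only [Matrix.cons_val_zero, Matrix.cons_val_one, Matrix.cons_val] at h3
      have h4 : (eval v l2 * (2 * B v1 v2)⁻¹) • v1 = eval v l2 • e 2 := by
        conv_lhs => rw [hv1]
        rw [smul_smul]
        congr 1
        rw [← hv1]
        field_simp
      rw [h4, hv2]
      exact h3
    have hq : ∀ x s t w : ℂ, B (x • e 0 + s • v2 + t • v1 + w • e 3)
        (x • e 0 + s • v2 + t • v1 + w • e 3) = 2 * s * t * B v1 v2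
        + (B (e 0) (e 0) * x ^ 2 + 2 * B (e 0) (e 3) * (x * w) + B (e 3) (e 3) * w ^ 2) := by
      intro x s t w
      simp only [map_add, map_smul, LinearMap.add_apply, LinearMap.smul_apply, smul_eq_mul,
        hB01, hB02, hB31, hB32, hB v1 (e 0), hB v2 (e 0), hB v1 (e 3), hB v2 (e 3),
        hB (e 3) (e 0), hB v2 v1, ← hB' v1, ← hB' v2, h1, h2]
      ring
    have h5 : eval v Q = B v v := hB' v
    rw [hv, hq, ← hv] at h5
    rw [h5]
    simp only [map_add, map_mul, eval_C, map_pow]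
    field_simp
  refine ⟨![X0, l1, l2, W0], 0, X 0 * X 2 * (C (B (e 0) (e 0)) * X 0 ^ 2
    + C (2 * B (e 0) (e 3)) * (X 0 * X 2) + C (B (e 3) (e 3)) * X 2 ^ 2), hhom, hlin,
    isHomogeneous_zero _ _ _, ?_, ?_⟩
  · have i1 : (X 0 * X 2 : MvPolynomial (Fin 3) ℂ).IsHomogeneous 2 :=
      (isHomogeneous_X _ _).mul (isHomogeneous_X _ _)
    refine i1.mul (n := 2) (((isHomogeneous_X_pow _ _).C_mul _ |>.add (i1.C_mul _)).add
      ((isHomogeneous_X_pow _ _).C_mul _))
  · conv_lhs => rw [hkey]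
    simp only [Matrix.cons_val_zero, Matrix.cons_val_one, Matrix.cons_val, map_zero, map_mul,
      map_add, aeval_X, map_pow, aeval_C, MvPolynomial.algebraMap_eq]
    ring

end Pool.Agent.CLU
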