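import Pool.Agent.CLU.Defs
import Pool.Agent.CLU.LinQ

/-!
# CLU / Quad: linear algebra of quadratic forms

`quad_iso`: let `b` be the polar form of `Q`.  `Q` is not a square of a linear form, so `b` has
rank `≥ 2`; over `ℂ` there are isotropic `v1, v2` with `b(v1, v2) ≠ 0`.
(E.g. choose `u` with `Q(u) ≠ 0`; `Q - b(·,u)^2 / (4 Q(u))` is not zero, so there is `u' ∈ u^⊥` with
`Q(u') ≠ 0`; `v1, v2 = u / √Q(u) ± i u' / √Q(u')`.)

`quad_line`: restricted to the line `Λ = {a = b = 0}` (a plane in `ℂ^4`), take `Q1 ∈ P` not zero on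
`Λ`.  If `Q1|Λ` is not a square we are done as in `quad_iso`; otherwise `Q1|Λ = m1^2`, let
`0 ≠ v ∈ Λ` with `m1(v) = 0` and `Q2 ∈ P` with `Q2(v) ≠ 0`; if `Q2|Λ` is not a square we are done,
otherwise `Q2|Λ = m2^2`, `m2(v) ≠ 0`, and `Q1 + Q2` works.
-/

set_option autoImplicit false

namespace Pool.Agent.CLU

open MvPolynomial

private theorem exists_sqrt (z : ℂ) : ∃ s : ℂ, s ^ 2 = z :=
  IsAlgClosed.exists_pow_nat_eq z (by norm_num)

/-- A quadratic form on a subspace is a square of a linear form, or has two isotropic vectors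
which are not orthogonal. -/
private theorem alt (B : (Fin 4 → ℂ) →ₗ[ℂ] (Fin 4 → ℂ) →ₗ[ℂ] ℂ) (hB : ∀ u v, B u v = B v u)
    (Λ : Submodule ℂ (Fin 4 → ℂ)) :
    (∃ v1 ∈ Λ, ∃ v2 ∈ Λ, B v1 v1 = 0 ∧ B v2 v2 = 0 ∧ B (v1 + v2) (v1 + v2) ≠ 0) ∨
      ∃ m : (Fin 4 → ℂ) →ₗ[ℂ] ℂ, ∀ v ∈ Λ, B v v = m v ^ 2 := by
  by_cases h0 : ∀ v ∈ Λ, B v v = 0
  · right
    refine ⟨0, fun v hv => ?_⟩
    rw [h0 v hv, LinearMap.zero_apply]; ring
  push Not at h0
  obtain ⟨u, hu, hu0⟩ := h0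
  obtain ⟨s, hs⟩ := exists_sqrt (B u u)
  have hs0 : s ≠ 0 := by
    rintro rfl
    exact hu0 (by rw [← hs]; ring)
  by_cases h1 : ∀ u' ∈ Λ, B u' u = 0 → B u' u' = 0
  · right
    refine ⟨s⁻¹ • B.flip u, fun v hv => ?_⟩
    have h2 := h1 (v - (B v u / B u u) • u) (Λ.sub_mem hv (Λ.smul_mem _ hu)) (by
      simp only [map_sub, map_smul, LinearMap.sub_apply, LinearMap.smul_apply, smul_eq_mul]
      rw [div_mul_cancel₀ _ hu0, sub_self])
    simp only [map_sub, map_smul, LinearMap.sub_apply, LinearMap.smul_apply, smul_eq_mul,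
      hB u v] at h2
    have h3 : B v v = (B v u) ^ 2 / B u u := by
      field_simp at h2 ⊢
      linear_combination h2
    rw [h3, ← hs]
    simp only [LinearMap.smul_apply, LinearMap.flip_apply, smul_eq_mul]
    field_simp
  · left
    push Not at h1
    obtain ⟨u', hu', huu, hu'0⟩ := h1
    obtain ⟨t, ht⟩ := exists_sqrt (B u' u')
    have ht0 : t ≠ 0 := by
      rintro rfl
      exact hu'0 (by rw [← ht]; ring)
    have huu' : B u u' = 0 := by rw [hB]; exact huu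
    have hI : Complex.I ^ 2 = -1 := Complex.I_sq
    refine ⟨s⁻¹ • u + (Complex.I * t⁻¹) • u',
      Λ.add_mem (Λ.smul_mem _ hu) (Λ.smul_mem _ hu'),
      s⁻¹ • u - (Complex.I * t⁻¹) • u',
      Λ.sub_mem (Λ.smul_mem _ hu) (Λ.smul_mem _ hu'), ?_, ?_, ?_⟩
    · simp only [map_add, map_smul, LinearMap.add_apply, LinearMap.smul_apply, smul_eq_mul, huu,
        huu', ← hs, ← ht]
      field_simp
      linear_combination (s * t) * hI
    · simp only [map_sub, map_smul, LinearMap.sub_apply, LinearMap.smul_apply, smul_eq_mul, huu,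
        huu', ← hs, ← ht]
      field_simp
      linear_combination (s * t) * hI
    · have h2 : s⁻¹ • u + (Complex.I * t⁻¹) • u' + (s⁻¹ • u - (Complex.I * t⁻¹) • u')
          = (2 * s⁻¹) • u := by
        module
      rw [h2]
      simp only [map_smul, LinearMap.smul_apply, smul_eq_mul]
      exact mul_ne_zero (mul_ne_zero two_ne_zero (inv_ne_zero hs0))
        (mul_ne_zero (mul_ne_zero two_ne_zero (inv_ne_zero hs0)) hu0)

theorem quad_iso (Q : S) (hQ : Q.IsHomogeneous 2)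
    (h : ∀ m : S, m.IsHomogeneous 1 → Q ≠ m ^ 2) :
    ∃ v1 v2 : Fin 4 → ℂ, eval v1 Q = 0 ∧ eval v2 Q = 0 ∧ eval (v1 + v2) Q ≠ 0 := by
  obtain ⟨B, hB, hB'⟩ := exists_bilin Q hQ
  rcases alt B hB ⊤ with ⟨v1, _, v2, _, h1, h2, h3⟩ | ⟨m, hm⟩
  · exact ⟨v1, v2, by rw [hB', h1], by rw [hB', h2], by rw [hB']; exact h3⟩
  · exfalso
    obtain ⟨F, hF, hF'⟩ := exists_lform m
    refine h F hF (MvPolynomial.funext fun v => ?_)
    rw [map_pow, hF', hB', hm v Submodule.mem_top]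

private theorem ker_dim {k : ℕ} (f : (Fin 4 → ℂ) →ₗ[ℂ] (Fin k → ℂ)) :
    4 ≤ k + Module.finrank ℂ (LinearMap.ker f) := by
  have h1 := LinearMap.finrank_range_add_finrank_ker f
  have h2 : Module.finrank ℂ (LinearMap.range f) ≤ k := by
    refine (Submodule.finrank_le _).trans ?_
    rw [Module.finrank_fin_fun]
  rw [Module.finrank_fin_fun] at h1
  omega

theorem quad_line (P : Ideal S) (a b : S) (ha : a.IsHomogeneous 1) (hb : b.IsHomogeneous 1)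
    (hab : LinearIndependent ℂ ![a, b])
    (h : ∀ v : Fin 4 → ℂ, v ≠ 0 → eval v a = 0 → eval v b = 0 →
      ∃ Q ∈ P, Q.IsHomogeneous 2 ∧ eval v Q ≠ 0) :
    ∃ Q ∈ P, Q.IsHomogeneous 2 ∧ ∃ v1 v2 : Fin 4 → ℂ, eval v1 a = 0 ∧ eval v2 a = 0 ∧
      eval v1 b = 0 ∧ eval v2 b = 0 ∧ eval v1 Q = 0 ∧ eval v2 Q = 0 ∧ eval (v1 + v2) Q ≠ 0 := by
  obtain ⟨fa, hfa⟩ := exists_functional a ha
  obtain ⟨fb, hfb⟩ := exists_functional b hb
  set Λ : Submodule ℂ (Fin 4 → ℂ) := LinearMap.ker fa ⊓ LinearMap.ker fb with hΛ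
  have hmem : ∀ v, v ∈ Λ ↔ fa v = 0 ∧ fb v = 0 := by
    intro v
    rw [hΛ, Submodule.mem_inf, LinearMap.mem_ker, LinearMap.mem_ker]
  have hfin : ∀ {v1 v2 : Fin 4 → ℂ} {Q : S} {B : (Fin 4 → ℂ) →ₗ[ℂ] (Fin 4 → ℂ) →ₗ[ℂ] ℂ},
      (∀ v, eval v Q = B v v) → Q ∈ P → Q.IsHomogeneous 2 → v1 ∈ Λ → v2 ∈ Λ →
      B v1 v1 = 0 → B v2 v2 = 0 → B (v1 + v2) (v1 + v2) ≠ 0 →
      ∃ Q ∈ P, Q.IsHomogeneous 2 ∧ ∃ v1 v2 : Fin 4 → ℂ, eval v1 a = 0 ∧ eval v2 a = 0 ∧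
      eval v1 b = 0 ∧ eval v2 b = 0 ∧ eval v1 Q = 0 ∧ eval v2 Q = 0 ∧
      eval (v1 + v2) Q ≠ 0 := by
    intro v1 v2 Q B hQB hQP hQ2 h1 h2 h3 h4 h5
    rw [hmem] at h1 h2
    exact ⟨Q, hQP, hQ2, v1, v2, by rw [hfa, h1.1], by rw [hfa, h2.1], by rw [hfb, h1.2],
      by rw [hfb, h2.2], by rw [hQB, h3], by rw [hQB, h4], by rw [hQB]; exact h5⟩
  -- a nonzero `u ∈ Λ`
  have hex : ∀ f : (Fin 4 → ℂ) →ₗ[ℂ] ℂ, ∃ v, v ≠ 0 ∧ v ∈ Λ ∧ f v = 0 := by
    intro f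
    have h1 := ker_dim (LinearMap.pi ![fa, fb, f])
    have h2 : 0 < Module.finrank ℂ (LinearMap.ker (LinearMap.pi ![fa, fb, f])) := by omega
    rw [Module.finrank_pos_iff_exists_ne_zero] at h2
    obtain ⟨⟨v, hv⟩, hv0⟩ := h2
    rw [LinearMap.mem_ker] at hv
    have e0 := congrFun hv 0
    have e1 := congrFun hv 1
    have e2 := congrFun hv 2
    simp only [LinearMap.pi_apply, Matrix.cons_val_zero, Matrix.cons_val_one, Matrix.cons_val,
      Pi.zero_apply] at e0 e1 e2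
    exact ⟨v, fun h => hv0 (Subtype.ext h), (hmem v).2 ⟨e0, e1⟩, e2⟩
  obtain ⟨u, hu0, huΛ, -⟩ := hex 0
  obtain ⟨Q1, hQ1P, hQ1, hQ1u⟩ := h u hu0 (by rw [hfa]; exact ((hmem u).1 huΛ).1)
    (by rw [hfb]; exact ((hmem u).1 huΛ).2)
  obtain ⟨B1, hB1, hB1'⟩ := exists_bilin Q1 hQ1
  rcases alt B1 hB1 Λ with ⟨v1, g1, v2, g2, g3, g4, g5⟩ | ⟨m1, hm1⟩
  · exact hfin hB1' hQ1P hQ1 g1 g2 g3 g4 g5
  obtain ⟨v, hv0, hvΛ, hvm⟩ := hex m1
  obtain ⟨Q2, hQ2P, hQ2, hQ2v⟩ := h v hv0 (by rw [hfa]; exact ((hmem v).1 hvΛ).1)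
    (by rw [hfb]; exact ((hmem v).1 hvΛ).2)
  obtain ⟨B2, hB2, hB2'⟩ := exists_bilin Q2 hQ2
  rcases alt B2 hB2 Λ with ⟨v1, g1, v2, g2, g3, g4, g5⟩ | ⟨m2, hm2⟩
  · exact hfin hB2' hQ2P hQ2 g1 g2 g3 g4 g5
  have hm1u : m1 u ≠ 0 := by
    intro hm
    apply hQ1u
    rw [hB1', hm1 u huΛ, hm]; ring
  have hm2v : m2 v ≠ 0 := by
    intro hm
    apply hQ2v
    rw [hB2', hm2 v hvΛ, hm]; ring
  have hI : Complex.I ^ 2 = -1 := Complex.I_sq
  have hsum : ∀ x ∈ Λ, eval x (Q1 + Q2) = m1 x ^ 2 + m2 x ^ 2 := by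
    intro x hx
    rw [map_add, hB1', hB2', hm1 x hx, hm2 x hx]
  have key : ∀ c : ℂ, c ^ 2 = -1 → u + ((c * m1 u - m2 u) / m2 v) • v ∈ Λ ∧
      m1 (u + ((c * m1 u - m2 u) / m2 v) • v) = m1 u ∧
      m2 (u + ((c * m1 u - m2 u) / m2 v) • v) = c * m1 u := by
    intro c hc
    refine ⟨Λ.add_mem huΛ (Λ.smul_mem _ hvΛ), ?_, ?_⟩
    · rw [map_add, map_smul, hvm, smul_zero, add_zero]
    · rw [map_add, map_smul, smul_eq_mul, div_mul_cancel₀ _ hm2v]; ring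
  obtain ⟨p1, p2, p3⟩ := key Complex.I hI
  obtain ⟨q1, q2, q3⟩ := key (-Complex.I) (by rw [neg_sq, hI])
  generalize u + ((Complex.I * m1 u - m2 u) / m2 v) • v = w1 at p1 p2 p3
  generalize u + ((-Complex.I * m1 u - m2 u) / m2 v) • v = w2 at q1 q2 q3
  have p1' := (hmem _).1 p1
  have q1' := (hmem _).1 q1
  refine ⟨Q1 + Q2, P.add_mem hQ1P hQ2P, hQ1.add hQ2, w1, w2, by rw [hfa]; exact p1'.1,
    by rw [hfa]; exact q1'.1, by rw [hfb]; exact p1'.2, by rw [hfb]; exact q1'.2, ?_, ?_, ?_⟩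
  · rw [hsum _ p1, p2, p3, mul_pow, hI]; ring
  · rw [hsum _ q1, q2, q3, mul_pow, neg_sq, hI]; ring
  · rw [hsum _ (Λ.add_mem p1 q1), map_add, map_add, p2, p3, q2, q3]
    have : (m1 u + m1 u) ^ 2 + (Complex.I * m1 u + -Complex.I * m1 u) ^ 2 = 4 * m1 u ^ 2 := by
      ring
    rw [this]
    exact mul_ne_zero (by norm_num) (pow_ne_zero 2 hm1u)

/-- There is a plane through three points, and a second plane through the first two. -/
theorem exists_planes (v1 v2 p : Fin 4 → ℂ) : ∃ X0 W0 : S, X0.IsHomogeneous 1 ∧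
    W0.IsHomogeneous 1 ∧ LinearIndependent ℂ ![X0, W0] ∧ eval v1 X0 = 0 ∧ eval v2 X0 = 0 ∧
    eval p X0 = 0 ∧ eval v1 W0 = 0 ∧ eval v2 W0 = 0 := by
  let d : (Fin 4 → ℂ) → (Fin 4 → ℂ) →ₗ[ℂ] ℂ := fun v => (dotProductBilin ℂ ℂ).flip v
  have hd : ∀ v c, d v c = c ⬝ᵥ v := fun v c => rfl
  have h1 := ker_dim (LinearMap.pi ![d v1, d v2, d p])
  have h2 : 0 < Module.finrank ℂ (LinearMap.ker (LinearMap.pi ![d v1, d v2, d p])) := by omega
  rw [Module.finrank_pos_iff_exists_ne_zero] at h2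
  obtain ⟨⟨x, hx⟩, hx0⟩ := h2
  rw [LinearMap.mem_ker] at hx
  have e0 := congrFun hx 0
  have e1 := congrFun hx 1
  have e2 := congrFun hx 2
  simp only [LinearMap.pi_apply, Matrix.cons_val_zero, Matrix.cons_val_one, Matrix.cons_val,
      Pi.zero_apply, hd] at e0 e1 e2
  have h3 := ker_dim (LinearMap.pi ![d v1, d v2])
  have h4 : 1 < Module.finrank ℂ (LinearMap.ker (LinearMap.pi ![d v1, d v2])) := by omega
  have hxk : x ∈ LinearMap.ker (LinearMap.pi ![d v1, d v2]) := by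
    rw [LinearMap.mem_ker]
    funext i
    fin_cases i
    · exact e0
    · exact e1
  have hx0' : (⟨x, hxk⟩ : LinearMap.ker (LinearMap.pi ![d v1, d v2])) ≠ 0 := by
    intro h
    have h' : x = 0 := congrArg Subtype.val h
    exact hx0 (Subtype.ext h')
  obtain ⟨⟨y, hy⟩, hli⟩ := exists_linearIndependent_pair_of_one_lt_finrank h4 hx0'
  have hli3 : LinearIndependent ℂ ![x, y] := by
    rw [LinearIndependent.pair_iff] at hli ⊢
    intro s t hst
    exact hli s t (Subtype.ext hst)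
  rw [← li_lf] at hli3
  rw [LinearMap.mem_ker] at hy
  have y0 := congrFun hy 0
  have y1 := congrFun hy 1
  simp only [LinearMap.pi_apply, Matrix.cons_val_zero, Matrix.cons_val_one,
      Pi.zero_apply, hd] at y0 y1
  refine ⟨lf x, lf y, lf_hom _, lf_hom _, ?_, by rw [eval_lf, e0], by rw [eval_lf, e1],
    by rw [eval_lf, e2], by rw [eval_lf, y0], by rw [eval_lf, y1]⟩
  convert hli3 using 1
  funext i
  fin_cases i <;> rfl

/-- Completion of linearly independent linear forms. -/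
theorem exists_completion (w a b : S) (hw : w.IsHomogeneous 1) (ha : a.IsHomogeneous 1)
    (hb : b.IsHomogeneous 1) (h : LinearIndependent ℂ ![w, a, b]) :
    ∃ m : S, m.IsHomogeneous 1 ∧ LinearIndependent ℂ ![w, a, b, m] := by
  obtain ⟨cw, rfl⟩ := exists_lf w hw
  obtain ⟨ca, rfl⟩ := exists_lf a ha
  obtain ⟨cb, rfl⟩ := exists_lf b hb
  have h1 : LinearIndependent ℂ ![cw, ca, cb] := by
    rw [← li_lf]
    convert h using 1
    funext i
    fin_cases i <;> rfl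
  obtain ⟨x, hx⟩ := exists_linearIndependent_snoc_of_lt_finrank h1
    (by rw [Module.finrank_fin_fun]; norm_num)
  rw [← li_lf] at hx
  refine ⟨lf x, lf_hom _, ?_⟩
  convert hx using 1
  funext i
  fin_cases i <;> rfl

/-- A linear form can be completed, with the second one through a given point `p` of its plane. -/
theorem exists_completion_point (w : S) (hw : w.IsHomogeneous 1) (hw0 : w ≠ 0)
    (p : Fin 4 → ℂ) : ∃ a b m : S, a.IsHomogeneous 1 ∧ b.IsHomogeneous 1 ∧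
      m.IsHomogeneous 1 ∧ LinearIndependent ℂ ![w, a, b, m] ∧ eval p a = 0 := by
  obtain ⟨cw, rfl⟩ := exists_lf w hw
  have hcw : cw ≠ 0 := by
    rintro rfl
    exact hw0 (map_zero _)
  let d : (Fin 4 → ℂ) → (Fin 4 → ℂ) →ₗ[ℂ] ℂ := fun v => (dotProductBilin ℂ ℂ).flip v
  have hd : ∀ v c, d v c = c ⬝ᵥ v := fun v c => rfl
  have h1 := ker_dim (LinearMap.pi ![d p])
  have h2 : ∃ x, x ∈ LinearMap.ker (LinearMap.pi ![d p]) ∧ x ∉ Submodule.span ℂ {cw} := by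
    by_contra hcon
    push Not at hcon
    have h3 : LinearMap.ker (LinearMap.pi ![d p]) ≤ Submodule.span ℂ {cw} := hcon
    have h4 := Submodule.finrank_mono h3
    rw [finrank_span_singleton hcw] at h4
    omega
  obtain ⟨x, hx, hxs⟩ := h2
  rw [LinearMap.mem_ker] at hx
  have x0 := congrFun hx 0
  simp only [LinearMap.pi_apply, Matrix.cons_val_zero, Pi.zero_apply, hd] at x0
  have h3 : LinearIndependent ℂ ![cw, x] := by
    rw [LinearIndependent.pair_iff' hcw]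
    intro a ha
    exact hxs (ha ▸ Submodule.smul_mem _ _ (Submodule.mem_span_singleton_self _))
  obtain ⟨y, hy⟩ := exists_linearIndependent_snoc_of_lt_finrank h3
    (by rw [Module.finrank_fin_fun]; norm_num)
  rw [← li_lf] at hy
  have hy' : LinearIndependent ℂ ![lf cw, lf x, lf y] := by
    convert hy using 1
    funext i
    fin_cases i <;> rfl
  obtain ⟨m, hm, hm'⟩ := exists_completion _ _ _ (lf_hom _) (lf_hom _) (lf_hom _) hy'
  exact ⟨lf x, lf y, m, lf_hom _, lf_hom _, hm, hm', by rw [eval_lf, x0]⟩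

end Pool.Agent.CLU
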