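import Pool.Agent.CLU.Crit
import Pool.Agent.CLU.Normal
import Pool.Agent.CLU.Cubic
import Pool.Agent.CLU.Quad
import Pool.Agent.CLU.Node

/-!
# CLU / Fam: the families of smooth Fano blow-ups of `ℙ^3`
-/

set_option autoImplicit false

namespace Pool.Agent.CLU

open MvPolynomial

/-- The centres.  A line is an integral curve contained in two different planes. -/
inductive FanoCentres : Set (Ideal S) → Prop
  /-- an integral curve on three linearly independent cubics -/
  | curve (P : Ideal S) (hP : IsCurve P) (F : Fin 3 → S) (hF : ∀ i, (F i).IsHomogeneous 3)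
      (hFP : ∀ i, F i ∈ P) (hli : LinearIndependent ℂ F) : FanoCentres {P}
  /-- an integral curve `P` and a line `Λ = {a = b = 0}` which does not meet the base locus of the
  quadrics through `P` -/
  | curve_line (P Λ : Ideal S) (hP : IsCurve P) (hΛ : IsCurve Λ) (a b : S)
      (ha : a.IsHomogeneous 1) (hb : b.IsHomogeneous 1) (hab : LinearIndependent ℂ ![a, b])
      (haΛ : a ∈ Λ) (hbΛ : b ∈ Λ)
      (h : ∀ v : Fin 4 → ℂ, v ≠ 0 → eval v a = 0 → eval v b = 0 →
        ∃ Q ∈ P, Q.IsHomogeneous 2 ∧ eval v Q ≠ 0) : FanoCentres {P, Λ}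
  /-- an integral curve on a quadric and a point of the curve -/
  | curve_point (P : Ideal S) (hP : IsCurve P) (Q : S) (hQP : Q ∈ P) (hQ : Q.IsHomogeneous 2)
      (hQ0 : Q ≠ 0) (p : Fin 4 → ℂ) (hp : p ≠ 0) (hpP : P ≤ pointIdeal p) :
      FanoCentres {P, pointIdeal p}
  /-- integral curves in a plane `w = 0` and perhaps the line `Λ = {a = b = 0}` which is not
  contained in the plane, and points of `Λ` -/
  | plane (Z : Set (Ideal S)) (w a b : S) (hw : w.IsHomogeneous 1) (ha : a.IsHomogeneous 1)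
      (hb : b.IsHomogeneous 1) (hli : LinearIndependent ℂ ![w, a, b])
      (h : ∀ P ∈ Z, (IsCurve P ∧ (w ∈ P ∨ (a ∈ P ∧ b ∈ P))) ∨
        ∃ p : Fin 4 → ℂ, p ≠ 0 ∧ P = pointIdeal p ∧ eval p a = 0 ∧ eval p b = 0) : FanoCentres Z
  /-- three pairwise disjoint lines -/
  | three_lines (Λ : Fin 3 → Ideal S) (hΛ : ∀ i, IsCurve (Λ i)) (a b : Fin 3 → S)
      (ha : ∀ i, (a i).IsHomogeneous 1) (hb : ∀ i, (b i).IsHomogeneous 1)
      (haΛ : ∀ i, a i ∈ Λ i) (hbΛ : ∀ i, b i ∈ Λ i)
      (hd : ∀ i j, i ≠ j → LinearIndependent ℂ ![a i, b i, a j, b j]) :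
      FanoCentres (Set.range Λ)

lemma one_le_mult_point (p : Fin 4 → ℂ) (F : S) (d : ℕ) (hF : F.IsHomogeneous d)
    (hp : eval p F = 0) : 1 ≤ mult (pointIdeal p) F := by
  have := pointIdeal_prime p
  exact one_le_mult _ _ (mem_pointIdeal_of_homog p F d hF hp)

/-- A product of forms, two of which vanish at the point, has multiplicity at least two. -/
lemma two_le_mult_point (p : Fin 4 → ℂ) (F G H : S) (d e : ℕ) (hF : F.IsHomogeneous d)
    (hG : G.IsHomogeneous e) (hp : eval p F = 0) (hq : eval p G = 0) (B : S)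
    (hB : B = F * G * H) : 2 ≤ mult (pointIdeal p) B := by
  have := pointIdeal_prime p
  rw [hB, mult_mul, mult_mul]
  calc (2 : ℕ∞) = 1 + 1 := by norm_num
    _ ≤ mult (pointIdeal p) F + mult (pointIdeal p) G :=
        add_le_add (one_le_mult_point p F d hF hp) (one_le_mult_point p G e hG hq)
    _ ≤ _ := le_self_add

/-- A tetrahedron. -/
theorem tetra (m : Fin 4 → S) (hm : ∀ i, (m i).IsHomogeneous 1) (hli : LinearIndependent ℂ m)
    (Z : Set (Ideal S)) (h : ∀ P ∈ Z, (IsCurve P ∧ ∃ i, m i ∈ P) ∨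
      ∃ p : Fin 4 → ℂ, p ≠ 0 ∧ P = pointIdeal p ∧ ∃ i j, i ≠ j ∧ eval p (m i) = 0 ∧
        eval p (m j) = 0) : IsClusterType (divisors Z) := by
  have hprod : m 0 * m 1 * m 2 * m 3 = ∏ i, m i := by
    simp [Fin.prod_univ_four]
  refine criterion (m 0 * m 1 * m 2 * m 3) (nodal_planes m hm hli) Z ?_
  intro P hP
  rcases h P hP with ⟨hc, i, hi⟩ | ⟨p, hp, rfl, i, j, hij, hi, hj⟩
  · left
    refine ⟨hc, ?_⟩
    rw [hprod]
    exact Ideal.mem_of_dvd _ (Finset.dvd_prod_of_mem m (Finset.mem_univ i)) hi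
  · right
    refine ⟨p, hp, rfl, ?_⟩
    have hdvd : m i * m j ∣ m 0 * m 1 * m 2 * m 3 := by
      rw [hprod, ← Finset.mul_prod_erase Finset.univ m (Finset.mem_univ i)]
      exact mul_dvd_mul_left _ (Finset.dvd_prod_of_mem m
        (Finset.mem_erase.2 ⟨hij.symm, Finset.mem_univ j⟩))
    obtain ⟨H, hH⟩ := hdvd
    exact two_le_mult_point p (m i) (m j) H 1 1 (hm i) (hm j) hi hj _ hH

lemma sq_mem {P : Ideal S} (hP : P.IsPrime) {m : S} (h : m ^ 2 ∈ P) : m ∈ P :=
  hP.mem_of_pow_mem 2 h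

lemma plane_case (P : Ideal S) (hP : IsCurve P) (w : S) (hw : w.IsHomogeneous 1) (hw0 : w ≠ 0)
    (hwP : w ∈ P) (Z : Set (Ideal S)) (p : Fin 4 → ℂ) (hp : p ≠ 0) (hwp : eval p w = 0)
    (hZ : ∀ I ∈ Z, I = P ∨ I = pointIdeal p) : IsClusterType (divisors Z) := by
  obtain ⟨a, b, m, ha, hb, hm, hli, hpa⟩ := exists_completion_point w hw hw0 p
  refine tetra ![w, a, b, m] (by intro i; fin_cases i <;> simpa) hli Z ?_
  intro I hI
  rcases hZ I hI with rfl | rfl
  · exact Or.inl ⟨hP, 0, by simpa using hwP⟩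
  · exact Or.inr ⟨p, hp, rfl, 0, 1, by decide, by simpa using hwp, by simpa using hpa⟩

lemma plane_case' (P : Ideal S) (hP : IsCurve P) (w : S) (hw : w.IsHomogeneous 1) (hw0 : w ≠ 0)
    (hwP : w ∈ P) : IsClusterType (divisors {P}) := by
  obtain ⟨a, b, m, ha, hb, hm, hli, hpa⟩ := exists_completion_point w hw hw0 0
  refine tetra ![w, a, b, m] (by intro i; fin_cases i <;> simpa) hli _ ?_
  intro I hI
  rw [Set.mem_singleton_iff] at hI
  subst hI
  exact Or.inl ⟨hP, 0, by simpa using hwP⟩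

lemma third_plane {a0 b0 a1 b1 a2 b2 : S} (h01 : LinearIndependent ℂ ![a0, b0, a1, b1])
    (h02 : LinearIndependent ℂ ![a0, b0, a2, b2]) :
    LinearIndependent ℂ ![a0, a1, a2] ∨ LinearIndependent ℂ ![a0, a1, b2] := by
  have h2 : LinearIndependent ℂ ![a0, a1] := by
    have := h01.comp ![(0 : Fin 4), 2] (by decide)
    convert this using 1
    ext i; fin_cases i <;> rfl
  have mem : ∀ c : S, ¬ LinearIndependent ℂ ![a0, a1, c] → ∃ x y : ℂ, c = x • a0 + y • a1 := by
    intro c hc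
    rw [Fintype.not_linearIndependent_iff] at hc
    obtain ⟨g, hg, i, hi⟩ := hc
    simp only [Fin.sum_univ_three, Matrix.cons_val_zero, Matrix.cons_val_one,
      Matrix.cons_val] at hg
    have hg2 : g 2 ≠ 0 := by
      intro h0
      rw [h0, zero_smul, add_zero] at hg
      have := (LinearIndependent.pair_iff.1 h2) (g 0) (g 1) hg
      fin_cases i
      · exact hi this.1
      · exact hi this.2
      · exact hi h0
    refine ⟨-(g 2)⁻¹ * g 0, -(g 2)⁻¹ * g 1, ?_⟩
    have : c = (g 2)⁻¹ • (g 2 • c) := by rw [smul_smul, inv_mul_cancel₀ hg2, one_smul]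
    rw [this, show g 2 • c = -(g 0 • a0 + g 1 • a1) by
      rw [eq_neg_iff_add_eq_zero, add_comm]; exact hg]
    rw [smul_neg, smul_add, smul_smul, smul_smul, neg_mul, neg_mul, neg_smul, neg_smul]
    abel
  by_contra hcon
  push Not at hcon
  obtain ⟨x, y, hxy⟩ := mem a2 hcon.1
  obtain ⟨z, w, hzw⟩ := mem b2 hcon.2
  rw [Fintype.linearIndependent_iff] at h02
  have e1 := h02 ![x * w - y * z, 0, -w, y] (by
    simp only [Fin.sum_univ_four, Matrix.cons_val_zero, Matrix.cons_val_one,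
      Matrix.cons_val]
    rw [hxy, hzw]
    module)
  have hw : w = 0 := by have := e1 2; simpa using this
  have hy : y = 0 := by have := e1 3; simpa using this
  have e2 := h02 ![x, 0, -1, 0] (by
    simp only [Fin.sum_univ_four, Matrix.cons_val_zero, Matrix.cons_val_one,
      Matrix.cons_val]
    rw [hxy, hy]
    module)
  have := e2 2
  simp at this

theorem main (Z : Set (Ideal S)) (hZ : FanoCentres Z) : IsClusterType (divisors Z) := by
  cases hZ with
  | curve P hP F hF hFP hli =>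
    by_cases hw : ∃ w : S, w.IsHomogeneous 1 ∧ w ≠ 0 ∧ w ∈ P
    · obtain ⟨w, hw1, hw0, hwP⟩ := hw
      exact plane_case' P hP w hw1 hw0 hwP
    · push Not at hw
      by_cases hq : ∃ Q : S, Q ∈ P ∧ Q.IsHomogeneous 2 ∧ Q ≠ 0
      · obtain ⟨Q, hQP, hQ, hQ0⟩ := hq
        obtain ⟨v1, v2, h1, h2, h12⟩ := quad_iso Q hQ (by
          rintro m hm rfl
          have hmP : m ∈ P := sq_mem hP.1 hQP
          exact hw m hm (by rintro rfl; simp at hQ0) hmP)
        obtain ⟨X0, W0, hX, hW, hXW, a1, a2, a3, b1, b2⟩ := exists_planes v1 v2 0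
        refine criterion (X0 * W0 * Q) (nodal_quadric Q X0 W0 hQ hX hW hXW v1 v2 h1 h2 h12 a1 a2
          b1 b2) _ ?_
        intro I hI
        rw [Set.mem_singleton_iff] at hI
        subst hI
        exact Or.inl ⟨hP, Ideal.mul_mem_left _ _ hQP⟩
      · have hq' : ∀ Q ∈ P, Q.IsHomogeneous 2 → Q = 0 := by
          intro Q hQP hQ
          by_contra h0
          exact hq ⟨Q, hQP, hQ, h0⟩
        obtain ⟨F0, hF0P, hF0, p, h1, h2⟩ := exists_node P hP hq' F hF hFP hli
        obtain ⟨W, hW, hN⟩ := nodal_cubic F0 hF0 p h1 h2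
        refine criterion (W * F0) hN _ ?_
        intro I hI
        rw [Set.mem_singleton_iff] at hI
        subst hI
        exact Or.inl ⟨hP, Ideal.mul_mem_left _ _ hF0P⟩
  | curve_line P Λ hP hΛ a b ha hb hab haΛ hbΛ h =>
    obtain ⟨Q, hQP, hQ, v1, v2, a1, a2, b1, b2, h1, h2, h12⟩ := quad_line P a b ha hb hab h
    refine criterion (a * b * Q) (nodal_quadric Q a b hQ ha hb hab v1 v2 h1 h2 h12 a1 a2
          b1 b2) _ ?_
    intro I hI
    rw [Set.mem_insert_iff, Set.mem_singleton_iff] at hI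
    rcases hI with rfl | rfl
    · exact Or.inl ⟨hP, Ideal.mul_mem_left _ _ hQP⟩
    · exact Or.inl ⟨hΛ, Ideal.mul_mem_right _ _ (Ideal.mul_mem_right _ _ haΛ)⟩
  | curve_point P hP Q hQP hQ hQ0 p hp hpP =>
    by_cases hw : ∃ w : S, w.IsHomogeneous 1 ∧ w ≠ 0 ∧ w ∈ P
    · obtain ⟨w, hw1, hw0, hwP⟩ := hw
      refine plane_case P hP w hw1 hw0 hwP _ p hp ?_ (by
        intro I hI
        rw [Set.mem_insert_iff, Set.mem_singleton_iff] at hI
        exact hI)
      have := hpP hwP 1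
      rwa [one_smul] at this
    · push Not at hw
      obtain ⟨v1, v2, h1, h2, h12⟩ := quad_iso Q hQ (by
          rintro m hm rfl
          have hmP : m ∈ P := sq_mem hP.1 hQP
          exact hw m hm (by rintro rfl; simp at hQ0) hmP)
      obtain ⟨X0, W0, hX, hW, hXW, a1, a2, a3, b1, b2⟩ := exists_planes v1 v2 p
      refine criterion (X0 * W0 * Q) (nodal_quadric Q X0 W0 hQ hX hW hXW v1 v2 h1 h2 h12 a1 a2
          b1 b2) _ ?_
      intro I hI
      rw [Set.mem_insert_iff, Set.mem_singleton_iff] at hI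
      rcases hI with rfl | rfl
      · exact Or.inl ⟨hP, Ideal.mul_mem_left _ _ hQP⟩
      · refine Or.inr ⟨p, hp, rfl, ?_⟩
        have hQp : eval p Q = 0 := by
          have := hpP hQP 1
          rwa [one_smul] at this
        exact two_le_mult_point p X0 Q W0 1 2 hX hQ a3 hQp _ (by ring)
  | plane Z w a b hw ha hb hli h =>
    obtain ⟨m, hm, hli4⟩ := exists_completion w a b hw ha hb hli
    refine tetra ![w, a, b, m] (by intro i; fin_cases i <;> simpa) hli4 Z ?_
    intro P hP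
    rcases h P hP with ⟨hc, hw' | ⟨ha', hb'⟩⟩ | ⟨p, hp, rfl, h1, h2⟩
    · exact Or.inl ⟨hc, 0, by simpa using hw'⟩
    · exact Or.inl ⟨hc, 1, by simpa using ha'⟩
    · exact Or.inr ⟨p, hp, rfl, 1, 2, by decide, by simpa using h1, by simpa using h2⟩
  | three_lines Λ hΛ a b ha hb haΛ hbΛ hd =>
    have key : ∃ c : S, c.IsHomogeneous 1 ∧ c ∈ Λ 2 ∧ LinearIndependent ℂ ![a 0, a 1, c] := by
      rcases third_plane (hd 0 1 (by decide)) (hd 0 2 (by decide)) with h | h
      · exact ⟨a 2, ha 2, haΛ 2, h⟩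
      · exact ⟨b 2, hb 2, hbΛ 2, h⟩
    obtain ⟨c, hc, hcΛ, hli⟩ := key
    obtain ⟨m, hm, hli4⟩ := exists_completion (a 0) (a 1) c (ha 0) (ha 1) hc hli
    have h0 := ha 0
    have h1 := ha 1
    refine tetra ![a 0, a 1, c, m] (by intro i; fin_cases i <;> simpa) hli4 _ ?_
    rintro P ⟨i, rfl⟩
    left
    refine ⟨hΛ i, i.castSucc, ?_⟩
    fin_cases i
    · exact haΛ 0
    · exact haΛ 1
    · exact hcΛ

end Pool.Agent.CLU
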