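import Pool.Agent.CLU.Defs

/-!
# CLU / Mult: first properties of the multiplicity and of point ideals
-/

set_option autoImplicit false

namespace Pool.Agent.CLU

open MvPolynomial

/-- `κ[T][s]` is a domain and `expand P` is a ring homomorphism. -/
theorem mult_mul (P : Ideal S) [P.IsPrime] (F G : S) : mult P (F * G) = mult P F + mult P G := by
  unfold mult
  rw [map_mul, Polynomial.trailingDegree_mul]

/-- `F(ξ + s T) ≠ 0` for `F ≠ 0`: the substitution `s = 1`, `T = T - ξ` gives back `F`. -/
theorem expand_injective (P : Ideal S) [P.IsPrime] : Function.Injective (expand P) := by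
  let sub : MvPolynomial (Fin 4) (Kap P) →ₐ[Kap P] MvPolynomial (Fin 4) (Kap P) :=
    aeval (fun j => X j - C (gen P j))
  let ev : Polynomial (MvPolynomial (Fin 4) (Kap P)) →+* MvPolynomial (Fin 4) (Kap P) :=
    Polynomial.evalRingHom 1
  let Φ : S →+* MvPolynomial (Fin 4) (Kap P) :=
    (sub : MvPolynomial (Fin 4) (Kap P) →+* MvPolynomial (Fin 4) (Kap P)).comp
      (ev.comp (expand P : S →+* Polynomial (MvPolynomial (Fin 4) (Kap P))))
  have hΦ : Φ = map (algebraMap ℂ (Kap P)) := by
    apply MvPolynomial.ringHom_ext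
    · intro c
      have h1 : Φ (C c) = sub (ev (expand P (C c))) := rfl
      have h2 : expand P (C c) = Polynomial.C (C (algebraMap ℂ (Kap P) c)) := by
        have h3 : (C c : S) = algebraMap ℂ S c := rfl
        rw [h3, AlgHom.commutes]
        rfl
      rw [h1, h2, map_C]
      have h4 : ev (Polynomial.C (C (algebraMap ℂ (Kap P) c))) = C (algebraMap ℂ (Kap P) c) := by
        simp [ev]
      rw [h4]
      have h5 : (C (algebraMap ℂ (Kap P) c) : MvPolynomial (Fin 4) (Kap P)) =
        algebraMap (Kap P) _ (algebraMap ℂ (Kap P) c) := rfl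
      rw [h5, AlgHom.commutes]
    · intro j
      have h1 : Φ (X j) = sub (ev (expand P (X j))) := rfl
      have h2 : expand P (X j) =
          Polynomial.C (C (gen P j)) + Polynomial.X * Polynomial.C (X j) := aeval_X _ _
      have h4 : ev (Polynomial.C (C (gen P j)) + Polynomial.X * Polynomial.C (X j)) =
          C (gen P j) + X j := by
        simp [ev]
      rw [h1, h2, h4, map_X, map_add]
      have h5 : (C (gen P j) : MvPolynomial (Fin 4) (Kap P)) =
        algebraMap (Kap P) _ (gen P j) := rfl
      have h6 : sub (X j) = X j - C (gen P j) := aeval_X _ _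
      rw [h6, h5, AlgHom.commutes]
      ring
  have hinj : Function.Injective Φ := by
    rw [hΦ]
    exact map_injective _ (algebraMap ℂ (Kap P)).injective
  intro F G h
  apply hinj
  have h1 : ∀ F, Φ F = sub (ev (expand P F)) := fun F => rfl
  rw [h1, h1, h]

theorem mult_ne_top (P : Ideal S) [P.IsPrime] (F : S) (hF : F ≠ 0) : mult P F ≠ ⊤ := by
  unfold mult
  rw [Ne, Polynomial.trailingDegree_eq_top]
  intro h
  apply hF
  apply expand_injective P
  rw [h, map_zero]

/-- The constant coefficient of the expansion. -/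
theorem coeff_zero_expand (P : Ideal S) (F : S) :
    (expand P F).coeff 0 = C (algebraMap (S ⧸ P) (Kap P) (Ideal.Quotient.mk P F)) := by
  let ev : Polynomial (MvPolynomial (Fin 4) (Kap P)) →+* MvPolynomial (Fin 4) (Kap P) :=
    Polynomial.evalRingHom 0
  let Φ : S →+* MvPolynomial (Fin 4) (Kap P) :=
    ev.comp (expand P : S →+* Polynomial (MvPolynomial (Fin 4) (Kap P)))
  let Ψ : S →+* MvPolynomial (Fin 4) (Kap P) :=
    C.comp ((algebraMap (S ⧸ P) (Kap P)).comp (Ideal.Quotient.mk P))
  have h : Φ = Ψ := by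
    apply MvPolynomial.ringHom_ext
    · intro c
      have h1 : Φ (C c) = ev (expand P (C c)) := rfl
      have h2 : expand P (C c) = Polynomial.C (C (algebraMap ℂ (Kap P) c)) := by
        have h3 : (C c : S) = algebraMap ℂ S c := rfl
        rw [h3, AlgHom.commutes]
        rfl
      rw [h1, h2]
      have h4 : ev (Polynomial.C (C (algebraMap ℂ (Kap P) c))) = C (algebraMap ℂ (Kap P) c) := by
        simp [ev]
      rw [h4]
      rfl
    · intro j
      have h1 : Φ (X j) = ev (expand P (X j)) := rfl
      have h2 : expand P (X j) =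
          Polynomial.C (C (gen P j)) + Polynomial.X * Polynomial.C (X j) := aeval_X _ _
      have h4 : ev (Polynomial.C (C (gen P j)) + Polynomial.X * Polynomial.C (X j)) =
          C (gen P j) := by
        simp [ev]
      rw [h1, h2, h4]
      rfl
  have h5 : Φ F = Ψ F := by rw [h]
  rw [Polynomial.coeff_zero_eq_eval_zero]
  exact h5

/-- The constant coefficient (in `s`) of `F(ξ + s T)` is `F(ξ)`, the class of `F`. -/
theorem one_le_mult (P : Ideal S) [P.IsPrime] (F : S) (hF : F ∈ P) : 1 ≤ mult P F := by
  unfold mult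
  rw [ENat.one_le_iff_ne_zero, Polynomial.trailingDegree_ne_zero, coeff_zero_expand,
    Ideal.Quotient.eq_zero_iff_mem.2 hF, map_zero, map_zero]

theorem mult_C (P : Ideal S) [P.IsPrime] (c : ℂ) (hc : c ≠ 0) : mult P (C c) = 0 := by
  unfold mult
  rw [Polynomial.trailingDegree_eq_zero, coeff_zero_expand]
  have h1 : algebraMap (S ⧸ P) (Kap P) (Ideal.Quotient.mk P (C c)) = algebraMap ℂ (Kap P) c := rfl
  rw [h1]
  simpa using hc

/-- The restriction of a form to the line through the point `p`. -/
noncomputable def lineHom (p : Fin 4 → ℂ) : S →ₐ[ℂ] Polynomial ℂ :=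
  aeval (fun j => Polynomial.C (p j) * Polynomial.X)

theorem eval_lineHom (p : Fin 4 → ℂ) (F : S) (c : ℂ) :
    Polynomial.eval c (lineHom p F) = eval (c • p) F := by
  let Φ : S →+* ℂ := (Polynomial.evalRingHom c).comp (lineHom p : S →+* Polynomial ℂ)
  have h : Φ = eval (c • p) := by
    apply MvPolynomial.ringHom_ext
    · intro a
      have h1 : Φ (C a) = Polynomial.eval c (lineHom p (C a)) := rfl
      have h2 : lineHom p (C a) = Polynomial.C a := by
        have h3 : (C a : S) = algebraMap ℂ S a := rfl
        rw [h3, AlgHom.commutes]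
        rfl
      rw [h1, h2, Polynomial.eval_C, eval_C]
    · intro j
      have h1 : Φ (X j) = Polynomial.eval c (lineHom p (X j)) := rfl
      have h2 : lineHom p (X j) = Polynomial.C (p j) * Polynomial.X := aeval_X _ _
      rw [h1, h2, Polynomial.eval_mul, Polynomial.eval_C, Polynomial.eval_X, eval_X, Pi.smul_apply,
        smul_eq_mul, mul_comm]
  exact congrArg (fun φ : S →+* ℂ => φ F) h

theorem pointIdeal_eq_ker (p : Fin 4 → ℂ) :
    pointIdeal p = RingHom.ker (lineHom p : S →+* Polynomial ℂ) := by
  ext F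
  rw [RingHom.mem_ker]
  constructor
  · intro h
    apply Polynomial.funext
    intro c
    have h1 : Polynomial.eval c (lineHom p F) = 0 := by rw [eval_lineHom]; exact h c
    rw [Polynomial.eval_zero]
    exact h1
  · intro h c
    rw [← eval_lineHom]
    have h1 : lineHom p F = 0 := h
    rw [h1, Polynomial.eval_zero]

/-- `S / pointIdeal p` embeds into `ℂ[λ]` by `F ↦ F(λ p)`. -/
theorem pointIdeal_prime (p : Fin 4 → ℂ) : (pointIdeal p).IsPrime := by
  rw [pointIdeal_eq_ker]
  exact RingHom.ker_isPrime _

theorem X_notMem_pointIdeal (p : Fin 4 → ℂ) (j : Fin 4) (hj : p j ≠ 0) :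
    X j ∉ pointIdeal p := by
  intro h
  have h1 : eval ((1 : ℂ) • p) (X j) = 0 := h 1
  rw [eval_X, one_smul] at h1
  exact hj h1

theorem mem_pointIdeal_of_homog (p : Fin 4 → ℂ) (F : S) (d : ℕ) (hF : F.IsHomogeneous d)
    (hp : eval p F = 0) : F ∈ pointIdeal p := by
  intro c
  have h1 : eval (c • p) F = c ^ d * eval p F := by
    rw [eval_eq', eval_eq', Finset.mul_sum]
    refine Finset.sum_congr rfl fun m hm => ?_
    have h2 : ∑ i, m i = d := by
      have h3 := hF (mem_support_iff.1 hm)
      rw [← h3, Finsupp.weight_apply, Finsupp.sum_fintype _ _ (by simp)]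
      simp
    have h3 : ∏ i, (c • p) i ^ m i = c ^ d * ∏ i, p i ^ m i := by
      rw [← h2, ← Finset.prod_pow_eq_pow_sum, ← Finset.prod_mul_distrib]
      refine Finset.prod_congr rfl fun i _ => ?_
      rw [Pi.smul_apply, smul_eq_mul, mul_pow]
    rw [h3]
    ring
  rw [h1, hp, mul_zero]

end Pool.Agent.CLU
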