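import Pool.Agent.CLU.Der

/-!
# CLU / Theta: the derivations `t_j ∂ / ∂ t_j`

`K` is (isomorphic to) the fraction field of `ℂ[t_0, t_1, t_2]`: every element of
`adjoin ℂ (range t)` is `aeval t n / aeval t d` (`IntermediateField.mem_adjoin_range_iff`).  Extend
the derivation `f ↦ aeval t (X j * pderiv j f)` of the polynomial ring by `exists_ext_frac`.
The chain rule: both sides are derivations `K → M` which agree on the `t_i`; the set where they
agree is an intermediate field.
-/

set_option autoImplicit false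

namespace Pool.Agent.CLU

open MvPolynomial

/-- Two derivations of a field that agree on generators are equal. -/
private theorem der_ext {K : Type} [Field K] [Algebra ℂ K] (t : Fin 3 → K)
    (hgen : IntermediateField.adjoin ℂ (Set.range t) = ⊤)
    {M : Type} [Field M] [Algebra ℂ M] [Algebra K M] [IsScalarTower ℂ K M]
    (δ₁ δ₂ : Derivation ℂ K M) (h : ∀ i, δ₁ (t i) = δ₂ (t i)) (a : K) : δ₁ a = δ₂ a := by
  have ha : a ∈ IntermediateField.adjoin ℂ (Set.range t) := by rw [hgen]; trivial
  induction ha using IntermediateField.adjoin_induction with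
  | mem x hx =>
    obtain ⟨i, rfl⟩ := hx
    exact h i
  | algebraMap x => simp
  | add x y _ _ hx hy => rw [map_add, map_add, hx, hy]
  | inv x _ hx => rw [Derivation.leibniz_inv, Derivation.leibniz_inv, hx]
  | mul x y _ _ hx hy => rw [Derivation.leibniz, Derivation.leibniz, hx, hy]

theorem exists_theta {K : Type} [Field K] [Algebra ℂ K] (t : Fin 3 → K)
    (hinj : Function.Injective (aeval t : MvPolynomial (Fin 3) ℂ →ₐ[ℂ] K))
    (hgen : IntermediateField.adjoin ℂ (Set.range t) = ⊤) :
    ∃ θ : Fin 3 → Derivation ℂ K K, (∀ i j, θ j (t i) = if i = j then t i else 0) ∧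
      ∀ (M : Type) [Field M] [Algebra ℂ M] [Algebra K M] [IsScalarTower ℂ K M]
        (δ : Derivation ℂ K M) (a : K), δ a = ∑ j, algebraMap K M (θ j a / t j) * δ (t j) := by
  classical
  let alg : Algebra (MvPolynomial (Fin 3) ℂ) K := (aeval t).toAlgebra
  have hmap : ∀ f : MvPolynomial (Fin 3) ℂ, algebraMap (MvPolynomial (Fin 3) ℂ) K f = aeval t f :=
    fun f => rfl
  have : IsScalarTower ℂ (MvPolynomial (Fin 3) ℂ) K := IsScalarTower.of_algebraMap_eq fun r => by
    rw [hmap]
    show algebraMap ℂ K r = aeval t (C r)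
    rw [aeval_C]
  have hf : FaithfulSMul (MvPolynomial (Fin 3) ℂ) K :=
    (faithfulSMul_iff_algebraMap_injective _ _).mpr hinj
  have : IsFractionRing (MvPolynomial (Fin 3) ℂ) K := by
    refine IsFractionRing.of_field _ _ fun z => ?_
    have hz : z ∈ IntermediateField.adjoin ℂ (Set.range t) := by rw [hgen]; trivial
    obtain ⟨r, s, hrs⟩ := (IntermediateField.mem_adjoin_range_iff ℂ t z).mp hz
    exact ⟨r, s, hrs⟩
  have hext : ∀ j : Fin 3, ∃ D : Derivation ℂ K K, ∀ i, D (t i) = if i = j then t i else 0 := by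
    intro j
    obtain ⟨D, hD⟩ := exists_ext_frac (k := ℂ) (A := MvPolynomial (Fin 3) ℂ) (K := K)
      (MvPolynomial.mkDerivation ℂ (fun i : Fin 3 => if i = j then t i else 0))
    refine ⟨D, fun i => ?_⟩
    have h1 := hD (X i)
    rw [hmap, aeval_X, MvPolynomial.mkDerivation_X] at h1
    exact h1
  choose θ hθ using hext
  refine ⟨θ, fun i j => hθ j i, ?_⟩
  intro M _ _ _ _ δ a
  have ht0 : ∀ i, t i ≠ 0 := by
    intro i h
    have h1 : aeval t (X i : MvPolynomial (Fin 3) ℂ) = aeval t (0 : MvPolynomial (Fin 3) ℂ) := by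
      rw [aeval_X, map_zero, h]
    exact X_ne_zero i (hinj h1)
  let δ' : Derivation ℂ K M := ∑ j : Fin 3,
    (algebraMap K M (t j)⁻¹ * δ (t j)) • ((Algebra.linearMap K M).compDer (θ j))
  have hδ' : ∀ b : K, δ' b = ∑ j, algebraMap K M (θ j b / t j) * δ (t j) := by
    intro b
    have h1 : δ' b = ∑ j : Fin 3,
        ((algebraMap K M (t j)⁻¹ * δ (t j)) • ((Algebra.linearMap K M).compDer (θ j))) b := by
      simp only [δ']
      rw [← Derivation.coeFnAddMonoidHom_apply, map_sum, Finset.sum_apply]
      rfl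
    rw [h1]
    refine Finset.sum_congr rfl fun j _ => ?_
    show (algebraMap K M (t j)⁻¹ * δ (t j)) * algebraMap K M (θ j b) = _
    rw [div_eq_mul_inv, map_mul]
    ring
  rw [← hδ' a]
  refine der_ext t hgen δ δ' (fun i => ?_) a
  rw [hδ', Finset.sum_eq_single i]
  · rw [hθ i i, if_pos rfl, div_self (ht0 i), map_one, one_mul]
  · intro j _ hj
    rw [hθ j i, if_neg (fun h => hj h.symm), zero_div, map_zero, zero_mul]
  · intro h
    exact absurd (Finset.mem_univ i) h

end Pool.Agent.CLU
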